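import Mathlib
import Pool.Agent.H904L2.AT2

/-!
# Hankel determinants of several conjugate power series
-/

set_option autoImplicit false

open Polynomial H904L2
open scoped Real

namespace Pool.Agent.X184.SZ

open H904L2.DetBound in
/-- the bound for Hankel determinants, before the limit -/
theorem det_le (L : ℂ[X] →ₗ[ℂ] ℂ) (K : Set ℂ) (hK : IsCompact K) (hKi : K.Infinite) (C : ℝ)
    (hL : ∀ p : ℂ[X], ∀ B : ℝ, (∀ z ∈ K, ‖p.eval z‖ ≤ B) → ‖L p‖ ≤ C * B)
    (b δ : ℝ)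
    (hE : ∀ N : ℕ, 0 < N → ∀ z : Fin N → ℂ, Function.Injective z → (∀ i, z i ∈ K) →
      ∑ i, ∑ j ∈ Finset.univ.erase i, Real.log ‖z i - z j‖ ≤ N * b - (N : ℝ) ^ 2 * δ) :
    ∀ N : ℕ, 0 < N →
      ‖(Matrix.of fun i j : Fin N => L (X ^ ((i : ℕ) + (j : ℕ)))).det‖ ≤
        Real.exp (N * b - (N : ℝ) ^ 2 * δ) * ((N.factorial : ℝ) * C ^ N) := by
  intro N hN2
  obtain ⟨ζ, hζK, hdet, hmax⟩ := exists_fekete K hK hKi N
  have hinj : Function.Injective ζ := Matrix.det_vandermonde_ne_zero_iff.1 hdet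
  have hlk : ∀ k, ∀ z ∈ K, ‖(lk ζ k).eval z‖ ≤ 1 := by
    intro k z hz
    rw [lk_eval, norm_mul, norm_inv]
    have h1 := hmax (Function.update ζ k z) (fun i => by
      by_cases h : i = k
      · subst h
        rw [Function.update_self]
        exact hz
      · rw [Function.update_of_ne h]
        exact hζK i)
    have h2 : 0 < ‖(Matrix.vandermonde ζ).det‖ := norm_pos_iff.2 hdet
    rw [inv_mul_le_iff₀ h2, mul_one]
    exact h1
  rw [hankel_eq L ζ hdet, Matrix.det_mul, Matrix.det_mul, Matrix.det_transpose, norm_mul,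
    norm_mul]
  have hA : ‖(Matrix.of fun k l : Fin N => L (lk ζ k * lk ζ l)).det‖ ≤
      (N.factorial : ℝ) * C ^ N := by
    have h1 := Matrix.det_le (A := Matrix.of fun k l : Fin N => L (lk ζ k * lk ζ l))
      (abv := NormedField.toAbsoluteValue ℂ) (x := C) (fun k l => by
        have h2 := hL (lk ζ k * lk ζ l) 1 (fun z hz => by
          rw [eval_mul, norm_mul]
          exact mul_le_one₀ (hlk k z hz) (norm_nonneg _) (hlk l z hz))
        rw [mul_one] at h2
        exact h2)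
    rw [Fintype.card_fin, nsmul_eq_mul] at h1
    exact h1
  have hE' := hE N hN2 ζ hinj hζK
  calc _ = ‖(Matrix.vandermonde ζ).det‖ ^ 2 *
        ‖(Matrix.of fun k l : Fin N => L (lk ζ k * lk ζ l)).det‖ := by ring
    _ ≤ Real.exp (N * b - (N : ℝ) ^ 2 * δ) * ((N.factorial : ℝ) * C ^ N) := by
        rw [det_sq ζ hinj]
        exact mul_le_mul (Real.exp_le_exp.2 hE') hA (norm_nonneg _) (Real.exp_pos _).le

/-- the bound for the Hankel determinants of one power series -/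
theorem det_single {ι : Type} [Fintype ι] [Nonempty ι] (a : ι → ℂ) (ha : ∀ i, a i ≠ 0)
    (c : ℕ → ℂ) (hc0 : c 0 = 1)
    (hc : (PowerSeries.mk c) ^ 2 = ((∏ i, (1 - C (a i) * X) : ℂ[X]) : PowerSeries ℂ))
    (φ : ℂ → ℝ) (hφ : ContDiff ℝ 1 φ) (hφc : HasCompactSupport φ) (T : ℝ) (hT : 0 < T)
    (hφT : ∀ z, ‖z‖ ≤ Real.exp (-T) → φ z = 0) (ε : ℝ)
    (hφK : ∀ i, ∀ t : ℝ, t ≤ Real.log ‖a i‖ →
      max t 0 - φ (Complex.exp (t + (a i).arg * Complex.I)) ≤ ε) (η' : ℝ) (hη' : ε < η') :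
    ∃ b C : ℝ, 0 ≤ C ∧ ∀ N : ℕ, 0 < N →
      ‖(Matrix.of fun i j : Fin N => c ((i : ℕ) + (j : ℕ))).det‖ ≤
        Real.exp (N * b + (N : ℝ) ^ 2 * ((2 * π)⁻¹ * (∫ z, dirE φ z) +
          2 * Real.circleAverage φ 0 1 + 2 * η')) * ((N.factorial : ℝ) * C ^ N) := by
  classical
  set F : ℝ := (2 * π)⁻¹ * (∫ z, dirE φ z) + 2 * Real.circleAverage φ 0 1 with hFdef
  -- the function log⁺ - φ
  set h : ℂ → ℝ := fun w => Real.posLog ‖w‖ - φ w with hh
  have hcont : Continuous h := by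
    have h1 : Continuous fun w : ℂ => Real.posLog ‖w‖ := Real.continuous_posLog.comp continuous_norm
    exact h1.sub hφ.continuous
  have hexp : ∀ (t y : ℝ), ‖Complex.exp (t + y * Complex.I)‖ = Real.exp t := by
    intro t y
    rw [Complex.norm_exp]
    simp
  have hε0 : 0 ≤ ε := by
    obtain ⟨i⟩ := (inferInstance : Nonempty ι)
    have h1 := hφK i (min (Real.log ‖a i‖) (-T)) (min_le_left _ _)
    have h2 : φ (Complex.exp (((min (Real.log ‖a i‖) (-T) : ℝ) : ℂ) + (a i).arg * Complex.I)) = 0 := by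
      apply hφT
      rw [hexp]
      exact Real.exp_le_exp.2 (min_le_right _ _)
    rw [h2] at h1
    have h3 : (0:ℝ) ≤ max (min (Real.log ‖a i‖) (-T)) 0 := le_max_right _ _
    linarith
  obtain ⟨δ, ρ, hδ, hρ, hclose⟩ := Kset_close a T h hcont ε η' hη'
    (by
      intro z hz
      have h1 : φ z = 0 := hφT z hz.le
      have h2 : Real.posLog ‖z‖ = 0 := by
        rw [hz, Real.posLog_eq_zero_iff, abs_of_pos (Real.exp_pos _)]
        exact Real.exp_le_one_iff.2 (by linarith)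
      simp only [hh, h1, h2]
      linarith)
    (by
      intro i t _ ht
      have h1 := hφK i t ht
      have h2 : Real.posLog ‖Complex.exp (t + (a i).arg * Complex.I)‖ = max t 0 := by
        rw [hexp, Real.posLog, Real.log_exp, max_comm]
      simp only [hh, h2]
      exact h1)
  -- the radius
  obtain ⟨R, hR0, hRa, hRT⟩ : ∃ R : ℝ, 0 < R ∧ (∀ i, ‖a i‖ < R) ∧ Real.exp (-T) < R := by
    refine ⟨(∑ i, ‖a i‖) + Real.exp (-T) + 1, ?_, ?_, ?_⟩
    · have := Finset.sum_nonneg (s := Finset.univ) (fun i _ => norm_nonneg (a i))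
      have := Real.exp_pos (-T)
      linarith
    · intro i
      have := Finset.single_le_sum (f := fun i => ‖a i‖) (fun i _ => norm_nonneg (a i)) (Finset.mem_univ i)
      have := Real.exp_pos (-T)
      linarith
    · have := Finset.sum_nonneg (s := Finset.univ) (fun i _ => norm_nonneg (a i))
      linarith
  obtain ⟨C, hC0, hC⟩ := contour_bound a ha T δ R hδ hRa hRT
  set L := AT1.Lf a R hR0 (AT1.continuousOn_Fsq a R hR0 hRa) with hL
  have hLb : ∀ p : ℂ[X], ∀ B : ℝ, (∀ z ∈ Kset a T δ, ‖p.eval z‖ ≤ B) → ‖L p‖ ≤ C * B := hC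
  -- coefficients
  obtain ⟨c', hc'0, hc'sq, hc'⟩ := exists_coeffs a
  have hcc : ∀ n, c' n = c n := by
    have h1 : (PowerSeries.mk c' - PowerSeries.mk c) *
        (PowerSeries.mk c' + PowerSeries.mk c) = 0 := by
      have : (PowerSeries.mk c') ^ 2 = (PowerSeries.mk c) ^ 2 := by
        rw [hc'sq, hc]
      linear_combination this
    rcases mul_eq_zero.1 h1 with h2 | h2
    · intro n
      have h3 := congrArg (PowerSeries.coeff n) (sub_eq_zero.1 h2)
      simpa using h3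
    · exfalso
      have h3 := congrArg (PowerSeries.coeff 0) h2
      simp only [map_add, PowerSeries.coeff_mk, map_zero, hc'0, hc0] at h3
      norm_num at h3
  have hLX : ∀ n : ℕ, L (X ^ n) = c n := by
    intro n
    have h1 := hc' R hR0 hRa n
    rw [← hcc n, ← h1]
    change Real.circleAverage (fun z => Fsq a z * (X ^ n : ℂ[X]).eval z) 0 R = _
    simp
  -- the energy bound on the compact set
  have hE : ∀ N : ℕ, 0 < N → ∀ z : Fin N → ℂ, Function.Injective z →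
      (∀ i, z i ∈ Kset a T δ) →
      ∑ i, ∑ j ∈ Finset.univ.erase i, Real.log ‖z i - z j‖ ≤
        N * Real.log (1 / ρ) - (N : ℝ) ^ 2 * (-(F + 2 * η')) := by
    intro N hN z hz hzK
    have h1 := energy_bound φ hφ hφc hN z hz hρ
    have h2 : ∑ i, Real.circleAverage (fun w => Real.posLog ‖w‖ - φ w) (z i) ρ ≤ N * η' := by
      calc ∑ i, Real.circleAverage (fun w => Real.posLog ‖w‖ - φ w) (z i) ρ
          ≤ ∑ _i : Fin N, η' := Finset.sum_le_sum (fun i _ => hclose (z i) (hzK i))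
        _ = N * η' := by simp
    have h3 : 2 * (N : ℝ) * ∑ i, Real.circleAverage (fun w => Real.posLog ‖w‖ - φ w) (z i) ρ ≤
        2 * (N : ℝ) * (N * η') := by
      apply mul_le_mul_of_nonneg_left h2
      positivity
    calc _ ≤ _ := h1
      _ ≤ N * Real.log (1 / ρ) + (N : ℝ) ^ 2 * F + 2 * N * (N * η') := by
          rw [hFdef]
          linarith
      _ = _ := by ring
  refine ⟨Real.log (1 / ρ), C, hC0, fun N hN => ?_⟩
  have h1 := det_le L (Kset a T δ) (Kset_isCompact a T δ) (Kset_infinite a T δ) C hLb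
    (Real.log (1 / ρ)) (-(F + 2 * η')) hE N hN
  have h2 : (Matrix.of fun i j : Fin N => L (X ^ ((i : ℕ) + (j : ℕ)))) =
      (Matrix.of fun i j : Fin N => c ((i : ℕ) + (j : ℕ))) := by
    ext i j
    simp [hLX]
  rw [h2] at h1
  refine h1.trans (le_of_eq ?_)
  congr 2
  ring

/-- the numerical part for several power series -/
lemma numericS {S : Type} [Fintype S] [Nonempty S] (b δ C : S → ℝ) (hC : ∀ s, 0 ≤ C s)
    (hδ : ∑ s, δ s < 0) :
    ∃ N0 : ℕ, ∀ N : ℕ, N0 ≤ N →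
      ∏ s, (Real.exp (N * b s + (N : ℝ) ^ 2 * δ s) * ((N.factorial : ℝ) * C s ^ N)) < 1 := by
  have hk : (0:ℝ) < Fintype.card S := by exact_mod_cast Fintype.card_pos
  set k : ℝ := (Fintype.card S : ℝ) with hkdef
  set C' : ℝ := ∑ s, C s with hC'
  have hCle : ∀ s, C s ≤ C' := fun s =>
    Finset.single_le_sum (f := C) (fun s _ => hC s) (Finset.mem_univ s)
  have hC'0 : 0 ≤ C' := Finset.sum_nonneg fun s _ => hC s
  obtain ⟨N0, hN0⟩ := H904L2.DetBound.numeric C' ((∑ s, b s) / k) (-(∑ s, δ s) / k) hC'0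
    (div_pos (by linarith) hk)
  refine ⟨N0, fun N hN => ?_⟩
  have h1 := hN0 N hN
  have h2 : ∏ s, (Real.exp (N * b s + (N : ℝ) ^ 2 * δ s) * ((N.factorial : ℝ) * C s ^ N)) ≤
      ∏ s, (Real.exp (N * b s + (N : ℝ) ^ 2 * δ s) * ((N.factorial : ℝ) * C' ^ N)) := by
    apply Finset.prod_le_prod
    · intro s _
      have := hC s
      positivity
    · intro s _
      apply mul_le_mul_of_nonneg_left _ (Real.exp_pos _).le
      apply mul_le_mul_of_nonneg_left _ (Nat.cast_nonneg _)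
      exact pow_le_pow_left₀ (hC s) (hCle s) N
  refine lt_of_le_of_lt h2 ?_
  rw [Finset.prod_mul_distrib, ← Real.exp_sum, Finset.prod_const, Finset.card_univ]
  have h3 : ∑ s, (N * b s + (N : ℝ) ^ 2 * δ s) =
      Fintype.card S * (N * ((∑ s, b s) / k) - (N : ℝ) ^ 2 * (-(∑ s, δ s) / k)) := by
    rw [Finset.sum_add_distrib, ← Finset.mul_sum, ← Finset.mul_sum, ← hkdef]
    field_simp
    ring
  rw [h3, Real.exp_nat_mul, ← mul_pow]
  apply pow_lt_one₀ _ h1 Fintype.card_ne_zero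
  positivity

/-- the power series are rational -/
theorem AT1R {R S : Type} [CommRing R] [Fintype S] [Nonempty S] (e : S → R →+* ℂ)
    (hnorm : ∀ x : R, ∏ s, ‖e s x‖ < 1 → ∀ s, e s x = 0)
    {ι : S → Type} [∀ s, Fintype (ι s)] [∀ s, Nonempty (ι s)] (a : ∀ s, ι s → ℂ)
    (ha : ∀ s i, a s i ≠ 0) (c : ℕ → R) (hc0 : c 0 = 1)
    (hc : ∀ s, (PowerSeries.mk fun n => e s (c n)) ^ 2 =
      ((∏ i, (1 - C (a s i) * X) : ℂ[X]) : PowerSeries ℂ))
    (φ : S → ℂ → ℝ) (hφ : ∀ s, ContDiff ℝ 1 (φ s)) (hφc : ∀ s, HasCompactSupport (φ s))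
    (T : S → ℝ) (hT : ∀ s, 0 < T s) (hφT : ∀ s z, ‖z‖ ≤ Real.exp (-T s) → φ s z = 0)
    (ε : S → ℝ)
    (hφK : ∀ s i, ∀ t : ℝ, t ≤ Real.log ‖a s i‖ →
      max t 0 - φ s (Complex.exp (t + (a s i).arg * Complex.I)) ≤ ε s)
    (hF : ∑ s, ((2 * π)⁻¹ * (∫ z, dirE (φ s) z) + 2 * Real.circleAverage (φ s) 0 1 +
      2 * ε s) < 0) :
    ∀ s, ∃ P Q : ℂ[X], Q ≠ 0 ∧
      (Q : PowerSeries ℂ) * PowerSeries.mk (fun n => e s (c n)) = (P : PowerSeries ℂ) := by
  classical
  have hk : (0:ℝ) < Fintype.card S := by exact_mod_cast Fintype.card_pos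
  set F : S → ℝ := fun s => (2 * π)⁻¹ * (∫ z, dirE (φ s) z) + 2 * Real.circleAverage (φ s) 0 1
    with hFdef
  set t : ℝ := -(∑ s, (F s + 2 * ε s)) / (4 * Fintype.card S) with ht
  have ht0 : 0 < t := by
    rw [ht]
    apply div_pos _ (by positivity)
    have : ∑ s, (F s + 2 * ε s) < 0 := hF
    linarith
  have hsingle : ∀ s, ∃ b C : ℝ, 0 ≤ C ∧ ∀ N : ℕ, 0 < N →
      ‖(Matrix.of fun i j : Fin N => e s (c ((i : ℕ) + (j : ℕ)))).det‖ ≤
        Real.exp (N * b + (N : ℝ) ^ 2 * (F s + 2 * (ε s + t))) * ((N.factorial : ℝ) * C ^ N) :=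
    fun s => det_single (a s) (ha s) (fun n => e s (c n)) (by rw [hc0, map_one]) (hc s) (φ s)
      (hφ s) (hφc s) (T s) (hT s) (hφT s) (ε s) (hφK s) (ε s + t) (by linarith)
  choose b C hC hdet using hsingle
  obtain ⟨N0, hN0⟩ := numericS b (fun s => F s + 2 * (ε s + t)) C hC (by
    have h1 : ∑ s, (F s + 2 * (ε s + t)) = ∑ s, (F s + 2 * ε s) + 2 * t * Fintype.card S := by
      rw [show (∑ s, (F s + 2 * (ε s + t))) = ∑ s, ((F s + 2 * ε s) + 2 * t) from
        Finset.sum_congr rfl fun s _ => by ring, Finset.sum_add_distrib, Finset.sum_const,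
        Finset.card_univ, nsmul_eq_mul]
      ring
    rw [h1, ht]
    have h2 : ∑ s, (F s + 2 * ε s) < 0 := hF
    have h3 : 2 * (-(∑ s, (F s + 2 * ε s)) / (4 * Fintype.card S)) * Fintype.card S =
        -(∑ s, (F s + 2 * ε s)) / 2 := by
      field_simp
      ring
    rw [h3]
    linarith)
  intro s
  apply kronecker (fun n => e s (c n)) (max N0 1)
  intro N hN
  have hN1 : N0 ≤ N := (le_max_left _ _).trans hN
  have hN2 : 0 < N := (le_max_right N0 1).trans hN
  set D := (Matrix.of fun i j : Fin N => c ((i : ℕ) + (j : ℕ))).det with hD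
  have h3 : ∀ s, (Matrix.of fun i j : Fin N => e s (c ((i : ℕ) + (j : ℕ)))).det = e s D := by
    intro s
    rw [hD, RingHom.map_det]
    congr 1
  have h4 : ∏ s, ‖e s D‖ < 1 := by
    refine lt_of_le_of_lt ?_ (hN0 N hN1)
    apply Finset.prod_le_prod
    · intro s _
      exact norm_nonneg _
    · intro s _
      rw [← h3 s]
      exact hdet s N hN2
  change (Matrix.of fun i j : Fin N => e s (c ((i : ℕ) + (j : ℕ)))).det = 0
  rw [h3 s]
  exact hnorm D h4 s

end Pool.Agent.X184.SZ
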