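import Mathlib
import Pool.Agent.X184.SZ.B

/-!
# The rationality criterion with a better bound for long spikes
-/

set_option autoImplicit false

open Polynomial H904L2
open scoped Real

namespace Pool.Agent.X184.SZ

/-- the area under a tent -/
noncomputable def hf (x : ℝ) : ℝ := min (x ^ 2) (2 * π * x)

open H904L2.Envelope in
theorem integral_tent2 (l t : ℝ) (hl : 0 ≤ l) : ∫ x in (-π)..π, tent l t x ≤ hf l := by
  have hπ := Real.pi_pos
  refine le_min (integral_tent l t hl) ?_
  calc ∫ x in (-π)..π, tent l t x ≤ ∫ x in (-π)..π, l := by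
        apply intervalIntegral.integral_mono_on (by linarith)
          ((tent_continuous _ _).intervalIntegrable _ _) (by simp)
        intro x _
        unfold tent
        exact max_le (by linarith [dc_nonneg (x - t)]) hl
    _ = 2 * π * l := by
        rw [intervalIntegral.integral_const, smul_eq_mul]
        ring

open H904L2.Envelope in
theorem exists_envelope2 {ι : Type} [Fintype ι] [Nonempty ι] (θ ℓ : ι → ℝ)
    (hℓ : ∀ i, 0 ≤ ℓ i) (ε : ℝ) (hε : 0 < ε) :
    ∃ S : ℝ → ℝ, ContDiff ℝ 1 S ∧ Function.Periodic S (2 * π) ∧ (∀ x, |deriv S x| ≤ 1) ∧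
      (∀ x, 0 < S x) ∧ (∀ i, ℓ i ≤ S (θ i)) ∧
      ∫ x in (-π)..π, S x ≤ (∑ i, hf (ℓ i)) + ε := by
  have hπ := Real.pi_pos
  set u : ℝ → ℝ := fun x => Finset.univ.sup' Finset.univ_nonempty (fun i => tent (ℓ i) (θ i) x)
    with hu
  have hle : ∀ i x, tent (ℓ i) (θ i) x ≤ u x := fun i x =>
    Finset.le_sup' (fun i => tent (ℓ i) (θ i) x) (Finset.mem_univ i)
  have hlip1 : ∀ x y, u x ≤ u y + |x - y| := by
    intro x y
    apply Finset.sup'_le
    intro i _
    have h1 := tent_lip (ℓ i) (θ i) x y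
    have h2 := hle i y
    linarith [le_abs_self (tent (ℓ i) (θ i) x - tent (ℓ i) (θ i) y)]
  have hlip : LipschitzWith 1 u := by
    apply LipschitzWith.of_dist_le_mul
    intro x y
    simp only [Real.dist_eq, NNReal.coe_one, one_mul]
    rw [abs_le]
    have h1 := hlip1 x y
    have h2 := hlip1 y x
    rw [abs_sub_comm y x] at h2
    constructor <;> linarith
  have hper : Function.Periodic u (2 * π) := by
    intro x
    simp only [hu]
    congr 1
    ext i
    exact tent_periodic _ _ _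
  have hnn : ∀ x, 0 ≤ u x := fun x => (tent_nonneg _ _ _).trans (hle (Classical.arbitrary ι) x)
  have hub : ∀ x, u x ≤ ∑ i, tent (ℓ i) (θ i) x := by
    intro x
    apply Finset.sup'_le
    intro i _
    exact Finset.single_le_sum (f := fun i => tent (ℓ i) (θ i) x)
      (fun j _ => tent_nonneg _ _ _) (Finset.mem_univ i)
  obtain ⟨S, h1, h2, h3, h4⟩ := steklov u hlip hper (ε / (2 * π)) (by positivity)
  refine ⟨S, h1, h2, h3, fun x => lt_of_le_of_lt (hnn x) (h4 x).1, ?_, ?_⟩
  · intro i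
    have h5 := hle i (θ i)
    have h6 : tent (ℓ i) (θ i) (θ i) = ℓ i := by
      simp only [tent, sub_self, dc_zero, sub_zero]
      exact max_eq_left (hℓ i)
    rw [h6] at h5
    exact h5.trans (h4 _).1.le
  · have hcS : Continuous S := h1.continuous
    have hci : ∀ i ∈ (Finset.univ : Finset ι), IntervalIntegrable
        (fun x => tent (ℓ i) (θ i) x) MeasureTheory.volume (-π) π :=
      fun i _ => (tent_continuous _ _).intervalIntegrable _ _
    have hcs : Continuous (fun x => ∑ i, tent (ℓ i) (θ i) x) :=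
      continuous_finsetSum _ (fun i _ => tent_continuous _ _)
    calc ∫ x in (-π)..π, S x ≤ ∫ x in (-π)..π, ((∑ i, tent (ℓ i) (θ i) x) + ε / (2 * π)) := by
          apply intervalIntegral.integral_mono_on (by linarith) (hcS.intervalIntegrable _ _)
            ((hcs.add continuous_const).intervalIntegrable _ _)
          intro x _
          have e1 := (h4 x).2
          have e2 := hub x
          show S x ≤ (∑ i, tent (ℓ i) (θ i) x) + ε / (2 * π)
          linarith
      _ = (∑ i, ∫ x in (-π)..π, tent (ℓ i) (θ i) x) + ε := by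
          rw [intervalIntegral.integral_add (hcs.intervalIntegrable _ _) (by simp),
            intervalIntegral.integral_finsetSum hci, intervalIntegral.integral_const]
          congr 1
          rw [smul_eq_mul]
          field_simp
          ring
      _ ≤ (∑ i, hf (ℓ i)) + ε := by
          gcongr with i _
          exact integral_tent2 _ _ (hℓ i)

open H904L2.Psi in
theorem exists_PsiQ2 {ι : Type} [Fintype ι] [Nonempty ι] (θ ℓ : ι → ℝ) (hℓ : ∀ i, 0 ≤ ℓ i) :
    ∃ (Ψ : ℂ → ℝ) (T ε : ℝ), 0 < T ∧ ContDiff ℝ 1 Ψ ∧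
      (∀ w, Ψ (w + 2 * π * Complex.I) = Ψ w) ∧ (∀ w : ℂ, T ≤ |w.re| → Ψ w = 0) ∧
      (∀ i, ∀ t : ℝ, t ≤ ℓ i → max t 0 - Ψ (t + θ i * Complex.I) ≤ ε) ∧
      (2 * π)⁻¹ * (∫ w in strip, dirE Ψ w) +
        2 * ((2 * π)⁻¹ * ∫ x in (-π)..π, Ψ (x * Complex.I)) + 2 * ε ≤
          cst (Fintype.card ι) (∑ i, hf (ℓ i)) := by
  classical
  set n : ℝ := (Fintype.card ι : ℝ) with hn
  have hn1 : 1 ≤ n := by
    rw [hn]
    exact_mod_cast Fintype.card_pos
  have hn0 : 0 < n := by linarith
  set e : ℝ := 1 / (2000 * n) with he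
  have he0 : 0 < e := by positivity
  obtain ⟨S, hSc, hSper, hSder, hSpos, hSge, hSint⟩ := exists_envelope2 θ ℓ hℓ e he0
  obtain ⟨R, hRc, hRper, hRder, hRpos, hRle, hRint⟩ := exists_gap θ e he0
  obtain ⟨MS, hMS0, hMS⟩ := bounded_of S hSc.continuous hSper
  obtain ⟨MR, hMR0, hMR⟩ := bounded_of R hRc.continuous hRper
  have hfc : ContDiff ℝ 1 (prof Bpr S) := prof_contDiff Bpr S Bpr_contDiff hSc hSpos
  have hgc : ContDiff ℝ 1 (prof Apr R) := prof_contDiff Apr R Apr_contDiff hRc hRpos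
  obtain ⟨hfi, hfI⟩ := prof_integral Bpr S Bpr_contDiff 3 Bpr_zero_of hSc hSpos hSder
  obtain ⟨hgi, hgI⟩ := prof_integral Apr R Apr_contDiff 1 Apr_zero_of hRc hRpos hRder
  rw [Bpr_integral] at hfI
  rw [Apr_integral] at hgI
  set κ : ℝ := 105 / 1024 with hκ
  have hΨc : ContDiff ℝ 1 (fun z => prof Bpr S z - κ * prof Apr R z) :=
    hfc.sub (contDiff_const.mul hgc)
  refine ⟨fun z => prof Bpr S z - κ * prof Apr R z, 1 + 3 * MS + MR, κ * e, by positivity,
    hΨc, ?_, ?_, ?_, ?_⟩
  · intro w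
    have h1 : (w + 2 * π * Complex.I).im = w.im + 2 * π := by simp
    have h2 : (w + 2 * π * Complex.I).re = w.re := by simp
    simp only [prof, h1, h2, hSper w.im, hRper w.im]
  · intro w hw
    have hS1 : Bpr (w.re / S w.im) = 0 := by
      apply Bpr_zero_of
      rw [abs_div, le_div_iff₀ (abs_pos.mpr (hSpos w.im).ne')]
      have := hMS w.im
      linarith
    have hR1 : Apr (w.re / R w.im) = 0 := by
      apply Apr_zero_of
      rw [abs_div, le_div_iff₀ (abs_pos.mpr (hRpos w.im).ne')]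
      have := hMR w.im
      linarith
    simp only [prof, hS1, hR1]
    ring
  · intro i t ht
    have h1 : (t + θ i * Complex.I : ℂ).im = θ i := by simp
    have h2 : (t + θ i * Complex.I : ℂ).re = t := by simp
    simp only [prof, h1, h2]
    have hA : R (θ i) * Apr (t / R (θ i)) ≤ e := by
      calc R (θ i) * Apr (t / R (θ i)) ≤ R (θ i) * 1 :=
            mul_le_mul_of_nonneg_left (Apr_le_one _) (hRpos _).le
        _ ≤ e := by rw [mul_one]; exact hRle i
    have hκA : κ * (R (θ i) * Apr (t / R (θ i))) ≤ κ * e :=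
      mul_le_mul_of_nonneg_left hA (by norm_num [hκ])
    have hB : max t 0 ≤ S (θ i) * Bpr (t / S (θ i)) := by
      have hSp := hSpos (θ i)
      apply max_le
      · rcases le_or_gt t 0 with h0 | h0
        · exact h0.trans (mul_nonneg hSp.le (Bpr_nonneg _))
        · have h3 : t / S (θ i) ≤ Bpr (t / S (θ i)) := by
            apply Bpr_ge
            · positivity
            · rw [div_le_one hSp]
              exact ht.trans (hSge i)
          calc t = S (θ i) * (t / S (θ i)) := by field_simp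
            _ ≤ _ := mul_le_mul_of_nonneg_left h3 hSp.le
      · exact mul_nonneg hSp.le (Bpr_nonneg _)
    linarith
  · have hI1 : ∫ w in strip, dirE (fun z => prof Bpr S z - κ * prof Apr R z) w ≤
        2 * (256 / 35 * ∫ x in (-π)..π, S x) +
          2 * κ ^ 2 * (512 / 105 * ∫ x in (-π)..π, R x) := by
      have hi2 : MeasureTheory.IntegrableOn
          (fun w => 2 * dirE (prof Bpr S) w + 2 * κ ^ 2 * dirE (prof Apr R) w) strip :=
        (hfi.const_mul 2).add (hgi.const_mul (2 * κ ^ 2))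
      calc ∫ w in strip, dirE (fun z => prof Bpr S z - κ * prof Apr R z) w
          ≤ ∫ w in strip, (2 * dirE (prof Bpr S) w + 2 * κ ^ 2 * dirE (prof Apr R) w) := by
            apply MeasureTheory.integral_mono_of_nonneg
            · exact Filter.Eventually.of_forall fun w => dirE_nonneg _ w
            · exact hi2
            · exact Filter.Eventually.of_forall fun w => dirE_sub_le _ _ κ hfc hgc w
        _ = 2 * (∫ w in strip, dirE (prof Bpr S) w) +
            2 * κ ^ 2 * (∫ w in strip, dirE (prof Apr R) w) := by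
            rw [MeasureTheory.integral_add (hfi.const_mul 2) (hgi.const_mul (2 * κ ^ 2)),
              MeasureTheory.integral_const_mul, MeasureTheory.integral_const_mul]
        _ ≤ _ := by
            have : 0 ≤ 2 * κ ^ 2 := by positivity
            exact add_le_add (mul_le_mul_of_nonneg_left hfI (by norm_num))
              (mul_le_mul_of_nonneg_left hgI this)
    have hI2 : ∫ x in (-π)..π, (fun z => prof Bpr S z - κ * prof Apr R z) (x * Complex.I) =
        9 / 16 * (∫ x in (-π)..π, S x) - κ * ∫ x in (-π)..π, R x := by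
      have h3 : ∀ x : ℝ, (fun z => prof Bpr S z - κ * prof Apr R z) (x * Complex.I) =
          9 / 16 * S x - κ * R x := by
        intro x
        simp only [prof]
        have h1 : (x * Complex.I : ℂ).im = x := by simp
        have h2 : (x * Complex.I : ℂ).re = 0 := by simp
        rw [h1, h2]
        simp only [zero_div, Apr_at_zero, Bpr_at_zero]
        ring
      rw [intervalIntegral.integral_congr (g := fun x => 9 / 16 * S x - κ * R x)
        (fun x _ => h3 x)]
      rw [intervalIntegral.integral_sub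
        ((hSc.continuous.const_mul _).intervalIntegrable _ _)
        ((hRc.continuous.const_mul _).intervalIntegrable _ _),
        intervalIntegral.integral_const_mul, intervalIntegral.integral_const_mul]
    rw [hI2]
    have hπ : 0 < π := Real.pi_pos
    have hi : (2 * π)⁻¹ * (∫ w in strip, dirE (fun z => prof Bpr S z - κ * prof Apr R z) w) ≤
        (2 * π)⁻¹ * (2 * (256 / 35 * ∫ x in (-π)..π, S x) +
          2 * κ ^ 2 * (512 / 105 * ∫ x in (-π)..π, R x)) :=
      mul_le_mul_of_nonneg_left hI1 (by positivity)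
    refine (add_le_add_left (add_le_add_left hi _) _).trans ?_
    set IS := ∫ x in (-π)..π, S x with hIS
    set IR := ∫ x in (-π)..π, R x with hIR
    have hL : (2 * π)⁻¹ * (2 * (256 / 35 * IS) + 2 * κ ^ 2 * (512 / 105 * IR)) +
        2 * ((2 * π)⁻¹ * (9 / 16 * IS - κ * IR)) + 2 * (κ * e) =
        π⁻¹ * (4411 / 560 * IS - 105 / 2048 * IR + 105 / 512 * π * e) := by
      rw [hκ]
      field_simp
      ring
    rw [hL]
    unfold cst
    apply mul_le_mul_of_nonneg_left _ (by positivity)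
    rw [← he]
    have h5 : π ^ 2 / n ≤ IR := hRint
    have h6 : IS ≤ (∑ i, hf (ℓ i)) + e := hSint
    nlinarith

/-- the rationality criterion -/
theorem AT2H {R S : Type} [CommRing R] [Fintype S] [Nonempty S] (e : S → R →+* ℂ)
    (hnorm : ∀ x : R, ∏ s, ‖e s x‖ < 1 → ∀ s, e s x = 0)
    {ι : S → Type} [∀ s, Fintype (ι s)] [∀ s, Nonempty (ι s)] {n : ℝ}
    (hn : ∀ s, (Fintype.card (ι s) : ℝ) = n) (a : ∀ s, ι s → ℂ)
    (ha : ∀ s i, a s i ≠ 0) (c : ℕ → R) (hc0 : c 0 = 1)
    (hc : ∀ s, (PowerSeries.mk fun n => e s (c n)) ^ 2 =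
      ((∏ i, (1 - C (a s i) * X) : ℂ[X]) : PowerSeries ℂ))
    (hs : n * ∑ s, ∑ i, hf (Real.posLog ‖a s i‖) < Fintype.card S / 16) :
    ∀ s, ∃ P Q : ℂ[X], Q ≠ 0 ∧ Q ^ 2 * ∏ i, (1 - C (a s i) * X) = P ^ 2 := by
  have hn1 : 1 ≤ n := by
    obtain ⟨s⟩ := (inferInstance : Nonempty S)
    rw [← hn s]
    exact_mod_cast Fintype.card_pos
  have h1 : ∀ s, ∃ (Ψ : ℂ → ℝ) (T ε : ℝ), 0 < T ∧ ContDiff ℝ 1 Ψ ∧
      (∀ w, Ψ (w + 2 * π * Complex.I) = Ψ w) ∧ (∀ w : ℂ, T ≤ |w.re| → Ψ w = 0) ∧
      (∀ i, ∀ t : ℝ, t ≤ Real.posLog ‖a s i‖ →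
        max t 0 - Ψ (t + (a s i).arg * Complex.I) ≤ ε) ∧
      (2 * π)⁻¹ * (∫ w in strip, dirE Ψ w) +
        2 * ((2 * π)⁻¹ * ∫ x in (-π)..π, Ψ (x * Complex.I)) + 2 * ε ≤
          cst (Fintype.card (ι s)) (∑ i, hf (Real.posLog ‖a s i‖)) :=
    fun s => exists_PsiQ2 (fun i => (a s i).arg) (fun i => Real.posLog ‖a s i‖)
      (fun i => Real.posLog_nonneg)
  choose Ψ T ε hT hΨ hper hsupp hK hF using h1
  have h2 : ∀ s, ∃ φ : ℂ → ℝ, ContDiff ℝ 1 φ ∧ HasCompactSupport φ ∧
      (∀ w, φ (Complex.exp w) = Ψ s w) ∧ (∀ z, ‖z‖ ≤ Real.exp (-T s) → φ z = 0) ∧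
      (∫ z, dirE φ z = ∫ w in strip, dirE (Ψ s) w) ∧
      Real.circleAverage φ 0 1 = (2 * π)⁻¹ * ∫ x in (-π)..π, Ψ s (x * Complex.I) :=
    fun s => exists_phi (Ψ s) (hΨ s) (hper s) (T s) (hT s) (hsupp s)
  choose φ hφ hφc hφe hφ0 hφD hφA using h2
  have h3 := AT1R e hnorm a ha c hc0 hc φ hφ hφc T hT hφ0 ε
    (by
      intro s i t ht
      rw [hφe]
      apply hK s i t
      exact ht.trans (le_max_right _ _))
    (by
      refine lt_of_le_of_lt ?_ (sum_cst hn1 (fun s => ∑ i, hf (Real.posLog ‖a s i‖)) hs)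
      apply Finset.sum_le_sum
      intro s _
      rw [hφD, hφA, ← hn s]
      exact hF s)
  intro s
  obtain ⟨P, Q, hQ, hPQ⟩ := h3 s
  refine ⟨P, Q, hQ, ?_⟩
  have h4 : ((Q : PowerSeries ℂ) * PowerSeries.mk (fun n => e s (c n))) ^ 2 =
      (P : PowerSeries ℂ) ^ 2 := by
    rw [hPQ]
  rw [mul_pow, hc s] at h4
  have h5 : ((Q ^ 2 * ∏ i, (1 - C (a s i) * X) : ℂ[X]) : PowerSeries ℂ) =
      ((P ^ 2 : ℂ[X]) : PowerSeries ℂ) := by
    rw [Polynomial.coe_mul, Polynomial.coe_pow, Polynomial.coe_pow]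
    exact h4
  exact Polynomial.coe_inj.1 h5

end Pool.Agent.X184.SZ
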