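import Mathlib
import Pool.Agent.H904L2.NotSquare
import Pool.Agent.H904L2.Graeffe

/-!
# Graeffe transforms and square roots over a ring with a Frobenius lift
-/

set_option autoImplicit false

open Polynomial

namespace Pool.Agent.X184.SZ

section
variable {R : Type*} [CommRing R]

/-- divisible by two -/
lemma add_two {A B A' B' U V : R[X]} (h1 : A = B + 2 * U) (h2 : A' = B' + 2 * V) :
    A + A' = (B + B') + 2 * (U + V) := by
  rw [h1, h2]; ring

variable [IsDomain R] [CharZero R]

lemma even_of' (P : R[X]) (h : P.comp (-X) = P) : (contract 2 P).comp (X ^ 2) = P := by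
  rw [← expand_eq_comp_X_pow]
  ext n
  rw [coeff_expand (by norm_num : 0 < 2)]
  split_ifs with hn
  · rw [coeff_contract (by norm_num : 2 ≠ 0), Nat.div_mul_cancel hn]
  · have h1 := congrArg (fun Q : R[X] => Q.coeff n) h
    simp only [H904L2.Graeffe.coeff_neg_X] at h1
    have h2 : Odd n := by
      rwa [← Nat.not_even_iff_odd, even_iff_two_dvd]
    rw [h2.neg_one_pow] at h1
    have h3 : (2:R) * P.coeff n = 0 := by linear_combination -h1
    rcases mul_eq_zero.1 h3 with h4 | h4
    · exact absurd h4 two_ne_zero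
    · exact h4.symm

/-- the Graeffe transform -/
noncomputable def gr (P : R[X]) : R[X] := contract 2 (P * P.comp (-X))

lemma gr_comp (P : R[X]) : (gr P).comp (X ^ 2) = P * P.comp (-X) := by
  apply even_of'
  rw [mul_comp_neg_X, comp_neg_X_comp_neg_X, mul_comm]

/-- `P(-x) = P(x) - 2 O(x)` -/
lemma odd_part' (P : R[X]) : ∃ O : R[X], P.comp (-X) = P - 2 * O := by
  induction P using Polynomial.induction_on' with
  | add P Q hP hQ =>
    obtain ⟨O, hO⟩ := hP
    obtain ⟨O', hO'⟩ := hQ
    refine ⟨O + O', ?_⟩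
    rw [add_comp, hO, hO']; ring
  | monomial n a =>
    rcases Nat.even_or_odd n with hn | hn
    · refine ⟨0, ?_⟩
      rw [monomial_comp, neg_pow, hn.neg_one_pow, ← C_mul_X_pow_eq_monomial]
      ring
    · refine ⟨monomial n a, ?_⟩
      rw [monomial_comp, neg_pow, hn.neg_one_pow, ← C_mul_X_pow_eq_monomial]
      ring

lemma contract_mul' (P W : R[X]) (c : ℕ) (h : P.comp (X ^ 2) = (c : R[X]) * W) :
    P = (c : R[X]) * contract 2 W := by
  ext n
  have h1 := congrArg (fun Q : R[X] => Q.coeff (n * 2)) h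
  simp only [← expand_eq_comp_X_pow, coeff_expand_mul (by norm_num : 0 < 2),
    coeff_natCast_mul] at h1
  rw [coeff_natCast_mul, coeff_contract (by norm_num : 2 ≠ 0)]
  exact h1

/-- congruent modulo two implies: the transforms are congruent modulo four -/
lemma gr_congr {A B U : R[X]} (h : A = B + 2 * U) : ∃ V, gr A = gr B + 4 * V := by
  obtain ⟨O, hO⟩ := odd_part' B
  obtain ⟨O', hO'⟩ := odd_part' U
  have e : (gr A - gr B).comp (X ^ 2) =
      ((4 : ℕ) : R[X]) * (U * B - U * O - B * O' + U * U.comp (-X)) := by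
    rw [sub_comp, gr_comp, gr_comp]
    have h5 : A.comp (-X) = B.comp (-X) + 2 * U.comp (-X) := by
      rw [h, add_comp, mul_comp]
      congr 2
      exact ofNat_comp (R := R) 2
    rw [h5, h]
    have h7 : B * U.comp (-X) = B * U - 2 * (B * O') := by rw [hO']; ring
    have h8 : U * B.comp (-X) = U * B - 2 * (U * O) := by rw [hO]; ring
    push_cast
    linear_combination 2 * h7 + 2 * h8
  have e2 := contract_mul' _ _ _ e
  refine ⟨contract 2 (U * B - U * O - B * O' + U * U.comp (-X)), ?_⟩
  push_cast at e2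
  linear_combination e2

omit [IsDomain R] [CharZero R] in
/-- Frobenius -/
lemma frob' (σ : R →+* R) (hσ : ∀ x, ∃ y, σ x = x ^ 2 + 2 * y) (P : R[X]) :
    ∃ W : R[X], P ^ 2 = (P.map σ).comp (X ^ 2) + 2 * W := by
  induction P using Polynomial.induction_on' with
  | add P Q hP hQ =>
    obtain ⟨W, hW⟩ := hP
    obtain ⟨W', hW'⟩ := hQ
    refine ⟨W + W' + P * Q, ?_⟩
    rw [Polynomial.map_add, add_comp]
    linear_combination hW + hW'
  | monomial n a =>
    obtain ⟨y, hy⟩ := hσ a
    refine ⟨monomial (2 * n) (-y), ?_⟩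
    have h2 : (2 : R[X]) * monomial (2 * n) (-y) = monomial (2 * n) (-(2 * y)) := by
      have : (2 : R[X]) = C 2 := (map_ofNat C 2).symm
      rw [this, C_mul_monomial]
      congr 1
      ring
    rw [map_monomial, monomial_comp, ← pow_mul, h2, hy, ← C_mul_X_pow_eq_monomial,
      ← C_mul_X_pow_eq_monomial, mul_pow, ← C_pow, ← pow_mul, mul_comm n 2, ← add_mul, ← C_add]
    congr 2
    ring

/-- the transform is congruent to the Frobenius twist -/
lemma gr_frob (σ : R →+* R) (hσ : ∀ x, ∃ y, σ x = x ^ 2 + 2 * y) (P : R[X]) :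
    ∃ V, gr P = P.map σ + 2 * V := by
  obtain ⟨O, hO⟩ := odd_part' P
  obtain ⟨W, hW⟩ := frob' σ hσ P
  have e : (gr P - P.map σ).comp (X ^ 2) = ((2 : ℕ) : R[X]) * (W - P * O) := by
    rw [sub_comp, gr_comp, hO]
    push_cast
    linear_combination hW
  have e2 := contract_mul' _ _ _ e
  refine ⟨contract 2 (W - P * O), ?_⟩
  push_cast at e2
  linear_combination e2

omit [IsDomain R] [CharZero R] in
lemma map_congr' (σ : R →+* R) (hσ : ∀ x, ∃ y, σ x = x + 2 * y) (P : R[X]) :
    ∃ V, P.map σ = P + 2 * V := by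
  induction P using Polynomial.induction_on' with
  | add P Q hP hQ =>
    obtain ⟨W, hW⟩ := hP
    obtain ⟨W', hW'⟩ := hQ
    refine ⟨W + W', ?_⟩
    rw [Polynomial.map_add]
    linear_combination hW + hW'
  | monomial n a =>
    obtain ⟨y, hy⟩ := hσ a
    refine ⟨monomial n y, ?_⟩
    have h2 : (2 : R[X]) * monomial n y = monomial n (2 * y) := by
      have : (2 : R[X]) = C 2 := (map_ofNat C 2).symm
      rw [this, C_mul_monomial]
    rw [map_monomial, h2, hy, map_add]

lemma gr_map {ι : Type*} [Fintype ι] (a : ι → ℂ) (φ : R →+* ℂ) (P : R[X])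
    (hP : P.map φ = ∏ i, (1 - C (a i) * X)) : (gr P).map φ = ∏ i, (1 - C (a i ^ 2) * X) := by
  apply H904L2.Graeffe.comp_sq_inj
  have h3 := congrArg (fun P : R[X] => P.map φ) (gr_comp P)
  simp only [Polynomial.map_comp, Polynomial.map_mul, Polynomial.map_pow, Polynomial.map_X,
    Polynomial.map_neg, hP] at h3
  rw [h3, prod_comp, prod_comp, ← Finset.prod_mul_distrib]
  apply Finset.prod_congr rfl
  intro i _
  simp only [sub_comp, one_comp, mul_comp, C_comp, X_comp]
  rw [map_pow]
  ring

lemma gr_coeff_zero (P : R[X]) : (gr P).coeff 0 = P.coeff 0 ^ 2 := by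
  have h := congrArg (fun Q : R[X] => Q.coeff 0) (gr_comp P)
  simp only [← expand_eq_comp_X_pow, coeff_expand (by norm_num : 0 < 2), mul_coeff_zero,
    H904L2.Graeffe.coeff_neg_X] at h
  simp at h
  rw [h]; ring

end

section
variable {R : Type*} [CommRing R]

/-- the coefficients of the solution of `s + s ^ 2 = v` -/
noncomputable def qs (v : ℕ → R) : ℕ → R
  | n => v n - ∑ p ∈ (Finset.HasAntidiagonal.antidiagonal n).attach,
      if _h : p.1.1 < n ∧ p.1.2 < n then qs v p.1.1 * qs v p.1.2 else 0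
termination_by n => n

lemma exists_quad (v : PowerSeries R) (hv : PowerSeries.constantCoeff v = 0) :
    ∃ s : PowerSeries R, s + s ^ 2 = v ∧ PowerSeries.constantCoeff s = 0 := by
  set w : ℕ → R := fun n => PowerSeries.coeff n v with hw
  have h0 : qs w 0 = 0 := by
    rw [qs]
    rw [Finset.sum_eq_zero]
    · rw [sub_zero, hw]
      simpa using hv
    · intro p _
      rw [dif_neg (by omega)]
  refine ⟨PowerSeries.mk (qs w), ?_, ?_⟩
  · ext n
    rw [map_add, PowerSeries.coeff_mk, sq, PowerSeries.coeff_mul]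
    simp only [PowerSeries.coeff_mk]
    have h1 : qs w n = w n - ∑ p ∈ Finset.HasAntidiagonal.antidiagonal n, qs w p.1 * qs w p.2 := by
      conv_lhs => rw [qs]
      congr 1
      rw [← Finset.sum_attach (Finset.HasAntidiagonal.antidiagonal n)]
      refine Finset.sum_congr rfl fun p _ => ?_
      have hp := Finset.HasAntidiagonal.mem_antidiagonal.mp p.2
      split_ifs with h
      · rfl
      · rcases Nat.eq_zero_or_pos p.1.1 with h2 | h2
        · rw [h2, h0, zero_mul]
        · have h3 : p.1.2 = 0 := by omega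
          rw [h3, h0, mul_zero]
    rw [h1]
    ring
  · rw [← PowerSeries.coeff_zero_eq_constantCoeff_apply, PowerSeries.coeff_mk, h0]

/-- square roots -/
theorem exists_sqrt [IsDomain R] [CharZero R] (A B U : R[X]) (hA : A.coeff 0 = 1)
    (hB : B.coeff 0 = 1) (h : B = A + 4 * U) :
    ∃ c : ℕ → R, c 0 = 1 ∧ (PowerSeries.mk c) ^ 2 = ((A * B : R[X]) : PowerSeries R) := by
  have hU : U.coeff 0 = 0 := by
    have h1 := congrArg (fun Q : R[X] => Q.coeff 0) h
    simp only [coeff_add, mul_coeff_zero, hA, hB] at h1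
    have h2 : (4:R) * U.coeff 0 = 0 := by
      have h3 : (4 : R[X]).coeff 0 = 4 := by
        have : (4 : R[X]) = C 4 := (map_ofNat C 4).symm
        rw [this, coeff_C_zero]
      rw [h3] at h1
      linear_combination -h1
    rcases mul_eq_zero.1 h2 with h4 | h4
    · exact absurd h4 (by norm_num)
    · exact h4
  set W : PowerSeries R := PowerSeries.invOfUnit (A : PowerSeries R) 1 with hW
  have hRW : (A : PowerSeries R) * W = 1 := by
    apply PowerSeries.mul_invOfUnit
    rw [Polynomial.constantCoeff_coe, hA]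
    rfl
  obtain ⟨s, hs, hs0⟩ := exists_quad ((U : PowerSeries R) * W) (by
    rw [map_mul, Polynomial.constantCoeff_coe, hU, zero_mul])
  set f : PowerSeries R := (A : PowerSeries R) * (1 + 2 * s) with hf
  refine ⟨fun n => PowerSeries.coeff n f, ?_, ?_⟩
  · show PowerSeries.coeff 0 f = 1
    rw [PowerSeries.coeff_zero_eq_constantCoeff_apply, hf, map_mul, map_add, map_mul, hs0,
      Polynomial.constantCoeff_coe, hA]
    simp
  · have e1 : (PowerSeries.mk fun n => PowerSeries.coeff n f) = f := by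
      ext n
      rw [PowerSeries.coeff_mk]
    have e2 : ((A * B : R[X]) : PowerSeries R) =
        (A : PowerSeries R) * ((A : PowerSeries R) + 4 * (U : PowerSeries R)) := by
      rw [h, Polynomial.coe_mul, Polynomial.coe_add, Polynomial.coe_mul]
      congr 3
      have h4 : (4 : R[X]) = C 4 := (map_ofNat C 4).symm
      rw [h4, Polynomial.coe_C]
      exact map_ofNat _ 4
    rw [e1, e2, hf]
    linear_combination 4 * (A : PowerSeries R) ^ 2 * hs + 4 * (A : PowerSeries R) *
      (U : PowerSeries R) * hRW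

/-- the image of a square root -/
lemma map_sqrt (φ : R →+* ℂ) {A B : R[X]} {c : ℕ → R}
    (hc : (PowerSeries.mk c) ^ 2 = ((A * B : R[X]) : PowerSeries R)) :
    (PowerSeries.mk fun n => φ (c n)) ^ 2 = (((A.map φ) * (B.map φ) : ℂ[X]) : PowerSeries ℂ) := by
  have h1 := congrArg (PowerSeries.map φ) hc
  rw [map_pow, ← Polynomial.polynomial_map_coe, Polynomial.map_mul] at h1
  rw [← h1]
  congr 1

end

open H904L2.NotSquare in
/-- if the product is a square, the zeros of the first factor are zeros of the second one -/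
lemma square_imp {κ κ' : Type} [Fintype κ] [Fintype κ'] (b : κ → ℂ) (b' : κ' → ℂ)
    (h0 : ∀ i, b i ≠ 0) (h0' : ∀ i, b' i ≠ 0) (hinj : Function.Injective b) (P Q : ℂ[X])
    (hQ : Q ≠ 0)
    (heq : Q ^ 2 * ((∏ i, (1 - C (b i) * X)) * ∏ i, (1 - C (b' i) * X)) = P ^ 2) :
    ∀ i, ∃ j, b' j = b i := by
  classical
  have hA : (∏ i, (1 - C (b i) * X) : ℂ[X]) ≠ 0 :=
    Finset.prod_ne_zero_iff.mpr fun i _ => fac_ne _ (h0 i)
  have hB : (∏ i, (1 - C (b' i) * X) : ℂ[X]) ≠ 0 :=
    Finset.prod_ne_zero_iff.mpr fun i _ => fac_ne _ (h0' i)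
  have hroots := congrArg Polynomial.roots heq
  rw [roots_mul (mul_ne_zero (pow_ne_zero 2 hQ) (mul_ne_zero hA hB)), roots_mul (mul_ne_zero hA hB),
    roots_pow, roots_pow] at hroots
  intro i
  have hc := congrArg (Multiset.count (b i)⁻¹) hroots
  rw [Multiset.count_add, Multiset.count_add, Multiset.count_nsmul, Multiset.count_nsmul,
    count_prod _ h0, count_prod _ h0'] at hc
  have h1 : (Finset.univ.filter fun j => (b i)⁻¹ = (b j)⁻¹) = {i} := by
    ext j
    simp only [Finset.mem_filter, Finset.mem_univ, true_and, Finset.mem_singleton, inv_inj]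
    constructor
    · intro h
      exact (hinj h).symm
    · rintro rfl
      rfl
  rw [h1, Finset.card_singleton] at hc
  have hpos : 0 < (Finset.univ.filter fun j => (b i)⁻¹ = (b' j)⁻¹).card := by
    omega
  obtain ⟨j, hj⟩ := Finset.card_pos.mp hpos
  simp only [Finset.mem_filter, Finset.mem_univ, true_and, inv_inj] at hj
  exact ⟨j, hj.symm⟩

end Pool.Agent.X184.SZ
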