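import Mathlib
import Pool.Agent.X184.SZ.B
import Pool.Agent.X184.SZ.C
import Pool.Agent.X184.RD.C
import Pool.Agent.H904L2.Main1

/-!
# The main step over number fields
-/

set_option autoImplicit false

open Finset Polynomial Module Pool.Agent.Y947.DL Pool.Agent.Y947.RL

namespace Pool.Agent.X184.SZ

/-- the primitive roots of unity -/
abbrev Pr (m : ℕ) : Type := {ω : ℂ // ω ∈ primitiveRoots m ℂ}

/-- the evaluation -/
noncomputable def ev {m : ℕ} (ω : Pr m) : ℤ[X] →+* ℂ := (aeval (ω : ℂ) : ℤ[X] →ₐ[ℤ] ℂ).toRingHom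

lemma ev_apply {m : ℕ} (ω : Pr m) (x : ℤ[X]) : ev ω x = aeval (ω : ℂ) x := rfl

lemma prim {m : ℕ} (hm : 0 < m) (ω : Pr m) : IsPrimitiveRoot (ω : ℂ) m :=
  (mem_primitiveRoots hm).mp ω.2

lemma card_Pr (m : ℕ) : Fintype.card (Pr m) = Nat.totient m := by
  rw [Fintype.card_coe, Complex.card_primitiveRoots]

/-- the norm of an element of `ℤ[ω]` is an integer -/
lemma norm_ev {m : ℕ} (hm : 0 < m) (x : ℤ[X]) (h : ∏ ω : Pr m, ‖ev ω x‖ < 1) :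
    ∀ ω : Pr m, ev ω x = 0 := by
  classical
  haveI : NeZero m := ⟨hm.ne'⟩
  haveI : NeZero (m : ℂ) := ⟨by exact_mod_cast hm.ne'⟩
  have h1 := resultant_eq_prod_eval (cyclotomic m ℂ) (x.map (Int.castRingHom ℂ)) x.natDegree
    (natDegree_map_le) (IsAlgClosed.splits _)
  have h2 := resultant_map_map (cyclotomic m ℤ) x m.totient x.natDegree (Int.castRingHom ℂ)
  rw [map_cyclotomic_int] at h2
  rw [natDegree_cyclotomic, h2, (cyclotomic.monic m ℂ).leadingCoeff, one_pow, one_mul,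
    cyclotomic.roots_eq_primitiveRoots_val] at h1
  have h3 : ∏ ω : Pr m, ev ω x = (((cyclotomic m ℤ).resultant x m.totient x.natDegree : ℤ) : ℂ) := by
    have h4 : ∏ ω : Pr m, ev ω x = ∏ ω ∈ primitiveRoots m ℂ, aeval ω x :=
      Finset.prod_coe_sort (primitiveRoots m ℂ) (fun ω => aeval ω x)
    rw [h4]
    have h5 : (Int.castRingHom ℂ) ((cyclotomic m ℤ).resultant x m.totient x.natDegree) =
      (((cyclotomic m ℤ).resultant x m.totient x.natDegree : ℤ) : ℂ) := rfl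
    rw [← h5, h1, Finset.prod_eq_multiset_prod]
    congr 1
    refine Multiset.map_congr rfl fun ω _ => ?_
    rw [eval_map]
    rfl
  have h6 : ∏ ω : Pr m, ‖ev ω x‖ =
      |((((cyclotomic m ℤ).resultant x m.totient x.natDegree : ℤ)) : ℝ)| := by
    rw [← norm_prod, h3, Complex.norm_intCast]
  rw [h6] at h
  have h7 : (cyclotomic m ℤ).resultant x m.totient x.natDegree = 0 := by
    have h8 : |(cyclotomic m ℤ).resultant x m.totient x.natDegree| < 1 := by exact_mod_cast h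
    exact Int.abs_lt_one_iff.mp h8
  rw [h7, Int.cast_zero, Finset.prod_eq_zero_iff] at h3
  obtain ⟨ω₀, -, h0⟩ := h3
  intro ω
  exact Y994.RL.Exp.vanish hm (prim hm ω₀) h0 (prim hm ω)

section
variable {K : Type} [Field K] [NumberField K]

/-- the sum of the squares -/
noncomputable def LL (α : K) : ℝ := ∑ σ : K →ₐ[ℚ] ℂ, (Real.posLog ‖σ α‖) ^ 2

lemma LL_nonneg (α : K) : 0 ≤ LL α := Finset.sum_nonneg fun _ _ => sq_nonneg _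

lemma sum_Pr {m : ℕ} (hm : 0 < m) {ζ : K} (hζ : IsPrimitiveRoot ζ m) (g : (K →ₐ[ℚ] ℂ) → ℝ) :
    ∑ ω : Pr m, ∑ τ ∈ cls ζ (ω : ℂ), g τ = ∑ τ : K →ₐ[ℚ] ℂ, g τ := by
  classical
  have h1 : ∑ ω : Pr m, ∑ τ ∈ cls ζ (ω : ℂ), g τ =
      ∑ ω ∈ primitiveRoots m ℂ, ∑ τ ∈ cls ζ ω, g τ :=
    Finset.sum_coe_sort (primitiveRoots m ℂ) (fun ω => ∑ τ ∈ cls ζ ω, g τ)
  rw [h1, ← Finset.sum_fiberwise_of_maps_to (s := (Finset.univ : Finset (K →ₐ[ℚ] ℂ)))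
    (t := primitiveRoots m ℂ) (g := fun τ => τ ζ)]
  · refine Finset.sum_congr rfl fun ω _ => ?_
    unfold cls
    congr
  · intro τ _
    rw [mem_primitiveRoots hm]
    exact hζ.map_of_injective (f := τ) τ.toRingHom.injective

lemma mem_cls' {ζ : K} {ω : ℂ} {τ : K →ₐ[ℚ] ℂ} : τ ∈ cls ζ ω ↔ τ ζ = ω := by
  simp [cls]

lemma card_cls' {m : ℕ} (hm : 0 < m) {ζ : K} (hζ : IsPrimitiveRoot ζ m) (ω : Pr m) :
    ((cls ζ (ω : ℂ)).card : ℝ) = RD.nn K m := by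
  obtain ⟨σ, hσ⟩ := RD.cls_nonempty hm hζ (prim hm ω)
  rw [mem_cls'] at hσ
  rw [← hσ]
  exact RD.card_cls hm hζ σ

open Classical in
/-- the main step -/
theorem core {m : ℕ} {ζ α : K} (hC : Ctx2 m ζ α) (π : Pr m → Pr m) (hπ : Function.Injective π)
    {p q : ℕ} (hp : 0 < p) (hq : 0 < q) (A B U : ℤ[X][X]) (hA0 : A.coeff 0 = 1)
    (hB0 : B.coeff 0 = 1) (hAB : B = A + 4 * U)
    (hA : ∀ ω : Pr m, A.map (ev ω) =
      ∏ τ : {τ // τ ∈ cls ζ (π ω : ℂ)}, (1 - C (((τ : K →ₐ[ℚ] ℂ) α) ^ p) * X))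
    (hB : ∀ ω : Pr m, B.map (ev ω) =
      ∏ τ : {τ // τ ∈ cls ζ (ω : ℂ)}, (1 - C (((τ : K →ₐ[ℚ] ℂ) α) ^ q) * X))
    (hs : 2 * RD.nn K m * (((p : ℝ) ^ 2 + (q : ℝ) ^ 2) * LL α) < Nat.totient m / 16) :
    ∀ ω : Pr m, ∀ τ' ∈ cls ζ (ω : ℂ), ∃ τ ∈ cls ζ (π ω : ℂ), (τ α) ^ p = (τ' α) ^ q := by
  have hm := hC.hm
  obtain ⟨c, hc0, hc⟩ := exists_sqrt A B U hA0 hB0 hAB
  haveI : Nonempty (Pr m) := by
    obtain ⟨ω, hω⟩ := RD.exists_prim hm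
    exact ⟨⟨ω, (mem_primitiveRoots hm).mpr hω⟩⟩
  haveI hne : ∀ ω : Pr m, Nonempty {τ // τ ∈ cls ζ (ω : ℂ)} := by
    intro ω
    obtain ⟨σ, hσ⟩ := RD.cls_nonempty hm hC.hζ (prim hm ω)
    exact ⟨⟨σ, hσ⟩⟩
  set a : ∀ ω : Pr m, ({τ // τ ∈ cls ζ (π ω : ℂ)} ⊕ {τ // τ ∈ cls ζ (ω : ℂ)}) → ℂ := fun ω =>
    Sum.elim (fun τ => ((τ : K →ₐ[ℚ] ℂ) α) ^ p) (fun τ => ((τ : K →ₐ[ℚ] ℂ) α) ^ q) with ha
  have hα : ∀ τ : K →ₐ[ℚ] ℂ, τ α ≠ 0 := fun τ => by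
    rw [Ne, map_eq_zero]; exact hC.h0
  have hprod : ∀ ω : Pr m, (∏ i, (1 - C (a ω i) * X) : ℂ[X]) =
      (∏ τ : {τ // τ ∈ cls ζ (π ω : ℂ)}, (1 - C (((τ : K →ₐ[ℚ] ℂ) α) ^ p) * X)) *
      ∏ τ : {τ // τ ∈ cls ζ (ω : ℂ)}, (1 - C (((τ : K →ₐ[ℚ] ℂ) α) ^ q) * X) := by
    intro ω
    rw [Fintype.prod_sum_type]
    simp only [ha, Sum.elim_inl, Sum.elim_inr]
  have hsumL : ∀ (ω : Pr m), ∑ i, (Real.posLog ‖a ω i‖) ^ 2 =
      (p : ℝ) ^ 2 * (∑ τ ∈ cls ζ (π ω : ℂ), (Real.posLog ‖τ α‖) ^ 2) +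
      (q : ℝ) ^ 2 * (∑ τ ∈ cls ζ (ω : ℂ), (Real.posLog ‖τ α‖) ^ 2) := by
    intro ω
    rw [Fintype.sum_sum_type]
    simp only [ha, Sum.elim_inl, Sum.elim_inr, norm_pow, Real.posLog_pow, mul_pow]
    rw [← Finset.mul_sum, ← Finset.mul_sum,
      Finset.sum_coe_sort (cls ζ (π ω : ℂ)) (fun τ => (Real.posLog ‖τ α‖) ^ 2),
      Finset.sum_coe_sort (cls ζ (ω : ℂ)) (fun τ => (Real.posLog ‖τ α‖) ^ 2)]
  have hbij : Function.Bijective π := Finite.injective_iff_bijective.mp hπ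
  have htot : ∑ ω : Pr m, ∑ i, (Real.posLog ‖a ω i‖) ^ 2 =
      ((p : ℝ) ^ 2 + (q : ℝ) ^ 2) * LL α := by
    simp only [hsumL]
    rw [Finset.sum_add_distrib, ← Finset.mul_sum, ← Finset.mul_sum,
      hbij.sum_comp (fun ω : Pr m => ∑ τ ∈ cls ζ (ω : ℂ), (Real.posLog ‖τ α‖) ^ 2),
      sum_Pr hm hC.hζ (fun τ => (Real.posLog ‖τ α‖) ^ 2)]
    unfold LL
    ring
  have hkey := AT2R (R := ℤ[X]) (fun ω : Pr m => ev ω) (fun x hx => norm_ev hm x hx)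
    (ι := fun ω : Pr m => {τ // τ ∈ cls ζ (π ω : ℂ)} ⊕ {τ // τ ∈ cls ζ (ω : ℂ)})
    (n := 2 * RD.nn K m)
    (by
      intro ω
      rw [Fintype.card_sum, Fintype.card_coe, Fintype.card_coe, Nat.cast_add,
        card_cls' hm hC.hζ, card_cls' hm hC.hζ]
      ring)
    a
    (by
      intro ω i
      rcases i with i | i
      · exact pow_ne_zero _ (hα _)
      · exact pow_ne_zero _ (hα _))
    c hc0
    (by
      intro ω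
      rw [map_sqrt (ev ω) hc, hA, hB, hprod])
    (by
      rw [htot, card_Pr]
      exact hs)
  intro ω τ' hτ'
  obtain ⟨P, Q, hQ, hPQ⟩ := hkey ω
  rw [hprod, mul_comm (∏ τ : {τ // τ ∈ cls ζ (π ω : ℂ)}, _)] at hPQ
  have h1 := square_imp (fun τ : {τ // τ ∈ cls ζ (ω : ℂ)} => ((τ : K →ₐ[ℚ] ℂ) α) ^ q)
    (fun τ : {τ // τ ∈ cls ζ (π ω : ℂ)} => ((τ : K →ₐ[ℚ] ℂ) α) ^ p)
    (fun i => pow_ne_zero _ (hα _)) (fun i => pow_ne_zero _ (hα _))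
    (by
      intro σ τ h
      have h2 := mem_cls'.mp σ.2
      have h3 := mem_cls'.mp τ.2
      exact Subtype.ext (hC.gen _ _ (h2.trans h3.symm)
        (hC.inj q hq _ _ (h2.trans h3.symm) h)))
    P Q hQ hPQ ⟨τ', hτ'⟩
  obtain ⟨⟨τ, hτ⟩, h4⟩ := h1
  exact ⟨τ, hτ, h4⟩

end

end Pool.Agent.X184.SZ
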