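import Mathlib
import Pool.Agent.X184.SZ.D

/-!
# The bound over number fields
-/

set_option autoImplicit false

open Finset Polynomial Module Pool.Agent.Y947.DL Pool.Agent.Y947.RL

namespace Pool.Agent.X184.SZ

section
variable {K : Type} [Field K] [NumberField K]

lemma exists_F {m : ℕ} (hm : 0 < m) {ζ α : K} (hζ : IsPrimitiveRoot ζ m) (hα : IsIntegral ℤ α) :
    ∃ F : ℤ[X][X], F.coeff 0 = 1 ∧ ∀ ω : Pr m, F.map (ev ω) =
      ∏ τ : {τ // τ ∈ cls ζ (ω : ℂ)}, (1 - C ((τ : K →ₐ[ℚ] ℂ) α) * X) := by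
  obtain ⟨F, hFm, hF⟩ := Y578.RL.j0 K m ζ hm hζ α hα
  refine ⟨F.reverse, ?_, ?_⟩
  · rw [coeff_zero_reverse]; exact hFm
  · intro ω
    obtain ⟨σ, hσ⟩ := RD.cls_nonempty hm hζ (prim hm ω)
    rw [mem_cls'] at hσ
    have h1 := hF σ
    rw [hσ] at h1
    have h2 : F.map (ev ω) = ∏ τ ∈ cls ζ (ω : ℂ), (X - C (τ α)) := h1
    have h3 : (F.reverse).map (ev ω) = (F.map (ev ω)).reverse := by
      rw [reverse, reverse, hFm.natDegree_map, reflect_map]
    rw [h3, h2, H904L2.Main1.reverse_prod,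
      Finset.prod_coe_sort (cls ζ (ω : ℂ)) (fun τ => (1 - C (τ α) * X : ℂ[X]))]

/-- there is a conjugate outside the closed unit disc -/
lemma exists_big {m : ℕ} {ζ α : K} (hC : Ctx2 m ζ α) : ∃ σ : K →ₐ[ℚ] ℂ, 1 < ‖σ α‖ := by
  by_contra hcon
  push Not at hcon
  obtain ⟨n, hn, h1⟩ := NumberField.Embeddings.pow_eq_one_of_norm_le_one K ℂ hC.h0 hC.hα
    (fun φ => hcon φ.toRatAlgHom)
  exact hC.hroot n hn h1

/-- odd conductor -/
theorem kthOdd {m : ℕ} {ζ α : K} (hC : Ctx2 m ζ α) (hodd : Odd m) :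
    1 / 640 ≤ RD.nn K m * LL α / Nat.totient m := by
  classical
  have hm := hC.hm
  by_contra hcon
  push Not at hcon
  have hφ : (0:ℝ) < Nat.totient m := by exact_mod_cast Nat.totient_pos.mpr hm
  rw [div_lt_iff₀ hφ] at hcon
  obtain ⟨F, hF0, hF⟩ := exists_F hm hC.hζ hC.hα
  set s : ℤ[X] →+* ℤ[X] := (expand ℤ 2 : ℤ[X] →ₐ[ℤ] ℤ[X]).toRingHom with hs
  have hs_apply : ∀ x, s x = expand ℤ 2 x := fun x => rfl
  have hσ : ∀ x, ∃ y, s x = x ^ 2 + 2 * y := by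
    intro x
    obtain ⟨W, hW⟩ := H904L2.Graeffe.frob x
    refine ⟨-W, ?_⟩
    rw [hs_apply, expand_eq_comp_X_pow, hW]
    ring
  have hcop : (2 : ℕ).Coprime m := Nat.coprime_two_left.mpr hodd
  set π : Pr m → Pr m := fun ω => ⟨(ω : ℂ) ^ 2,
    (mem_primitiveRoots hm).mpr ((prim hm ω).pow_of_coprime 2 hcop)⟩ with hπ
  have hπi : Function.Injective π := by
    intro ω ω' h
    have h1 : (ω : ℂ) ^ 2 = (ω' : ℂ) ^ 2 := congrArg Subtype.val h
    obtain ⟨k, hk⟩ := hodd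
    have h2 : ∀ ω : Pr m, ((ω : ℂ) ^ 2) ^ (k + 1) = ω := by
      intro ω
      rw [← pow_mul, show 2 * (k + 1) = m + 1 by omega, pow_succ, (prim hm ω).pow_eq_one, one_mul]
    apply Subtype.ext
    rw [← h2 ω, ← h2 ω', h1]
  have hevs : ∀ ω : Pr m, (ev ω).comp s = ev (π ω) := by
    intro ω
    ext x
    · simp
    · show ev ω (s X) = ev (π ω) X
      rw [hs_apply, ev_apply, ev_apply, expand_aeval]
  obtain ⟨V, hV⟩ := gr_frob s hσ F
  obtain ⟨U, hU⟩ := gr_congr hV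
  have hsF : ∀ ω : Pr m, (F.map s).map (ev ω) =
      ∏ τ : {τ // τ ∈ cls ζ (π ω : ℂ)}, (1 - C ((τ : K →ₐ[ℚ] ℂ) α) * X) := by
    intro ω
    rw [Polynomial.map_map, hevs, hF]
  have hA : ∀ ω : Pr m, (gr (F.map s)).map (ev ω) =
      ∏ τ : {τ // τ ∈ cls ζ (π ω : ℂ)}, (1 - C (((τ : K →ₐ[ℚ] ℂ) α) ^ 2) * X) := fun ω =>
    gr_map _ (ev ω) _ (hsF ω)
  have hB : ∀ ω : Pr m, (gr (gr F)).map (ev ω) =
      ∏ τ : {τ // τ ∈ cls ζ (ω : ℂ)}, (1 - C (((τ : K →ₐ[ℚ] ℂ) α) ^ 4) * X) := by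
    intro ω
    rw [gr_map _ (ev ω) _ (gr_map _ (ev ω) _ (hF ω))]
    refine Finset.prod_congr rfl fun τ _ => ?_
    rw [← pow_mul]
  have hkey := core hC π hπi (p := 2) (q := 4) (by norm_num) (by norm_num) (gr (F.map s))
    (gr (gr F)) U (by rw [gr_coeff_zero, coeff_map, hF0, map_one, one_pow])
    (by rw [gr_coeff_zero, gr_coeff_zero, hF0, one_pow, one_pow]) hU hA hB
    (by push_cast; linarith)
  -- the contradiction
  obtain ⟨σ₀, hσ₀⟩ := exists_big hC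
  haveI : Nonempty (K →ₐ[ℚ] ℂ) := ⟨σ₀⟩
  obtain ⟨σ, hmax⟩ := Finite.exists_max (fun τ : K →ₐ[ℚ] ℂ => ‖τ α‖)
  have h1 : 1 < ‖σ α‖ := lt_of_lt_of_le hσ₀ (hmax σ₀)
  have hp : IsPrimitiveRoot (σ ζ) m := hC.hζ.map_of_injective (f := σ) σ.toRingHom.injective
  obtain ⟨τ, -, hτ⟩ := hkey ⟨σ ζ, (mem_primitiveRoots hm).mpr hp⟩ σ (mem_cls'.mpr rfl)
  have h2 := congrArg norm hτ
  rw [norm_pow, norm_pow] at h2
  have h3 := hmax τ
  have h4 : ‖τ α‖ ^ 2 ≤ ‖σ α‖ ^ 2 := pow_le_pow_left₀ (norm_nonneg _) h3 2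
  rw [h2] at h4
  have h5 : 1 < ‖σ α‖ ^ 2 := one_lt_pow₀ h1 (by norm_num)
  nlinarith

lemma pow_half {A : Type*} [CommRing A] [IsDomain A] {k : ℕ} (hk : 0 < k) {ω : A}
    (h : IsPrimitiveRoot ω (2 * k)) : ω ^ k = -1 := by
  have h1 : (ω ^ k) ^ 2 = 1 := by
    rw [← pow_mul, mul_comm, h.pow_eq_one]
  have h1' : (ω ^ k - 1) * (ω ^ k + 1) = 0 := by linear_combination h1
  rcases (mul_eq_zero.mp h1').imp sub_eq_zero.mp eq_neg_of_add_eq_zero_left with h2 | h2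
  · exfalso
    have h3 := h.dvd_of_pow_eq_one k h2
    have := Nat.le_of_dvd hk h3
    omega
  · exact h2

/-- conductor divisible by four -/
theorem kthFour {m : ℕ} {ζ α : K} (hC : Ctx2 m ζ α) (h4 : 4 ∣ m)
    (hnf : ∃ u ∈ Gset m 2, ¬ Fix ζ (α ^ 2) u) :
    1 / 256 ≤ RD.nn K m * LL α / Nat.totient m := by
  classical
  have hm := hC.hm
  obtain ⟨k, hk⟩ := h4
  have hk0 : 0 < k := by omega
  have hm2 : m = 2 * (2 * k) := by omega
  by_contra hcon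
  push Not at hcon
  have hφ : (0:ℝ) < Nat.totient m := by exact_mod_cast Nat.totient_pos.mpr hm
  rw [div_lt_iff₀ hφ] at hcon
  obtain ⟨F, hF0, hF⟩ := exists_F hm hC.hζ hC.hα
  set s : ℤ[X] →+* ℤ[X] := compRingHom (-X) with hs
  have hs_apply : ∀ x : ℤ[X], s x = x.comp (-X) := fun x => rfl
  have hσ : ∀ x, ∃ y, s x = x + 2 * y := by
    intro x
    obtain ⟨O, hO⟩ := odd_part' x
    refine ⟨-O, ?_⟩
    rw [hs_apply, hO]
    ring
  have hcop : (2 * k + 1).Coprime m := by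
    rw [hk]
    apply Nat.Coprime.mul_right
    · rw [show (4:ℕ) = 2 ^ 2 by norm_num]
      apply Nat.Coprime.pow_right
      rw [Nat.coprime_two_right]
      exact ⟨k, rfl⟩
    · rw [Nat.coprime_mul_right_add_left]
      exact Nat.coprime_one_left k
  have hneg : ∀ {ω : ℂ}, IsPrimitiveRoot ω m → ω ^ (2 * k + 1) = -ω := by
    intro ω hω
    rw [hm2] at hω
    rw [pow_succ, pow_half (by omega) hω]
    ring
  set π : Pr m → Pr m := fun ω => ⟨-(ω : ℂ), (mem_primitiveRoots hm).mpr (by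
    rw [← hneg (prim hm ω)]
    exact (prim hm ω).pow_of_coprime _ hcop)⟩ with hπ
  have hπi : Function.Injective π := by
    intro ω ω' h
    have h1 : -(ω : ℂ) = -(ω' : ℂ) := congrArg Subtype.val h
    exact Subtype.ext (neg_injective h1)
  have hevs : ∀ ω : Pr m, (ev ω).comp s = ev (π ω) := by
    intro ω
    ext x
    · simp
    · show ev ω (s X) = ev (π ω) X
      rw [hs_apply, X_comp, ev_apply, ev_apply, map_neg, aeval_X, aeval_X]
  obtain ⟨V, hV⟩ := map_congr' s hσ F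
  obtain ⟨U, hU⟩ := gr_congr hV
  have hsF : ∀ ω : Pr m, (F.map s).map (ev ω) =
      ∏ τ : {τ // τ ∈ cls ζ (π ω : ℂ)}, (1 - C ((τ : K →ₐ[ℚ] ℂ) α) * X) := by
    intro ω
    rw [Polynomial.map_map, hevs, hF]
  have hA : ∀ ω : Pr m, (gr (F.map s)).map (ev ω) =
      ∏ τ : {τ // τ ∈ cls ζ (π ω : ℂ)}, (1 - C (((τ : K →ₐ[ℚ] ℂ) α) ^ 2) * X) := fun ω =>
    gr_map _ (ev ω) _ (hsF ω)
  have hB : ∀ ω : Pr m, (gr F).map (ev ω) =
      ∏ τ : {τ // τ ∈ cls ζ (ω : ℂ)}, (1 - C (((τ : K →ₐ[ℚ] ℂ) α) ^ 2) * X) := fun ω =>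
    gr_map _ (ev ω) _ (hF ω)
  have hkey := core hC π hπi (p := 2) (q := 2) (by norm_num) (by norm_num) (gr (F.map s))
    (gr F) (-U) (by rw [gr_coeff_zero, coeff_map, hF0, map_one, one_pow])
    (by rw [gr_coeff_zero, hF0, one_pow]) (by rw [hU]; ring) hA hB
    (by push_cast; linarith)
  -- the contradiction
  obtain ⟨u, hu, hnot⟩ := hnf
  apply hnot
  unfold Gset at hu
  rw [Finset.mem_filter, Finset.mem_range] at hu
  obtain ⟨hum, -, hu1⟩ := hu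
  have hmd : m / 2 = 2 * k := by omega
  rw [hmd] at hu1
  have hu2 : u = 1 ∨ u = 2 * k + 1 := by
    have h1 : u % (2 * k) = 1 % (2 * k) := hu1
    rw [Nat.mod_eq_of_lt (by omega : 1 < 2 * k)] at h1
    have h2 := Nat.div_add_mod u (2 * k)
    have h3 : u / (2 * k) < 2 := by
      rw [Nat.div_lt_iff_lt_mul (by omega)]
      omega
    have h5 : u / (2 * k) = 0 ∨ u / (2 * k) = 1 := by
      generalize u / (2 * k) = j at h3 ⊢
      omega
    rcases h5 with h4 | h4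
    · left; rw [h4] at h2; omega
    · right; rw [h4] at h2; omega
  rcases hu2 with h | h
  · rw [h]
    intro σ
    exact ⟨σ, by rw [pow_one], rfl⟩
  · rw [h]
    intro σ
    have hp : IsPrimitiveRoot (σ ζ) m := hC.hζ.map_of_injective (f := σ) σ.toRingHom.injective
    obtain ⟨τ, hτ1, hτ⟩ := hkey ⟨σ ζ, (mem_primitiveRoots hm).mpr hp⟩ σ (mem_cls'.mpr rfl)
    refine ⟨τ, ?_, ?_⟩
    · rw [hneg hp]
      exact mem_cls'.mp hτ1
    · rw [map_pow, map_pow, hτ]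

/-- conductor twice an odd number -/
lemma ctx_two {k : ℕ} (hk : Odd k) {ζ α : K} (hC : Ctx2 (2 * k) ζ α) : Ctx2 k (-ζ) α := by
  have hk0 : 0 < k := hk.pos
  refine ⟨hk0, ?_, hC.hα, hC.h0, hC.hroot, ?_, ?_⟩
  · have h1 : IsPrimitiveRoot (ζ ^ 2) k := hC.hζ.pow (by omega) rfl
    obtain ⟨j, hj⟩ := hk
    have h2 : -ζ = (ζ ^ 2) ^ (j + 1) := by
      rw [← pow_mul, show 2 * (j + 1) = k + 1 by omega, pow_succ, pow_half hk0 hC.hζ]
      ring
    rw [h2]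
    apply h1.pow_of_coprime
    rw [hj]
    have h3 : (j + 1).Coprime (j + 1 + j) := by
      rw [Nat.coprime_self_add_right]
      rw [Nat.coprime_comm]
      exact Nat.coprime_self_add_right.mpr (Nat.coprime_one_right j)
    rwa [show 2 * j + 1 = j + 1 + j by ring]
  · intro σ τ h1 h2
    apply hC.gen σ τ _ h2
    rw [map_neg, map_neg] at h1
    exact neg_injective h1
  · intro n hn σ τ h1 h2
    apply hC.inj n hn σ τ _ h2
    rw [map_neg, map_neg] at h1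
    exact neg_injective h1

/-- the bound over number fields -/
theorem kthL {m : ℕ} {ζ α : K} (hC : Ctx2 m ζ α)
    (hsq : 2 ^ 2 ∣ m → ∃ u ∈ Gset m 2, ¬ Fix ζ (α ^ 2) u) :
    1 / 640 ≤ RD.nn K m * LL α / Nat.totient m := by
  rcases Nat.even_or_odd m with he | ho
  · obtain ⟨k, hk⟩ := he
    have hk2 : m = 2 * k := by omega
    rcases Nat.even_or_odd k with he' | ho'
    · have h4 : 4 ∣ m := by
        obtain ⟨j, hj⟩ := he'
        exact ⟨j, by omega⟩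
      refine le_trans (by norm_num) (kthFour hC h4 (hsq (by norm_num; exact h4)))
    · subst hk2
      have h1 := kthOdd (ctx_two ho' hC) ho'
      have h2 : Nat.totient (2 * k) = Nat.totient k := by
        rw [Nat.totient_mul (Nat.coprime_two_left.mpr ho'), Nat.totient_two, one_mul]
      unfold RD.nn at h1 ⊢
      rw [h2]
      exact h1
  · exact kthOdd hC ho

end

end Pool.Agent.X184.SZ
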