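import Mathlib
import Pool.Agent.X184.SZ.E
import Pool.Agent.X184.RD.D

/-!
# The bound for polynomials and for algebraic integers
-/

set_option autoImplicit false

open Finset Polynomial Module Pool.Agent.Y947.DL Pool.Agent.Y947.RL IntermediateField

namespace Pool.Agent.X184.SZ

/-- the sum of the squares of `log⁺` of the zeros -/
noncomputable def rL (f : ℂ[X]) : ℝ := (f.roots.map fun z => (Real.posLog ‖z‖) ^ 2).sum

/-- the mean of the sums of the squares -/
noncomputable def mL (m : ℕ) (F : ℤ[X][X]) : ℝ := meanP m (fun ω => rL (sp ω F))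

lemma rL_prod {ι : Type*} (S : Finset ι) (g : ι → ℂ) :
    rL (∏ i ∈ S, (X - C (g i)) : ℂ[X]) = ∑ i ∈ S, (Real.posLog ‖g i‖) ^ 2 := by
  have hroots : (∏ i ∈ S, (X - C (g i)) : ℂ[X]).roots = S.val.map g := by
    rw [Finset.prod_eq_multiset_prod]
    have e : (Multiset.map (fun i => (X - C (g i) : ℂ[X])) S.val) =
        Multiset.map (fun a : ℂ => X - C a) (Multiset.map g S.val) := by
      rw [Multiset.map_map]; rfl
    rw [e, Polynomial.roots_multiset_prod_X_sub_C]
  unfold rL
  rw [hroots, Multiset.map_map]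
  rfl

section
variable {K : Type} [Field K] [NumberField K]

lemma mL_eq {m : ℕ} {ζ α : K} {F : ℤ[X][X]} (hm : 0 < m) (hζ : IsPrimitiveRoot ζ m)
    (hprod : ∀ ω : ℂ, IsPrimitiveRoot ω m → sp ω F = ∏ τ ∈ cls ζ ω, (X - C (τ α))) :
    mL m F = LL α / Nat.totient m := by
  classical
  unfold mL meanP
  congr 1
  have h1 : ∀ ω ∈ primitiveRoots m ℂ, rL (sp ω F) = ∑ τ ∈ cls ζ ω, (Real.posLog ‖τ α‖) ^ 2 := by
    intro ω hω
    rw [hprod ω ((mem_primitiveRoots hm).mp hω), rL_prod]
  rw [Finset.sum_congr rfl h1]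
  have h2 := sum_Pr hm hζ (fun τ => (Real.posLog ‖τ α‖) ^ 2)
  rw [← Finset.sum_coe_sort (primitiveRoots m ℂ) (fun ω => ∑ τ ∈ cls ζ ω, (Real.posLog ‖τ α‖) ^ 2)]
  exact h2

lemma LL_twist {m : ℕ} (hm : 0 < m) {ζ : K} (hζ : IsPrimitiveRoot ζ m) (α : K) (k : ℕ) :
    LL (ζ ^ k * α) = LL α := by
  unfold LL
  refine Finset.sum_congr rfl fun σ _ => ?_
  have h3 : ‖σ ζ‖ = 1 :=
    (hζ.map_of_injective (f := σ) σ.toRingHom.injective).norm'_eq_one hm.ne'
  rw [map_mul, map_pow, norm_mul, norm_pow, h3, one_pow, one_mul]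

end

/-- the bound for polynomials such that no quotient of different zeros of the same polynomial is a
root of unity -/
theorem fin_twoL (hfk : T_FK) (hred : T_RED) (hmea : S_MEA) (hfxe : T_FXE) (hsc : T_SC)
    (htwa : T_TWA) (hctw : T_CTW) :
    ∀ (m : ℕ) (F : ℤ[X][X]), Hyp2 m F → 1 / 640 ≤ F.natDegree * mL m F := by
  intro m
  induction m using Nat.strong_induction_on with
  | _ m ih =>
    intro F hF
    have hm := hF.hm
    obtain ⟨K, _, _, ζ, α, hC, hprod⟩ := hfk m F hF
    by_cases hsq : 2 ^ 2 ∣ m → ∃ u ∈ Gset m 2, ¬ Fix ζ (α ^ 2) u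
    · have h1 := kthL hC hsq
      rw [mL_eq hm hC.hζ hprod, RD.natDegree_nn hF.monic hC hprod, ← mul_div_assoc]
      exact h1
    · push Not at hsq
      obtain ⟨hpm, hfix⟩ := hsq
      have hp : Nat.Prime 2 := Nat.prime_two
      obtain ⟨k, hk2⟩ := htwa K m ζ α hC 2 hp hpm hfix
      obtain ⟨hF1, hinv, hpr⟩ := hsc m F hF k
      obtain ⟨hC', -, -⟩ := hctw K m ζ α hC k
      have hprod1 := hpr K ζ α hprod
      have hmL : mL m (F.scaleRoots (X ^ k)) = mL m F := by
        rw [mL_eq hm hC.hζ hprod1, mL_eq hm hC.hζ hprod, LL_twist hm hC.hζ]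
      have hnd : (F.scaleRoots (X ^ k)).natDegree = F.natDegree := natDegree_scaleRoots _ _
      set F1 := F.scaleRoots (X ^ k) with hF1def
      have hcop : ∀ u ∈ Gset m 2, u.Coprime m := by
        intro u hu
        unfold Gset at hu
        exact (Finset.mem_filter.mp hu).2.1
      have h2 : ∀ ω : ℂ, IsPrimitiveRoot ω m → ∀ u ∈ Gset m 2, sp (ω ^ u) F1 = sp ω F1 := by
        intro ω hω u hu
        rw [hprod1 ω hω, hprod1 (ω ^ u) (hω.pow_of_coprime u (hcop u hu)),
          hfxe K m ζ (ζ ^ k * α) hC' u (hcop u hu) (hk2 u hu) ω hω]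
      obtain ⟨F', hF', heq⟩ := hred m F1 hF1 2 hp hpm h2
      have hlt : m / 2 < m := Nat.div_lt_self hm hp.one_lt
      have h3 := ih (m / 2) hlt F' hF'
      have e2 : mL (m / 2) F' = mL m F1 := by
        unfold mL
        rw [← hmea m 2 hm hp hpm]
        apply Pool.Agent.Y947.RL2.meanP_congr hm
        intro ω hω
        rw [heq ω hω]
      have e3 : F'.natDegree = F1.natDegree := by
        obtain ⟨ω, hω⟩ := RD.exists_prim hm
        rw [← RD.natDegree_sp (ω ^ 2) hF'.monic, ← RD.natDegree_sp ω hF1.monic, heq ω hω]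
      rw [e2, e3, hmL, hnd] at h3
      exact h3

lemma rL_expand {e : ℕ} (he : 0 < e) {g : ℂ[X]} (hm : g.Monic) :
    rL (expand ℂ e g) = rL g / e := by
  classical
  have he0 : (e : ℝ) ≠ 0 := by exact_mod_cast he.ne'
  have hex : ∀ w : ℂ, ∃ r : ℂ, r ^ e = w := fun w => IsAlgClosed.exists_pow_nat_eq w he
  choose r hr using hex
  unfold rL
  rw [Leh.roots_expand he hm r hr, Multiset.map_bind, Multiset.sum_bind, Multiset.map_congr rfl
    (g := fun w => (1 / (e : ℝ)) * (Real.posLog ‖w‖) ^ 2), Multiset.sum_map_mul_left]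
  · ring
  · intro w _
    rw [Multiset.map_map]
    have h1 : (Multiset.map ((fun z => (Real.posLog ‖z‖) ^ 2) ∘ fun ζ => ζ * r w)
        (nthRootsFinset e (1:ℂ)).val).sum =
        ∑ ζ ∈ nthRootsFinset e (1:ℂ), (Real.posLog ‖w‖ / e) ^ 2 := by
      rw [Finset.sum_eq_multiset_sum]
      congr 1
      refine Multiset.map_congr rfl fun ζ hζ => ?_
      have hζ' : ζ ∈ nthRootsFinset e (1:ℂ) := hζ
      rw [Function.comp_apply, norm_mul, Pool.Agent.Y947.DL.norm_of_mem_grid he hζ', one_mul]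
      congr 1
      have h2 : Real.posLog ‖w‖ = e * Real.posLog ‖r w‖ := by
        rw [← Real.posLog_pow, ← norm_pow, hr]
      rw [h2]
      field_simp
    rw [h1, Finset.sum_const, Pool.Agent.Y947.DL.card_grid he, nsmul_eq_mul]
    field_simp

/-- the general theorem for polynomials -/
theorem fin_threeL (hk : ∀ (m : ℕ) (F : ℤ[X][X]), Hyp2 m F → 1 / 640 ≤ F.natDegree * mL m F) :
    ∀ (m : ℕ) (F : ℤ[X][X]), Hyp3 m F → 1 / 640 ≤ F.natDegree * mL m F := by
  have key : ∀ (m n : ℕ) (F : ℤ[X][X]), F.natDegree = n → Hyp3 m F →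
      1 / 640 ≤ F.natDegree * mL m F := by
    intro m n
    induction n using Nat.strong_induction_on with
    | _ n ih =>
      intro F hn hF
      rcases RD.exp4 m F hF with h2 | ⟨G, e, hG, he, hdeg, hexp⟩
      · exact hk m F h2
      · have h5 := ih G.natDegree (by rw [← hn]; exact hdeg) G rfl hG
        have hnd : F.natDegree = G.natDegree * e := by
          obtain ⟨ω, hω⟩ := RD.exists_prim hF.hm
          rw [← Y994.RL.Exp.sp_natDegree ω hF.monic, hexp ω hω, natDegree_expand,
            Y994.RL.Exp.sp_natDegree ω hG.monic]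
        have he0 : (e : ℝ) ≠ 0 := by exact_mod_cast he.ne'
        have e2 : mL m F = mL m G / e := by
          have h6 : mL m F = meanP m (fun ω => rL (sp ω G) / e) := by
            apply Pool.Agent.Y947.RL2.meanP_congr hF.hm
            intro ω hω
            rw [hexp ω hω, rL_expand he (Y994.RL.Exp.sp_monic ω hG.monic)]
          rw [h6]
          unfold mL meanP
          rw [← Finset.sum_div]
          field_simp
        rw [e2, hnd]
        push_cast
        have e4 : (G.natDegree : ℝ) * e * (mL m G / e) = G.natDegree * mL m G := by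
          field_simp
        rw [e4]
        exact h5
  intro m F hF
  exact key m F.natDegree F rfl hF

/-- the bound for polynomials -/
theorem t_finL (m : ℕ) (F : ℤ[X][X]) (hF : Hyp3 m F) : 1 / 640 ≤ F.natDegree * mL m F := by
  have tr : S_TR := Y65.RL.tr
  have fxe : T_FXE := Y947.RL2.fxe2 tr
  have mea : S_MEA := Y70.RL.mea
  have fk : T_FK := Y730.RL.FK.fk2 tr
  have red : T_RED := Y947.RL2.red2
  have twa : T_TWA := Y162.RL.twa tr
  have ctw : T_CTW := Y950.RL.ctw
  have sc : T_SC := Y545.RL.sc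
  exact fin_threeL (fin_twoL fk red mea fxe sc twa ctw) m F hF

end Pool.Agent.X184.SZ
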