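import Mathlib
import Pool.Agent.X184.SZ.F

/-!
# The relative Schinzel–Zassenhaus bound: algebraic integers
-/

set_option autoImplicit false

open Finset Polynomial Module Pool.Agent.Y947.DL Pool.Agent.Y947.RL IntermediateField

namespace Pool.Agent.X184.SZ

/-- the mean over the conjugates of the square of `log⁺` -/
noncomputable def sqm (z : ℂ) : ℝ :=
  rL ((minpoly ℤ z).map (Int.castRingHom ℂ)) / (minpoly ℤ z).natDegree

open Pool.Agent.H388SL Pool.Agent.X184.Leh in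
lemma LL_sqm {L : Type} [Field L] [NumberField L] [Algebra L ℂ] (x : L) (hx : IsIntegral ℤ x) :
    LL x = finrank ℚ L * sqm (algebraMap L ℂ x) := by
  classical
  have hmin' : minpoly ℤ (algebraMap L ℂ x) = minpoly ℤ x :=
    minpoly.algebraMap_eq (A := ℤ) (algebraMap L ℂ).injective x
  unfold sqm
  rw [hmin']
  have hzQ : IsIntegral ℚ x := hx.tower_top
  set K' := ℚ⟮x⟯ with hK'
  set γ : K' := AdjoinSimple.gen ℚ x with hγ
  have hγz : algebraMap K' L γ = x := AdjoinSimple.algebraMap_gen ℚ x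
  have hγi : IsIntegral ℤ γ := by
    rw [← hγz] at hx
    exact (isIntegral_algebraMap_iff (algebraMap K' L).injective).mp hx
  have hγc : CInj γ := by
    intro σ τ h
    apply adjoin_algHom_ext ℚ (s := {x})
    intro y hy
    rw [Set.mem_singleton_iff] at hy
    subst hy
    exact h
  have hmin : minpoly ℤ γ = minpoly ℤ x := by
    rw [← hγz]
    exact (minpoly.algebraMap_eq (algebraMap K' L).injective γ).symm
  have hpmap : (minpoly ℤ x).map (Int.castRingHom ℂ) = ∏ τ : K' →ₐ[ℚ] ℂ, (X - C (τ γ)) := by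
    rw [← minpoly_map_eq hγc,
      minpoly.isIntegrallyClosed_eq_field_fractions' ℚ hγi, hmin, Polynomial.map_map]
    rfl
  have hsum : LL x = finrank K' L * ∑ u : K' →ₐ[ℚ] ℂ, (Real.posLog ‖u γ‖) ^ 2 := by
    have h1 := H388SL.sum_embeddings' x (fun z => (Real.posLog ‖z‖) ^ 2)
    rw [nsmul_eq_mul] at h1
    exact h1
  have hfr : finrank ℚ K' = (minpoly ℤ x).natDegree := by
    rw [hK', adjoin.finrank hzQ, minpoly.isIntegrallyClosed_eq_field_fractions' ℚ hx]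
    exact natDegree_map_eq_of_injective (algebraMap ℤ ℚ).injective_int _
  have hdeg : finrank ℚ K' * finrank K' L = finrank ℚ L := finrank_mul_finrank ℚ K' L
  have hx0 : (0 : ℝ) < (minpoly ℤ x).natDegree := by
    exact_mod_cast minpoly.natDegree_pos hx
  rw [hsum, hpmap, rL_prod, ← hdeg, hfr]
  push_cast
  field_simp


/-- the mean over the conjugates of the polynomial -/
theorem mL_sqm (m : ℕ) (F : ℤ[X][X]) (hF : Hyp3 m F) (w : ℂ) (hwp : IsPrimitiveRoot w m) (z : ℂ)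
    (hz0 : (sp w F).eval z = 0) : mL m F = F.natDegree * sqm z := by
  have hTR : S_TR := Y65.RL.tr
  have hm := hF.hm
  have hwi : IsIntegral ℚ w := (hwp.isIntegral hm).tower_top
  have hwQ : w ∈ QAb := subset_adjoin ℚ _ ⟨m, hm, hwp.pow_eq_one⟩
  have hle : ℚ⟮w⟯ ≤ QAb := adjoin_simple_le_iff.2 hwQ
  set g : ℚ⟮w⟯ := AdjoinSimple.gen ℚ w with hg
  have hgw : algebraMap ℚ⟮w⟯ ℂ g = w := AdjoinSimple.algebraMap_gen ℚ w
  have hmon : (sp g F).Monic := Y994.RL.Exp.sp_monic g hF.monic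
  have hirr : Irreducible (sp g F) := by
    have h1 : (sp g F).map ((inclusion hle : ℚ⟮w⟯ →ₐ[ℚ] QAb) : ℚ⟮w⟯ →+* QAb) =
        sp (⟨w, hwQ⟩ : QAb) F := by
      rw [Y994.RL.Exp.sp_map]
      rfl
    refine Polynomial.Monic.irreducible_of_irreducible_map
      ((inclusion hle : ℚ⟮w⟯ →ₐ[ℚ] QAb) : ℚ⟮w⟯ →+* QAb) (sp g F) hmon ?_
    rw [h1]
    refine hF.irr _ ?_
    exact IsPrimitiveRoot.of_map_of_injective (f := algebraMap QAb ℂ)
      (show IsPrimitiveRoot (algebraMap QAb ℂ ⟨w, hwQ⟩) m from hwp) (algebraMap QAb ℂ).injective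
  have hgz : aeval z (sp g F) = 0 := by
    rw [aeval_def, ← Polynomial.eval_map, Y994.RL.Exp.sp_map, hgw]
    exact hz0
  have hzi : IsIntegral ℚ⟮w⟯ z := ⟨sp g F, hmon, by rw [← aeval_def]; exact hgz⟩
  have hmin : minpoly ℚ⟮w⟯ z = sp g F :=
    (minpoly.eq_of_irreducible_of_monic hirr hgz hmon).symm
  have : FiniteDimensional ℚ ℚ⟮w⟯ := adjoin.finiteDimensional hwi
  have : FiniteDimensional ℚ⟮w⟯ ℚ⟮w⟯⟮z⟯ := adjoin.finiteDimensional hzi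
  have hfd : FiniteDimensional ℚ ℚ⟮w⟯⟮z⟯ := Module.Finite.trans ℚ⟮w⟯ ℚ⟮w⟯⟮z⟯
  have hNF : NumberField ℚ⟮w⟯⟮z⟯ := { to_charZero := inferInstance, to_finiteDimensional := hfd }
  have hfr : finrank ℚ ℚ⟮w⟯⟮z⟯ = Nat.totient m * F.natDegree := by
    have h1 := Module.finrank_mul_finrank ℚ ℚ⟮w⟯ ℚ⟮w⟯⟮z⟯
    rw [adjoin.finrank hwi, adjoin.finrank hzi, hmin, Y994.RL.Exp.sp_natDegree g hF.monic,
      ← cyclotomic_eq_minpoly_rat hwp hm, natDegree_cyclotomic] at h1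
    exact h1.symm
  have hgen : ∀ σ τ : ℚ⟮w⟯⟮z⟯ →ₐ[ℚ] ℂ,
      σ (algebraMap ℚ⟮w⟯ ℚ⟮w⟯⟮z⟯ g) = τ (algebraMap ℚ⟮w⟯ ℚ⟮w⟯⟮z⟯ g) →
      σ (AdjoinSimple.gen ℚ⟮w⟯ z) = τ (AdjoinSimple.gen ℚ⟮w⟯ z) → σ = τ := by
    intro σ τ h1 h2
    have h3 : (σ : ℚ⟮w⟯⟮z⟯ →+* ℂ) = (τ : ℚ⟮w⟯⟮z⟯ →+* ℂ) := by
      refine Y620.RL.ext_of (L := ℚ⟮w⟯) (AdjoinSimple.gen ℚ⟮w⟯ z) (fun x => ?_) _ _ ?_ h2
      · obtain ⟨p, hp⟩ := (adjoin.powerBasis hzi).exists_eq_aeval' x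
        rw [adjoin.powerBasis_gen] at hp
        exact ⟨p, hp⟩
      · refine Y620.RL.ext_of (L := ℚ) g (fun x => ?_) _ _ (Subsingleton.elim _ _) h1
        obtain ⟨p, hp⟩ := (adjoin.powerBasis hwi).exists_eq_aeval' x
        rw [adjoin.powerBasis_gen] at hp
        exact ⟨p, hp⟩
    ext x
    exact congrFun (congrArg DFunLike.coe h3) x
  have hαz : algebraMap ℚ⟮w⟯⟮z⟯ ℂ (AdjoinSimple.gen ℚ⟮w⟯ z) = z :=
    AdjoinSimple.algebraMap_gen ℚ⟮w⟯ z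
  have hζw : algebraMap ℚ⟮w⟯⟮z⟯ ℂ (algebraMap ℚ⟮w⟯ ℚ⟮w⟯⟮z⟯ g) = w := by
    rw [← IsScalarTower.algebraMap_apply, hgw]
  obtain ⟨hζ, hα, hprod⟩ := Y433.RL.prodf hTR m hm F hF.monic ℚ⟮w⟯⟮z⟯
    (algebraMap ℚ⟮w⟯ ℚ⟮w⟯⟮z⟯ g)
    (AdjoinSimple.gen ℚ⟮w⟯ z) (algebraMap ℚ⟮w⟯⟮z⟯ ℂ) (by rw [hζw]; exact hwp)
    (by rw [hζw, hαz]; exact hz0) hgen hfr
  have hlam := LL_sqm (AdjoinSimple.gen ℚ⟮w⟯ z) hα
  rw [hαz, hfr] at hlam
  have hφ : (0 : ℝ) < Nat.totient m := by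
    exact_mod_cast Nat.totient_pos.2 hm
  rw [mL_eq hm hζ hprod, hlam]
  push_cast
  field_simp

lemma sqm_nonneg (z : ℂ) : 0 ≤ sqm z := by
  unfold sqm rL
  apply div_nonneg _ (Nat.cast_nonneg _)
  apply Multiset.sum_nonneg
  intro x hx
  rw [Multiset.mem_map] at hx
  obtain ⟨w, -, rfl⟩ := hx
  exact sq_nonneg _

/-- the bound for algebraic integers -/
theorem algL (z : ℂ) (hz : IsIntegral ℤ z) (h0 : z ≠ 0) (hroot : ∀ n : ℕ, 0 < n → z ^ n ≠ 1) :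
    1 / 640 ≤ ((minpoly QAb z).natDegree : ℝ) ^ 2 * sqm z ∧
    ∀ (K : IntermediateField ℚ ℂ) [FiniteDimensional ℚ K],
      1 / 640 ≤ (Module.finrank ℚ K *
        ((minpoly (K ⊔ QAb : IntermediateField ℚ ℂ) z).natDegree : ℝ)) ^ 2 * sqm z := by
  obtain ⟨m, ω₀, F, hm, hω₀, hF, heq⟩ := Y858.RL.rep z hz
  have hyp := Y235.RL.Cnj.cnj z hz h0 hroot m ω₀ F hm hω₀ hF heq
  have hω : IsPrimitiveRoot (ω₀ : ℂ) m :=
    hω₀.map_of_injective (f := algebraMap QAb ℂ) (algebraMap QAb ℂ).injective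
  have hzero : (sp (ω₀ : ℂ) F).eval z = 0 := by
    have h1 : sp (ω₀ : ℂ) F = (minpoly QAb z).map (algebraMap QAb ℂ) := by
      rw [← heq, Y947.RL2.sp_map']
      rfl
    rw [h1, eval_map_algebraMap, minpoly.aeval]
  have hdeg : F.natDegree = (minpoly QAb z).natDegree := by
    rw [← heq]
    unfold sp
    rw [hF.natDegree_map]
  have h1 := t_finL m F hyp
  rw [mL_sqm m F hyp ω₀ hω z hzero, hdeg] at h1
  have h2 : 1 / 640 ≤ ((minpoly QAb z).natDegree : ℝ) ^ 2 * sqm z := by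
    rw [sq, mul_assoc]
    exact h1
  refine ⟨h2, ?_⟩
  intro K _
  have hzalg : IsAlgebraic ℚ z := (hz.tower_top (A := ℚ)).isAlgebraic
  have h4 : ((minpoly QAb z).natDegree : ℝ) ≤
      Module.finrank ℚ K * (minpoly (K ⊔ QAb : IntermediateField ℚ ℂ) z).natDegree := by
    exact_mod_cast Y932.RL.Tow.tow K z hzalg
  refine h2.trans ?_
  apply mul_le_mul_of_nonneg_right _ (sqm_nonneg z)
  exact pow_le_pow_left₀ (Nat.cast_nonneg _) h4 2

end Pool.Agent.X184.SZ
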