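import Mathlib
import Pool.Agent.X184.SZ.H
import Pool.Agent.X184.SZ.C
import Pool.Agent.Y578.RL.J0
import Pool.Agent.H904L2.Main1

/-!
# The main step over number fields with a lift of a power of Frobenius at two
-/

set_option autoImplicit false

open Finset Polynomial Module NumberField IntermediateField

namespace Pool.Agent.X184.SZ

section poly
variable {R : Type*} [CommRing R] [IsDomain R] [CharZero R]

omit [IsDomain R] [CharZero R] in
lemma contract_mul2 {m : ℕ} (hm : 0 < m) (P W : R[X]) (c : ℕ)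
    (h : P.comp (X ^ m) = (c : R[X]) * W) : P = (c : R[X]) * contract m W := by
  ext n
  have h1 := congrArg (fun Q : R[X] => Q.coeff (n * m)) h
  simp only [← expand_eq_comp_X_pow, coeff_expand_mul hm, coeff_natCast_mul] at h1
  rw [coeff_natCast_mul, coeff_contract hm.ne']
  exact h1

/-- iterated Graeffe transforms modulo two -/
lemma gr_iter (P : R[X]) (k : ℕ) : ∃ V : R[X], (gr^[k] P).comp (X ^ (2 ^ k)) = P ^ (2 ^ k) + 2 * V := by
  induction k with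
  | zero => exact ⟨0, by simp⟩
  | succ k ih =>
    obtain ⟨V, hV⟩ := ih
    set Q := gr^[k] P with hQ
    obtain ⟨O, hO⟩ := odd_part' Q
    have h1 : gr^[k + 1] P = gr Q := Function.iterate_succ_apply' gr k P
    have h2 : (gr Q).comp (X ^ (2 ^ (k + 1))) = ((gr Q).comp (X ^ 2)).comp (X ^ (2 ^ k)) := by
      rw [comp_assoc]
      congr 1
      rw [X_pow_comp, ← pow_mul, pow_succ]
    refine ⟨2 * V * P ^ (2 ^ k) + 2 * V ^ 2 - (P ^ (2 ^ k) + 2 * V) * O.comp (X ^ (2 ^ k)), ?_⟩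
    rw [h1, h2, gr_comp, hO, mul_comp, sub_comp, mul_comp, hV]
    have h3 : (2 : R[X]).comp (X ^ (2 ^ k)) = 2 := ofNat_comp (R := R) 2
    rw [h3, pow_succ 2 k, pow_mul]
    ring

omit [IsDomain R] [CharZero R] in
lemma pow_two_add (a b : R) (k : ℕ) : ∃ y : R, (a + b) ^ (2 ^ k) = a ^ (2 ^ k) + b ^ (2 ^ k) + 2 * y := by
  induction k with
  | zero => exact ⟨0, by simp⟩
  | succ k ih =>
    obtain ⟨y, hy⟩ := ih
    refine ⟨a ^ (2 ^ k) * b ^ (2 ^ k) + 2 * y * (a ^ (2 ^ k) + b ^ (2 ^ k)) + 2 * y ^ 2, ?_⟩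
    rw [pow_succ 2 k, pow_mul, hy, pow_mul, pow_mul]
    ring

omit [IsDomain R] [CharZero R] in
/-- Frobenius -/
lemma frobk (σ : R →+* R) (k : ℕ) (hσ : ∀ x, ∃ y, σ x = x ^ (2 ^ k) + 2 * y) (P : R[X]) :
    ∃ W : R[X], P ^ (2 ^ k) = (P.map σ).comp (X ^ (2 ^ k)) + 2 * W := by
  induction P using Polynomial.induction_on' with
  | add P Q hP hQ =>
    obtain ⟨W, hW⟩ := hP
    obtain ⟨W', hW'⟩ := hQ
    obtain ⟨y, hy⟩ := pow_two_add P Q k
    refine ⟨W + W' + y, ?_⟩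
    rw [Polynomial.map_add, add_comp, hy]
    linear_combination hW + hW'
  | monomial n a =>
    obtain ⟨y, hy⟩ := hσ a
    refine ⟨monomial (2 ^ k * n) (-y), ?_⟩
    have h2 : (2 : R[X]) * monomial (2 ^ k * n) (-y) = monomial (2 ^ k * n) (-(2 * y)) := by
      have : (2 : R[X]) = C 2 := (map_ofNat C 2).symm
      rw [this, C_mul_monomial]
      congr 1
      ring
    rw [map_monomial, monomial_comp, ← pow_mul, h2, hy, ← C_mul_X_pow_eq_monomial,
      ← C_mul_X_pow_eq_monomial, mul_pow, ← C_pow, ← pow_mul, mul_comm n (2 ^ k), ← add_mul, ← C_add]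
    congr 2
    ring

/-- the iterated transform is congruent to the Frobenius twist -/
lemma gr_frobk (σ : R →+* R) (k : ℕ) (hσ : ∀ x, ∃ y, σ x = x ^ (2 ^ k) + 2 * y) (P : R[X]) :
    ∃ V, gr^[k] P = P.map σ + 2 * V := by
  obtain ⟨V, hV⟩ := gr_iter P k
  obtain ⟨W, hW⟩ := frobk σ k hσ P
  have e : (gr^[k] P - P.map σ).comp (X ^ (2 ^ k)) = ((2 : ℕ) : R[X]) * (V + W) := by
    rw [sub_comp, hV]
    push_cast
    linear_combination hW
  have e2 := contract_mul2 (by positivity) _ _ _ e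
  refine ⟨contract (2 ^ k) (V + W), ?_⟩
  push_cast at e2
  linear_combination e2

lemma gr_iter_map {ι : Type*} [Fintype ι] (a : ι → ℂ) (φ : R →+* ℂ) (P : R[X])
    (hP : P.map φ = ∏ i, (1 - C (a i) * X)) (k : ℕ) :
    (gr^[k] P).map φ = ∏ i, (1 - C (a i ^ (2 ^ k)) * X) := by
  induction k with
  | zero => simpa using hP
  | succ k ih =>
    rw [Function.iterate_succ_apply', gr_map _ φ _ ih]
    refine Finset.prod_congr rfl fun i _ => ?_
    rw [← pow_mul, ← pow_succ]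

lemma gr_iter_coeff_zero (P : R[X]) (h : P.coeff 0 = 1) (k : ℕ) : (gr^[k] P).coeff 0 = 1 := by
  induction k with
  | zero => simpa using h
  | succ k ih => rw [Function.iterate_succ_apply', gr_coeff_zero, ih, one_pow]

end poly

/-- the weight -/
noncomputable def hp (x : ℝ) : ℝ := min (x ^ 2) (Real.pi * x)

lemma hp_nonneg {x : ℝ} (hx : 0 ≤ x) : 0 ≤ hp x :=
  le_min (sq_nonneg x) (mul_nonneg Real.pi_pos.le hx)

lemma hf_mul {k : ℝ} (hk : 2 ≤ k) {x : ℝ} (hx : 0 ≤ x) : hf (k * x) ≤ k ^ 2 * hp x := by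
  unfold hf hp
  have hπ := Real.pi_pos
  rcases le_total (x ^ 2) (Real.pi * x) with h | h
  · rw [min_eq_left h]
    refine (min_le_left _ _).trans (le_of_eq ?_)
    ring
  · rw [min_eq_right h]
    refine (min_le_right _ _).trans ?_
    have h1 : 0 ≤ Real.pi * x := by positivity
    nlinarith [mul_nonneg h1 (by linarith : (0:ℝ) ≤ k)]

section field
variable {F E : Type} [Field F] [NumberField F] [Field E] [NumberField E] [Algebra F E]

/-- the restriction of an embedding -/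
noncomputable def rs (τ : E →ₐ[ℚ] ℂ) : F →ₐ[ℚ] ℂ := τ.comp (IsScalarTower.toAlgHom ℚ F E)

lemma rs_apply (τ : E →ₐ[ℚ] ℂ) (x : F) : (rs τ : F →ₐ[ℚ] ℂ) x = τ (algebraMap F E x) := rfl

open Classical in
/-- the embeddings over a given one -/
noncomputable def cl (s : F →ₐ[ℚ] ℂ) : Finset (E →ₐ[ℚ] ℂ) :=
  Finset.univ.filter fun τ => rs τ = s

lemma mem_cl {s : F →ₐ[ℚ] ℂ} {τ : E →ₐ[ℚ] ℂ} : τ ∈ cl (E := E) s ↔ rs τ = s := by
  simp [cl]

/-- the algebra homomorphisms over `F` are the embeddings over the given one -/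
lemma prod_cl (s : F →ₐ[ℚ] ℂ) (G : (E →ₐ[ℚ] ℂ) → ℂ[X])
    (g : ∀ (_ : Algebra F ℂ), (E →ₐ[F] ℂ) → ℂ[X])
    (hfg : ∀ (i : Algebra F ℂ) (τ : E →ₐ[ℚ] ℂ) (τ' : E →ₐ[F] ℂ), (∀ x, τ x = τ' x) →
      G τ = g i τ') :
    letI i : Algebra F ℂ := s.toRingHom.toAlgebra
    ∏ τ' : E →ₐ[F] ℂ, g i τ' = ∏ τ ∈ cl (E := E) s, G τ := by
  classical
  let i : Algebra F ℂ := s.toRingHom.toAlgebra
  let e : (E →ₐ[F] ℂ) → (E →ₐ[ℚ] ℂ) := fun τ' => τ'.toRingHom.toRatAlgHom
  refine Finset.prod_bij (fun τ' _ => e τ') ?_ ?_ ?_ ?_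
  · intro τ' _
    rw [mem_cl]
    ext x
    exact τ'.commutes x
  · intro a _ b _ hab
    ext x
    exact congrArg (fun t : E →ₐ[ℚ] ℂ => t x) hab
  · intro τ hτ
    rw [mem_cl] at hτ
    refine ⟨{ τ.toRingHom with commutes' := fun r => ?_ }, Finset.mem_univ _, ?_⟩
    · change τ (algebraMap F E r) = s r
      rw [← hτ]
      rfl
    · ext x
      rfl
  · intro τ' _
    exact (hfg i (e τ') τ' (fun x => rfl)).symm

lemma card_cl (s : F →ₐ[ℚ] ℂ) : (cl (E := E) s).card = finrank F E := by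
  classical
  let i : Algebra F ℂ := s.toRingHom.toAlgebra
  haveI : FiniteDimensional F E := FiniteDimensional.right ℚ F E
  have h := prod_cl (E := E) s (fun _ => (X : ℂ[X])) (fun _ _ => (X : ℂ[X])) (fun _ _ _ _ => rfl)
  rw [Finset.prod_const, Finset.prod_const, Finset.card_univ] at h
  have h2 := congrArg natDegree h
  simp only [natDegree_X_pow] at h2
  rw [← h2]
  exact AlgHom.card F E ℂ

lemma cl_prod (s : F →ₐ[ℚ] ℂ) {α : E} (hgen : F⟮α⟯ = ⊤) :
    (minpoly F α).map s.toRingHom = ∏ τ ∈ cl (E := E) s, (X - C (τ α)) := by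
  classical
  let i : Algebra F ℂ := s.toRingHom.toAlgebra
  haveI : FiniteDimensional F E := FiniteDimensional.right ℚ F E
  have h := prod_cl (E := E) s (fun τ => X - C (τ α)) (fun _ τ' => X - C (τ' α))
    (fun _ τ τ' h => by rw [h α])
  rw [← h, Y578.RL.prod_emb F E ℂ α]
  have h1 : finrank F⟮α⟯ E = 1 := by
    rw [hgen]
    exact IntermediateField.finrank_top
  rw [h1, pow_one]
  rfl

/-- sums over all embeddings -/
lemma sum_cl (g : (E →ₐ[ℚ] ℂ) → ℝ) :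
    ∑ s : F →ₐ[ℚ] ℂ, ∑ τ ∈ cl (E := E) s, g τ = ∑ τ : E →ₐ[ℚ] ℂ, g τ := by
  classical
  rw [← Finset.sum_fiberwise (s := (Finset.univ : Finset (E →ₐ[ℚ] ℂ)))
    (g := fun τ => (rs τ : F →ₐ[ℚ] ℂ))]
  refine Finset.sum_congr rfl fun s _ => ?_
  unfold cl
  congr

/-- the evaluations of the ring of integers -/
noncomputable def evF (s : F →ₐ[ℚ] ℂ) : 𝓞 F →+* ℂ := s.toRingHom.comp (algebraMap (𝓞 F) F)

lemma evF_apply (s : F →ₐ[ℚ] ℂ) (x : 𝓞 F) : evF s x = s (x : F) := rfl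

lemma norm_evF (x : 𝓞 F) (h : ∏ s : F →ₐ[ℚ] ℂ, ‖evF s x‖ < 1) : ∀ s : F →ₐ[ℚ] ℂ, evF s x = 0 := by
  have h1 := Algebra.norm_eq_prod_embeddings ℚ ℂ (x : F)
  have h2 : (Algebra.norm ℤ x : ℚ) = Algebra.norm ℚ (x : F) := Algebra.coe_norm_int x
  have h3 : ∏ s : F →ₐ[ℚ] ℂ, ‖evF s x‖ = |((Algebra.norm ℤ x : ℤ) : ℝ)| := by
    rw [← norm_prod]
    have h4 : ∏ s : F →ₐ[ℚ] ℂ, evF s x = ((Algebra.norm ℤ x : ℤ) : ℂ) := by
      have h5 : ∏ s : F →ₐ[ℚ] ℂ, evF s x = ∏ s : F →ₐ[ℚ] ℂ, s (x : F) := rfl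
      rw [h5, ← h1, ← h2]
      simp
    rw [h4, Complex.norm_intCast]
  rw [h3] at h
  have h4 : Algebra.norm ℤ x = 0 := by
    have h5 : |Algebra.norm ℤ x| < 1 := by exact_mod_cast h
    exact Int.abs_lt_one_iff.mp h5
  have h5 : x = 0 := Algebra.norm_eq_zero_iff.mp h4
  intro s
  rw [h5, map_zero]

end field

end Pool.Agent.X184.SZ
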