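import Mathlib
import Pool.Agent.X184.SZ.I

/-!
# The main step over number fields with a lift of a power of Frobenius at two, second part
-/

set_option autoImplicit false

open Finset Polynomial Module NumberField IntermediateField

namespace Pool.Agent.X184.SZ

section field
variable {F E : Type} [Field F] [NumberField F] [Field E] [NumberField E] [Algebra F E]

lemma exists_P {α : E} (hα : IsIntegral ℤ α) (hgen : F⟮α⟯ = ⊤) :
    ∃ P : (𝓞 F)[X], P.coeff 0 = 1 ∧ ∀ s : F →ₐ[ℚ] ℂ, P.map (evF s) =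
      ∏ τ : {τ // τ ∈ cl (E := E) s}, (1 - C ((τ : E →ₐ[ℚ] ℂ) α) * X) := by
  have h2 : IsIntegral (𝓞 F) α := hα.tower_top
  have h3 := minpoly.isIntegrallyClosed_eq_field_fractions' (R := 𝓞 F) F h2
  have hm := minpoly.monic h2
  refine ⟨(minpoly (𝓞 F) α).reverse, ?_, ?_⟩
  · rw [coeff_zero_reverse]; exact hm
  · intro s
    have h4 := cl_prod s hgen
    rw [h3, Polynomial.map_map] at h4
    have h5 : (minpoly (𝓞 F) α).map (evF s) = ∏ τ ∈ cl (E := E) s, (X - C (τ α)) := h4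
    have h6 : ((minpoly (𝓞 F) α).reverse).map (evF s) =
        ((minpoly (𝓞 F) α).map (evF s)).reverse := by
      rw [reverse, reverse, hm.natDegree_map, reflect_map]
    rw [h6, h5, H904L2.Main1.reverse_prod,
      Finset.prod_coe_sort (cl (E := E) s) (fun τ => (1 - C (τ α) * X : ℂ[X]))]

lemma exists_bigF {α : E} (hα : IsIntegral ℤ α) (h0 : α ≠ 0) (hroot : ∀ n : ℕ, 0 < n → α ^ n ≠ 1) :
    ∃ σ : E →ₐ[ℚ] ℂ, 1 < ‖σ α‖ := by
  by_contra hcon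
  push Not at hcon
  obtain ⟨n, hn, h1⟩ := NumberField.Embeddings.pow_eq_one_of_norm_le_one E ℂ h0 hα
    (fun φ => hcon φ.toRatAlgHom)
  exact hroot n hn h1

/-- the sum of the weights -/
noncomputable def HH (α : E) : ℝ := ∑ τ : E →ₐ[ℚ] ℂ, hp (Real.posLog ‖τ α‖)

open Classical in
theorem coreF (σ : F →ₐ[ℚ] F) {r : ℕ} (hr : 0 < r)
    (hσ : ∀ x : 𝓞 F, ∃ y : 𝓞 F, σ x = (x : F) ^ (2 ^ r) + 2 * y) {α : E}
    (hα : IsIntegral ℤ α) (h0 : α ≠ 0) (hroot : ∀ n : ℕ, 0 < n → α ^ n ≠ 1)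
    (hgen : F⟮α⟯ = ⊤)
    (hinj : ∀ τ τ' : E →ₐ[ℚ] ℂ, (rs τ : F →ₐ[ℚ] ℂ) = rs τ' → (τ α) ^ 2 = (τ' α) ^ 2 → τ = τ') :
    1 / (128 * (1 + 4 ^ r)) ≤ (finrank F E : ℝ) * HH α / finrank ℚ F := by
  by_contra hcon
  push Not at hcon
  have hN : (0:ℝ) < finrank ℚ F := by exact_mod_cast (finrank_pos : 0 < finrank ℚ F)
  rw [div_lt_iff₀ hN] at hcon
  set D : ℝ := (finrank F E : ℝ) with hD
  haveI : FiniteDimensional F E := FiniteDimensional.right ℚ F E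
  have hD1 : 1 ≤ D := by
    rw [hD]; exact_mod_cast (finrank_pos : 0 < finrank F E)
  obtain ⟨P, hP0, hP⟩ := exists_P (F := F) hα hgen
  set q : ℕ := 2 ^ r with hq
  have hq2 : (2:ℝ) ≤ 2 ^ (r + 1) := by
    have : (2:ℝ) ^ 1 ≤ 2 ^ (r + 1) := pow_le_pow_right₀ (by norm_num) (by omega)
    simpa using this
  set sR : 𝓞 F →+* 𝓞 F := RingOfIntegers.mapRingHom σ.toRingHom with hsR
  have hsR_apply : ∀ x : 𝓞 F, ((sR x : 𝓞 F) : F) = σ x := fun x => rfl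
  have hσ' : ∀ x : 𝓞 F, ∃ y : 𝓞 F, sR x = x ^ (2 ^ r) + 2 * y := by
    intro x
    obtain ⟨y, hy⟩ := hσ x
    refine ⟨y, ?_⟩
    apply RingOfIntegers.ext
    rw [hsR_apply, hy]
    change (x : F) ^ q + 2 * (y : F) = algebraMap (𝓞 F) F (x ^ q + 2 * y)
    rw [map_add, map_mul, map_pow, map_ofNat]
  set π : (F →ₐ[ℚ] ℂ) → (F →ₐ[ℚ] ℂ) := fun s => s.comp σ with hπ
  have hσb : Function.Bijective σ := by
    have h1 : Function.Injective σ := σ.toRingHom.injective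
    exact ⟨h1, LinearMap.injective_iff_surjective (f := σ.toLinearMap) |>.mp h1⟩
  have hπi : Function.Injective π := by
    intro s s' h
    ext x
    obtain ⟨y, rfl⟩ := hσb.2 x
    exact DFunLike.congr_fun h y
  have hπb : Function.Bijective π := Finite.injective_iff_bijective.mp hπi
  have hevs : ∀ s : F →ₐ[ℚ] ℂ, (evF s).comp sR = evF (π s) := fun s => RingHom.ext fun x => rfl
  obtain ⟨V, hV⟩ := gr_frobk sR r hσ' P
  obtain ⟨U, hU⟩ := gr_congr hV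
  have hsF : ∀ s : F →ₐ[ℚ] ℂ, (P.map sR).map (evF s) =
      ∏ τ : {τ // τ ∈ cl (E := E) (π s)}, (1 - C ((τ : E →ₐ[ℚ] ℂ) α) * X) := by
    intro s
    rw [Polynomial.map_map, hevs, hP]
  have hA : ∀ s : F →ₐ[ℚ] ℂ, (gr (P.map sR)).map (evF s) =
      ∏ τ : {τ // τ ∈ cl (E := E) (π s)}, (1 - C (((τ : E →ₐ[ℚ] ℂ) α) ^ 2) * X) := fun s =>
    gr_map _ (evF s) _ (hsF s)
  have hB : ∀ s : F →ₐ[ℚ] ℂ, (gr^[r + 1] P).map (evF s) =
      ∏ τ : {τ // τ ∈ cl (E := E) s}, (1 - C (((τ : E →ₐ[ℚ] ℂ) α) ^ (2 ^ (r + 1))) * X) :=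
    fun s => gr_iter_map _ (evF s) _ (hP s) (r + 1)
  have hAB : gr^[r + 1] P = gr (P.map sR) + 4 * U := by
    rw [Function.iterate_succ_apply']
    exact hU
  obtain ⟨c, hc0, hc⟩ := exists_sqrt (gr (P.map sR)) (gr^[r + 1] P) U
    (by rw [gr_coeff_zero, coeff_map, hP0, map_one, one_pow])
    (gr_iter_coeff_zero P hP0 _) hAB
  haveI hne1 : Nonempty (F →ₐ[ℚ] ℂ) := by
    rw [← Fintype.card_pos_iff, AlgHom.card ℚ F ℂ]
    exact finrank_pos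
  haveI hne : ∀ s : F →ₐ[ℚ] ℂ, Nonempty {τ // τ ∈ cl (E := E) s} := by
    intro s
    have h1 : 0 < (cl (E := E) s).card := by
      rw [card_cl]; exact finrank_pos
    obtain ⟨τ, hτ⟩ := Finset.card_pos.mp h1
    exact ⟨⟨τ, hτ⟩⟩
  have hα0 : ∀ τ : E →ₐ[ℚ] ℂ, τ α ≠ 0 := fun τ => by
    rw [Ne, map_eq_zero]; exact h0
  set a : ∀ s : F →ₐ[ℚ] ℂ, ({τ // τ ∈ cl (E := E) (π s)} ⊕ {τ // τ ∈ cl (E := E) s}) → ℂ :=
    fun s => Sum.elim (fun τ => ((τ : E →ₐ[ℚ] ℂ) α) ^ 2)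
      (fun τ => ((τ : E →ₐ[ℚ] ℂ) α) ^ (2 ^ (r + 1))) with ha
  have hprod : ∀ s : F →ₐ[ℚ] ℂ, (∏ i, (1 - C (a s i) * X) : ℂ[X]) =
      (∏ τ : {τ // τ ∈ cl (E := E) (π s)}, (1 - C (((τ : E →ₐ[ℚ] ℂ) α) ^ 2) * X)) *
      ∏ τ : {τ // τ ∈ cl (E := E) s}, (1 - C (((τ : E →ₐ[ℚ] ℂ) α) ^ (2 ^ (r + 1))) * X) := by
    intro s
    rw [Fintype.prod_sum_type]
    simp only [ha, Sum.elim_inl, Sum.elim_inr]
  have hsumL : ∀ s : F →ₐ[ℚ] ℂ, ∑ i, hf (Real.posLog ‖a s i‖) ≤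
      4 * (∑ τ ∈ cl (E := E) (π s), hp (Real.posLog ‖τ α‖)) +
      4 ^ (r + 1) * (∑ τ ∈ cl (E := E) s, hp (Real.posLog ‖τ α‖)) := by
    intro s
    rw [Fintype.sum_sum_type]
    simp only [ha, Sum.elim_inl, Sum.elim_inr, norm_pow, Real.posLog_pow]
    push_cast
    rw [Finset.mul_sum, Finset.mul_sum,
      ← Finset.sum_coe_sort (cl (E := E) (π s)) (fun τ => 4 * hp (Real.posLog ‖τ α‖)),
      ← Finset.sum_coe_sort (cl (E := E) s) (fun τ => 4 ^ (r + 1) * hp (Real.posLog ‖τ α‖))]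
    apply add_le_add
    · apply Finset.sum_le_sum
      intro τ _
      have := hf_mul (le_refl (2:ℝ)) (Real.posLog_nonneg (x := ‖(τ : E →ₐ[ℚ] ℂ) α‖))
      norm_num at this
      exact this
    · apply Finset.sum_le_sum
      intro τ _
      have := hf_mul hq2 (Real.posLog_nonneg (x := ‖(τ : E →ₐ[ℚ] ℂ) α‖))
      rw [← pow_mul, mul_comm (r + 1) 2, pow_mul] at this
      norm_num at this
      exact this
  have htot : ∑ s : F →ₐ[ℚ] ℂ, ∑ i, hf (Real.posLog ‖a s i‖) ≤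
      4 * (1 + 4 ^ r) * HH α := by
    refine (Finset.sum_le_sum fun s _ => hsumL s).trans (le_of_eq ?_)
    rw [Finset.sum_add_distrib, ← Finset.mul_sum, ← Finset.mul_sum,
      hπb.sum_comp (fun s : F →ₐ[ℚ] ℂ => ∑ τ ∈ cl (E := E) s, hp (Real.posLog ‖τ α‖)),
      sum_cl (F := F) (fun τ : E →ₐ[ℚ] ℂ => hp (Real.posLog ‖τ α‖))]
    unfold HH
    ring
  have hcardF : Fintype.card (F →ₐ[ℚ] ℂ) = finrank ℚ F := AlgHom.card ℚ F ℂ
  have hkey := AT2H (R := 𝓞 F) (fun s : F →ₐ[ℚ] ℂ => evF s) (fun x hx => norm_evF x hx)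
    (ι := fun s : F →ₐ[ℚ] ℂ => {τ // τ ∈ cl (E := E) (π s)} ⊕ {τ // τ ∈ cl (E := E) s})
    (n := 2 * D)
    (by
      intro s
      rw [Fintype.card_sum, Fintype.card_coe, Fintype.card_coe, Nat.cast_add, card_cl, card_cl, hD]
      ring)
    a
    (by
      intro s i
      rcases i with i | i
      · exact pow_ne_zero _ (hα0 _)
      · exact pow_ne_zero _ (hα0 _))
    c hc0
    (by
      intro s
      rw [map_sqrt (evF s) hc, hA, hB, hprod])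
    (by
      rw [hcardF]
      have h1 : 2 * D * (∑ s : F →ₐ[ℚ] ℂ, ∑ i, hf (Real.posLog ‖a s i‖)) ≤
          2 * D * (4 * (1 + 4 ^ r) * HH α) := mul_le_mul_of_nonneg_left htot (by linarith)
      refine lt_of_le_of_lt h1 ?_
      have h2 : (0:ℝ) < 1 + 4 ^ r := by positivity
      have h3 : 1 / (128 * (1 + 4 ^ r)) * (finrank ℚ F : ℝ) * (8 * (1 + 4 ^ r)) =
          (finrank ℚ F : ℝ) / 16 := by
        field_simp
        norm_num
      rw [← h3]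
      have h4 : 2 * D * (4 * (1 + 4 ^ r) * HH α) = D * HH α * (8 * (1 + 4 ^ r)) := by ring
      rw [h4]
      exact mul_lt_mul_of_pos_right hcon (by positivity))
  -- the contradiction
  obtain ⟨τ₀, hτ₀⟩ := exists_bigF hα h0 hroot
  have hex : ((Finset.univ : Finset (E →ₐ[ℚ] ℂ)).filter fun τ => 1 < ‖τ α‖).Nonempty :=
    ⟨τ₀, by simp [hτ₀]⟩
  obtain ⟨τ, hτm, hmin⟩ := Finset.exists_min_image _ (fun τ : E →ₐ[ℚ] ℂ => ‖τ α‖) hex
  have hτ1 : 1 < ‖τ α‖ := (Finset.mem_filter.mp hτm).2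
  obtain ⟨s, hs⟩ := hπb.2 (rs τ : F →ₐ[ℚ] ℂ)
  obtain ⟨P', Q', hQ', hPQ⟩ := hkey s
  rw [hprod] at hPQ
  have h1 := square_imp (fun τ : {τ // τ ∈ cl (E := E) (π s)} => ((τ : E →ₐ[ℚ] ℂ) α) ^ 2)
    (fun τ : {τ // τ ∈ cl (E := E) s} => ((τ : E →ₐ[ℚ] ℂ) α) ^ (2 ^ (r + 1)))
    (fun i => pow_ne_zero _ (hα0 _)) (fun i => pow_ne_zero _ (hα0 _))
    (by
      intro τ₁ τ₂ h
      have h2 := mem_cl.mp τ₁.2
      have h3 := mem_cl.mp τ₂.2
      exact Subtype.ext (hinj _ _ (h2.trans h3.symm) h))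
    P' Q' hQ' hPQ ⟨τ, mem_cl.mpr hs.symm⟩
  obtain ⟨⟨τ', hτ'⟩, h4⟩ := h1
  have h5 := congrArg norm h4
  simp only [norm_pow] at h5
  rw [pow_succ, pow_mul] at h5
  have h6 : ‖τ' α‖ ^ (2 ^ r) = ‖τ α‖ := by
    exact (pow_left_inj₀ (by positivity) (norm_nonneg _) (by norm_num)).mp h5
  have h8 : 1 < ‖τ' α‖ := by
    by_contra hle
    push Not at hle
    have := pow_le_one₀ (n := 2 ^ r) (norm_nonneg (τ' α)) hle
    rw [h6] at this
    linarith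
  have h9 := hmin τ' (by simp [h8])
  have h10 : ‖τ' α‖ < ‖τ' α‖ ^ (2 ^ r) := by
    have : 1 < 2 ^ r := Nat.one_lt_two_pow hr.ne'
    calc ‖τ' α‖ = ‖τ' α‖ ^ 1 := (pow_one _).symm
      _ < _ := pow_lt_pow_right₀ h8 this
  rw [h6] at h10
  linarith

end field

end Pool.Agent.X184.SZ
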