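import Mathlib
import Pool.Agent.X184.SZ.J

/-!
# The bound over number fields with a lift of a power of Frobenius at two
-/

set_option autoImplicit false

open Finset Polynomial Module NumberField IntermediateField

namespace Pool.Agent.X184.SZ

lemma hp_two {x : ℝ} (hx : 0 ≤ x) : hp (2 * x) ≤ 4 * hp x := by
  unfold hp
  have hπ := Real.pi_pos
  rcases le_total (x ^ 2) (Real.pi * x) with h | h
  · rw [min_eq_left h]
    refine (min_le_left _ _).trans (le_of_eq ?_)
    ring
  · rw [min_eq_right h]
    refine (min_le_right _ _).trans ?_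
    have h1 : 0 ≤ Real.pi * x := by positivity
    linarith

/-- sums over all embeddings of a function of an element of a subfield -/
lemma sum_sub {F E : Type} [Field F] [NumberField F] [Field E] [NumberField E] [Algebra F E]
    (x : F) (G : ℂ → ℝ) :
    ∑ τ : E →ₐ[ℚ] ℂ, G (τ (algebraMap F E x)) = finrank F E * ∑ s : F →ₐ[ℚ] ℂ, G (s x) := by
  rw [← sum_cl (F := F) (fun τ : E →ₐ[ℚ] ℂ => G (τ (algebraMap F E x))), Finset.mul_sum]
  refine Finset.sum_congr rfl fun s _ => ?_
  rw [Finset.sum_congr rfl (g := fun _ => G (s x))]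
  · rw [Finset.sum_const, card_cl, nsmul_eq_mul]
  · intro τ hτ
    rw [← mem_cl.mp hτ, rs_apply]

lemma gen_top (F E : Type) [Field F] [Field E] [Algebra F E] (β : E) :
    F⟮(AdjoinSimple.gen F β : F⟮β⟯)⟯ = ⊤ := by
  apply IntermediateField.map_injective (F⟮β⟯.val)
  rw [IntermediateField.adjoin_map, Set.image_singleton]
  have h1 : F⟮β⟯.val (AdjoinSimple.gen F β) = β := rfl
  rw [h1]
  ext x
  simp only [IntermediateField.mem_map, IntermediateField.mem_top, true_and]
  constructor
  · intro hx
    exact ⟨⟨x, hx⟩, rfl⟩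
  · rintro ⟨y, rfl⟩
    exact y.2

/-- embeddings which agree on `F` and at `x` agree on `F(x)` -/
lemma eq_on {F E : Type} [Field F] [NumberField F] [Field E] [NumberField E] [Algebra F E]
    {τ τ' : E →ₐ[ℚ] ℂ} (hrs : (rs τ : F →ₐ[ℚ] ℂ) = rs τ') (x : E) (he : τ x = τ' x) :
    ∀ β ∈ F⟮x⟯, τ β = τ' β := by
  intro β hβ
  let i : Algebra F ℂ := (rs τ : F →ₐ[ℚ] ℂ).toRingHom.toAlgebra
  have hc : ∀ y : F, τ'.toRingHom (algebraMap F E y) = algebraMap F ℂ y := fun y => by
    change (rs τ' : F →ₐ[ℚ] ℂ) y = (rs τ : F →ₐ[ℚ] ℂ) y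
    rw [hrs]
  let t1 : E →ₐ[F] ℂ := { τ.toRingHom with commutes' := fun x => rfl }
  let t2 : E →ₐ[F] ℂ := { τ'.toRingHom with commutes' := hc }
  have h1 : t1.comp F⟮x⟯.val = t2.comp F⟮x⟯.val := by
    apply IntermediateField.adjoin_algHom_ext F (s := {x})
    intro y hy
    rw [Set.mem_singleton_iff] at hy
    subst hy
    exact he
  exact DFunLike.congr_fun h1 ⟨β, hβ⟩

theorem genF {F : Type} [Field F] [NumberField F] (σ : F →ₐ[ℚ] F) {r : ℕ} (hr : 0 < r)
    (hσ : ∀ x : 𝓞 F, ∃ y : 𝓞 F, σ x = (x : F) ^ (2 ^ r) + 2 * y) :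
    ∀ (n : ℕ) (E : Type) [Field E] [NumberField E] [Algebra F E] (α : E), finrank F E = n →
      IsIntegral ℤ α → α ≠ 0 → (∀ n : ℕ, 0 < n → α ^ n ≠ 1) → F⟮α⟯ = ⊤ →
      1 / (128 * (1 + 4 ^ r)) ≤ (finrank F E : ℝ) * HH α / finrank ℚ F := by
  classical
  intro n
  induction n using Nat.strong_induction_on with
  | _ n ih =>
    intro E _ _ _ α hn hα h0 hroot hgen
    haveI : FiniteDimensional F E := FiniteDimensional.right ℚ F E
    by_cases hinj : ∀ τ τ' : E →ₐ[ℚ] ℂ, (rs τ : F →ₐ[ℚ] ℂ) = rs τ' → (τ α) ^ 2 = (τ' α) ^ 2 →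
        τ = τ'
    · exact coreF σ hr hσ hα h0 hroot hgen hinj
    push Not at hinj
    obtain ⟨τ, τ', hrs, hsq, hne⟩ := hinj
    have hαne : τ α ≠ τ' α := by
      intro he
      apply hne
      ext β
      exact eq_on hrs α he β (by rw [hgen]; trivial)
    -- the subfield generated by the square
    set E' := F⟮α ^ 2⟯ with hE'
    haveI : FiniteDimensional F E' := inferInstance
    haveI : FiniteDimensional ℚ E' := Module.Finite.trans F E'
    haveI : NumberField E' := { to_charZero := inferInstance, to_finiteDimensional := inferInstance }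
    have hαE : α ∉ E' := by
      intro hmem
      apply hαne
      exact eq_on hrs (α ^ 2) (by rw [map_pow, map_pow, hsq]) α hmem
    have hfr2 : 2 ≤ finrank E' E := by
      by_contra hlt
      push Not at hlt
      have h1 : finrank E' E = 1 := by
        have : 0 < finrank E' E := finrank_pos
        omega
      apply hαE
      have h2 : (⊤ : IntermediateField F E) = E' := by
        have h3 := (IntermediateField.finrank_eq_one_iff_eq_top (F := F) (E := E) (K := E')).mp h1
        exact h3.symm
      rw [← h2]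
      trivial
    have hfrle : finrank E' E ≤ 2 := by
      have h1 : E'⟮α⟯ = ⊤ := by
        rw [eq_top_iff]
        intro y _
        have h2 : y ∈ F⟮α⟯ := by rw [hgen]; trivial
        have h3 : F⟮α⟯ ≤ (E'⟮α⟯).restrictScalars F := by
          rw [adjoin_simple_le_iff]
          exact mem_adjoin_simple_self E' α
        exact h3 h2
      have h2 : IsIntegral E' α := Algebra.IsIntegral.isIntegral α
      have h4 : finrank E' E = (minpoly E' α).natDegree := by
        rw [← adjoin.finrank h2, h1]
        exact (IntermediateField.finrank_top').symm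
      rw [h4]
      have h5 : minpoly E' α ∣ X ^ 2 - C (AdjoinSimple.gen F (α ^ 2) : E') := by
        apply minpoly.dvd
        simp only [map_sub, map_pow, aeval_X, aeval_C]
        have h6 : algebraMap E' E (AdjoinSimple.gen F (α ^ 2)) = α ^ 2 :=
          AdjoinSimple.algebraMap_gen F (α ^ 2)
        rw [h6, sub_self]
      have h6 := natDegree_le_of_dvd h5 (X_pow_sub_C_ne_zero (by norm_num) _)
      rwa [natDegree_X_pow_sub_C] at h6
    have hfr : finrank E' E = 2 := le_antisymm hfrle hfr2
    have hD : finrank F E = finrank F E' * 2 := by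
      rw [← hfr]
      exact (Module.finrank_mul_finrank F E' E).symm
    have hD'0 : 0 < finrank F E' := finrank_pos
    set β : E' := AdjoinSimple.gen F (α ^ 2) with hβ
    have hβα : algebraMap E' E β = α ^ 2 := AdjoinSimple.algebraMap_gen F (α ^ 2)
    have hβi : IsIntegral ℤ β := by
      have h1 : IsIntegral ℤ (algebraMap E' E β) := by rw [hβα]; exact hα.pow 2
      exact (isIntegral_algebraMap_iff (algebraMap E' E).injective).mp h1
    have hβ0 : β ≠ 0 := by
      intro h
      rw [h, map_zero] at hβα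
      exact h0 (pow_eq_zero_iff (two_ne_zero) |>.mp hβα.symm)
    have hβr : ∀ n : ℕ, 0 < n → β ^ n ≠ 1 := by
      intro n hn h
      have h1 := congrArg (algebraMap E' E) h
      rw [map_pow, hβα, map_one, ← pow_mul] at h1
      exact hroot (2 * n) (by omega) h1
    have h1 := ih (finrank F E') (by rw [← hn, hD]; omega) E' β rfl hβi hβ0 hβr
      (gen_top F E (α ^ 2))
    have h2 := sum_sub (F := E') (E := E) β (fun z => hp (Real.posLog ‖z‖))
    rw [hfr] at h2
    have h3 : 2 * HH β ≤ 4 * HH α := by
      have h4 : 2 * HH β = ∑ τ : E →ₐ[ℚ] ℂ, hp (Real.posLog ‖τ (algebraMap E' E β)‖) := by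
        rw [h2]
        unfold HH
        push_cast
        rfl
      rw [h4]
      unfold HH
      rw [Finset.mul_sum]
      apply Finset.sum_le_sum
      intro τ _
      rw [hβα, map_pow, norm_pow, Real.posLog_pow]
      push_cast
      exact hp_two Real.posLog_nonneg
    have hN : (0:ℝ) < finrank ℚ F := by exact_mod_cast (finrank_pos : 0 < finrank ℚ F)
    refine h1.trans ?_
    apply div_le_div_of_nonneg_right _ hN.le
    rw [hD]
    push_cast
    have h5 : (0:ℝ) ≤ finrank F E' := Nat.cast_nonneg _
    nlinarith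

end Pool.Agent.X184.SZ
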