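import Mathlib
import Pool.Agent.X184.SZ.K
import Pool.Agent.X184.SZ.G

/-!
# Polynomials with a factor of small degree over a number field with a lift of Frobenius at two
-/

set_option autoImplicit false

open Finset Polynomial Module NumberField IntermediateField

namespace Pool.Agent.X184.SZ

open Pool.Agent.H388SL Pool.Agent.X184.Leh in
/-- sums over the embeddings of a function of an algebraic integer -/
lemma sum_conj {L : Type} [Field L] [NumberField L] (x : L) (hx : IsIntegral ℤ x) (G : ℂ → ℝ) :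
    (∑ τ : L →ₐ[ℚ] ℂ, G (τ x)) * (minpoly ℤ x).natDegree = finrank ℚ L *
      (((minpoly ℤ x).map (Int.castRingHom ℂ)).roots.map G).sum := by
  classical
  have hzQ : IsIntegral ℚ x := hx.tower_top
  set K' := ℚ⟮x⟯ with hK'
  set γ : K' := AdjoinSimple.gen ℚ x with hγ
  have hγz : algebraMap K' L γ = x := AdjoinSimple.algebraMap_gen ℚ x
  have hγi : IsIntegral ℤ γ := by
    rw [← hγz] at hx
    exact (isIntegral_algebraMap_iff (algebraMap K' L).injective).mp hx
  have hγc : CInj γ := by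
    intro σ τ h
    apply adjoin_algHom_ext ℚ (s := {x})
    intro y hy
    rw [Set.mem_singleton_iff] at hy
    subst hy
    exact h
  have hmin : minpoly ℤ γ = minpoly ℤ x := by
    rw [← hγz]
    exact (minpoly.algebraMap_eq (algebraMap K' L).injective γ).symm
  have hpmap : (minpoly ℤ x).map (Int.castRingHom ℂ) = ∏ τ : K' →ₐ[ℚ] ℂ, (X - C (τ γ)) := by
    rw [← minpoly_map_eq hγc,
      minpoly.isIntegrallyClosed_eq_field_fractions' ℚ hγi, hmin, Polynomial.map_map]
    rfl
  have hsum : ∑ τ : L →ₐ[ℚ] ℂ, G (τ x) = finrank K' L * ∑ u : K' →ₐ[ℚ] ℂ, G (u γ) := by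
    have h1 := H388SL.sum_embeddings' x G
    rw [nsmul_eq_mul] at h1
    exact h1
  have hroots : ((minpoly ℤ x).map (Int.castRingHom ℂ)).roots =
      (Finset.univ : Finset (K' →ₐ[ℚ] ℂ)).val.map fun τ => τ γ := by
    rw [hpmap, Finset.prod_eq_multiset_prod]
    have e : (Multiset.map (fun τ : K' →ₐ[ℚ] ℂ => (X - C (τ γ) : ℂ[X])) Finset.univ.val) =
        Multiset.map (fun a : ℂ => X - C a)
          (Multiset.map (fun τ : K' →ₐ[ℚ] ℂ => τ γ) Finset.univ.val) := by
      rw [Multiset.map_map]; rfl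
    rw [e, Polynomial.roots_multiset_prod_X_sub_C]
  have hsum2 : (((minpoly ℤ x).map (Int.castRingHom ℂ)).roots.map G).sum =
      ∑ u : K' →ₐ[ℚ] ℂ, G (u γ) := by
    rw [hroots, Multiset.map_map]
    rfl
  have hfr : finrank ℚ K' = (minpoly ℤ x).natDegree := by
    rw [hK', adjoin.finrank hzQ, minpoly.isIntegrallyClosed_eq_field_fractions' ℚ hx]
    exact natDegree_map_eq_of_injective (algebraMap ℤ ℚ).injective_int _
  have hdeg : finrank ℚ K' * finrank K' L = finrank ℚ L := finrank_mul_finrank ℚ K' L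
  rw [hsum, hsum2, ← hdeg, hfr]
  push_cast
  ring

/-- the sum of the weights of the zeros -/
noncomputable def wsum (f : ℤ[X]) : ℝ :=
  ((f.map (Int.castRingHom ℂ)).roots.map fun z => hp (Real.posLog ‖z‖)).sum

/-- the field step -/
theorem monicE {F : Type} [Field F] [NumberField F] (σ : F →ₐ[ℚ] F) {r : ℕ} (hr : 0 < r)
    (hσ : ∀ x : 𝓞 F, ∃ y : 𝓞 F, σ x = (x : F) ^ (2 ^ r) + 2 * y) (f : ℤ[X]) (hfm : f.Monic)
    (hf : Irreducible f) (hM : 1 < (f.map (Int.castRingHom ℂ)).mahlerMeasure)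
    (E : Type) [Field E] [NumberField E] [Algebra F E] (α : E)
    (hfα' : eval₂ (Int.castRingHom E) α f = 0) (hgen : F⟮α⟯ = ⊤) :
    1 / (128 * (1 + 4 ^ r)) ≤ (finrank F E : ℝ) ^ 2 * (wsum f / f.natDegree) := by
  classical
  haveI : FiniteDimensional F E := FiniteDimensional.right ℚ F E
  have hfα : aeval α f = 0 := hfα'
  have hαi : IsIntegral ℤ α := ⟨f, hfm, by rw [← aeval_def]; exact hfα⟩
  have hmin : minpoly ℤ α = f := by
    have h1 : minpoly ℤ α ∣ f := minpoly.isIntegrallyClosed_dvd hαi hfα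
    have h2 : Associated (minpoly ℤ α) f :=
      (minpoly.irreducible hαi).associated_of_dvd hf h1
    exact eq_of_monic_of_associated (minpoly.monic hαi) hfm h2
  have hMone : ∀ p : ℤ[X], p ≠ 0 → f ∣ p →
      (p.map (Int.castRingHom ℂ)).mahlerMeasure ≤ 1 → False := by
    intro p hp0 hfp hp1
    obtain ⟨k, hk⟩ := hfp
    have hk0 : k ≠ 0 := by
      rintro rfl
      rw [mul_zero] at hk
      exact hp0 hk
    have h1 : (p.map (Int.castRingHom ℂ)).mahlerMeasure =
        (f.map (Int.castRingHom ℂ)).mahlerMeasure * (k.map (Int.castRingHom ℂ)).mahlerMeasure := by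
      rw [hk, Polynomial.map_mul, mahlerMeasure_mul]
    have h2 : 1 ≤ (k.map (Int.castRingHom ℂ)).mahlerMeasure := by
      apply one_le_mahlerMeasure_of_one_le_norm_leadingCoeff
      rw [leadingCoeff_map_of_injective (Int.castRingHom ℂ).injective_int, eq_intCast,
        Complex.norm_intCast]
      have : (1:ℤ) ≤ |k.leadingCoeff| := Int.one_le_abs (leadingCoeff_ne_zero.mpr hk0)
      exact_mod_cast this
    nlinarith
  have hα0 : α ≠ 0 := by
    intro h0
    apply hMone X X_ne_zero
    · rw [← hmin]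
      apply minpoly.isIntegrallyClosed_dvd hαi
      rw [aeval_X, h0]
    · rw [Polynomial.map_X, mahlerMeasure_eq_leadingCoeff_mul_prod_roots]
      simp
  have hroot : ∀ n : ℕ, 0 < n → α ^ n ≠ 1 := by
    intro n hn h1
    have hmonZ : (X ^ n - 1 : ℤ[X]).Monic := monic_X_pow_sub_C 1 hn.ne'
    apply hMone (X ^ n - 1) hmonZ.ne_zero
    · rw [← hmin]
      apply minpoly.isIntegrallyClosed_dvd hαi
      simp [h1]
    · have h2 : ((X ^ n - 1 : ℤ[X]).map (Int.castRingHom ℂ)) = X ^ n - 1 := by simp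
      rw [h2, mahlerMeasure_eq_leadingCoeff_mul_prod_roots]
      have hmon : (X ^ n - 1 : ℂ[X]).Monic := monic_X_pow_sub_C 1 hn.ne'
      rw [hmon.leadingCoeff, norm_one, one_mul]
      apply le_of_eq
      apply Multiset.prod_eq_one
      intro x hx
      obtain ⟨w, hw, rfl⟩ := Multiset.mem_map.mp hx
      have h3 : w ^ n = 1 := by
        have := (mem_roots hmon.ne_zero).mp hw
        rw [IsRoot.def, eval_sub, eval_pow, eval_X, eval_one] at this
        exact sub_eq_zero.mp this
      have h4 : ‖w‖ = 1 := Complex.norm_eq_one_of_pow_eq_one h3 hn.ne'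
      rw [h4, max_self]
  have h1 := genF σ hr hσ (finrank F E) E α rfl hαi hα0 hroot hgen
  have h2 := sum_conj α hαi (fun z => hp (Real.posLog ‖z‖))
  rw [hmin] at h2
  have hfd : (0:ℝ) < f.natDegree := by
    rw [← hmin]; exact_mod_cast minpoly.natDegree_pos hαi
  have hN : (0:ℝ) < finrank ℚ F := by exact_mod_cast (finrank_pos : 0 < finrank ℚ F)
  have h3 : HH α = finrank ℚ E * wsum f / f.natDegree := by
    rw [eq_div_iff hfd.ne']
    exact h2
  have h4 : (finrank ℚ E : ℝ) = finrank ℚ F * finrank F E := by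
    exact_mod_cast (Module.finrank_mul_finrank ℚ F E).symm
  rw [h3, h4] at h1
  have h5 : (finrank F E : ℝ) * (finrank ℚ F * finrank F E * wsum f / f.natDegree) / finrank ℚ F =
      (finrank F E : ℝ) ^ 2 * (wsum f / f.natDegree) := by
    field_simp
  rw [h5] at h1
  exact h1

/-- monic polynomials -/
theorem monicF {F : Type} [Field F] [NumberField F] (σ : F →ₐ[ℚ] F) {r : ℕ} (hr : 0 < r)
    (hσ : ∀ x : 𝓞 F, ∃ y : 𝓞 F, σ x = (x : F) ^ (2 ^ r) + 2 * y) (f : ℤ[X]) (hfm : f.Monic)
    (hf : Irreducible f) (hM : 1 < (f.map (Int.castRingHom ℂ)).mahlerMeasure) (g : F[X])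
    (hg : g ∣ f.map (Int.castRingHom F)) (hd : 0 < g.natDegree) :
    1 / (128 * (1 + 4 ^ r)) ≤ (g.natDegree : ℝ) ^ 2 * (wsum f / f.natDegree) := by
  classical
  obtain ⟨h, hh, hhg⟩ := exists_irreducible_of_natDegree_pos hd
  have hg0 : g ≠ 0 := by
    rintro rfl
    simp at hd
  haveI : Fact (Irreducible h) := ⟨hh⟩
  have hle : h.natDegree ≤ g.natDegree := natDegree_le_of_dvd hhg hg0
  have hfinF : FiniteDimensional F (AdjoinRoot h) := (AdjoinRoot.powerBasis hh.ne_zero).finite
  haveI : CharZero (AdjoinRoot h) :=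
    charZero_of_injective_algebraMap (algebraMap F (AdjoinRoot h)).injective
  haveI hfin : FiniteDimensional ℚ (AdjoinRoot h) := Module.Finite.trans F (AdjoinRoot h)
  haveI : NumberField (AdjoinRoot h) :=
    { to_charZero := inferInstance, to_finiteDimensional := hfin }
  have hfα : eval₂ (Int.castRingHom (AdjoinRoot h)) (AdjoinRoot.root h) f = 0 := by
    have h1 : h ∣ f.map (Int.castRingHom F) := hhg.trans hg
    have h2 : eval₂ (algebraMap F (AdjoinRoot h)) (AdjoinRoot.root h)
        (f.map (Int.castRingHom F)) = 0 := by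
      obtain ⟨k, hk⟩ := h1
      rw [hk, eval₂_mul]
      have h3 : eval₂ (algebraMap F (AdjoinRoot h)) (AdjoinRoot.root h) h = 0 :=
        AdjoinRoot.eval₂_root h
      rw [h3, zero_mul]
    rw [eval₂_map] at h2
    have h4 : (algebraMap F (AdjoinRoot h)).comp (Int.castRingHom F) =
        Int.castRingHom (AdjoinRoot h) := RingHom.ext_int _ _
    rw [h4] at h2
    exact h2
  have hgen : F⟮(AdjoinRoot.root h : AdjoinRoot h)⟯ = ⊤ := by
    rw [eq_top_iff]
    intro x _
    have h1 : x ∈ Algebra.adjoin F {(AdjoinRoot.root h : AdjoinRoot h)} := by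
      rw [AdjoinRoot.adjoinRoot_eq_top]; trivial
    exact IntermediateField.algebra_adjoin_le_adjoin F {(AdjoinRoot.root h : AdjoinRoot h)} h1
  have hfr : finrank F (AdjoinRoot h) = h.natDegree := by
    rw [(AdjoinRoot.powerBasis hh.ne_zero).finrank, AdjoinRoot.powerBasis_dim]
  have h1 := monicE σ hr hσ f hfm hf hM (AdjoinRoot h) (AdjoinRoot.root h) hfα hgen
  rw [hfr] at h1
  refine h1.trans ?_
  have hw : 0 ≤ wsum f / f.natDegree := by
    apply div_nonneg _ (Nat.cast_nonneg _)
    apply Multiset.sum_nonneg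
    intro x hx
    obtain ⟨w, -, rfl⟩ := Multiset.mem_map.mp hx
    exact hp_nonneg Real.posLog_nonneg
  apply mul_le_mul_of_nonneg_right _ hw
  exact pow_le_pow_left₀ (Nat.cast_nonneg _) (by exact_mod_cast hle) 2

end Pool.Agent.X184.SZ
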