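import Mathlib
import Pool.Agent.X184.SZ.L

/-!
# The main step, general form

`F` is a number field, `σ` an endomorphism of `F` with `σ(x) ^ (2 ^ a) ≡ x ^ (2 ^ b)` modulo `2` for
all the algebraic integers `x` of `F`.
-/

set_option autoImplicit false

open Finset Polynomial Module NumberField IntermediateField

namespace Pool.Agent.X184.SZ

section poly
variable {R : Type*} [CommRing R]

lemma pow_coeff (P : R[X]) (k i : ℕ) :
    ∃ y : R, (P ^ (2 ^ k)).coeff (i * 2 ^ k) = (P.coeff i) ^ (2 ^ k) + 2 * y := by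
  induction P using Polynomial.induction_on' with
  | add P Q hP hQ =>
    obtain ⟨y, hy⟩ := hP
    obtain ⟨y', hy'⟩ := hQ
    obtain ⟨W, hW⟩ := pow_two_add P Q k
    obtain ⟨w, hw⟩ := pow_two_add (P.coeff i) (Q.coeff i) k
    refine ⟨y + y' + W.coeff (i * 2 ^ k) - w, ?_⟩
    have h2 : (2 * W : R[X]).coeff (i * 2 ^ k) = 2 * W.coeff (i * 2 ^ k) := by
      rw [show (2 : R[X]) = C 2 from (map_ofNat C 2).symm, coeff_C_mul]
    rw [hW, coeff_add, coeff_add, h2, coeff_add, hw, hy, hy']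
    ring
  | monomial n a =>
    refine ⟨0, ?_⟩
    rw [← C_mul_X_pow_eq_monomial, mul_pow, ← C_pow, ← pow_mul, coeff_C_mul, coeff_X_pow,
      coeff_C_mul, coeff_X_pow]
    have hk : 0 < 2 ^ k := by positivity
    by_cases h : i = n
    · subst h
      simp
    · have h' : i * 2 ^ k ≠ n * 2 ^ k := fun e => h (Nat.eq_of_mul_eq_mul_right hk e)
      rw [if_neg h, if_neg h']
      simp

variable [IsDomain R] [CharZero R]

lemma gr_coeff (P : R[X]) (k i : ℕ) :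
    ∃ y : R, (gr^[k] P).coeff i = (P.coeff i) ^ (2 ^ k) + 2 * y := by
  obtain ⟨V, hV⟩ := gr_iter P k
  obtain ⟨y, hy⟩ := pow_coeff P k i
  have h1 := congrArg (fun Q : R[X] => Q.coeff (i * 2 ^ k)) hV
  have hk : 0 < 2 ^ k := by positivity
  simp only [← expand_eq_comp_X_pow, coeff_expand_mul hk, coeff_add] at h1
  rw [hy, show (2 : R[X]) = C 2 from (map_ofNat C 2).symm, coeff_C_mul] at h1
  exact ⟨y + V.coeff (i * 2 ^ k), by rw [h1]; ring⟩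

/-- congruence modulo two of the iterated transforms -/
lemma gr_cong2 (σ : R →+* R) (a b : ℕ) (hσ : ∀ x, ∃ y, (σ x) ^ (2 ^ a) = x ^ (2 ^ b) + 2 * y)
    (P : R[X]) : ∃ V, gr^[b] P = gr^[a] (P.map σ) + 2 * V := by
  have h1 : (C 2 : R[X]) ∣ gr^[b] P - gr^[a] (P.map σ) := by
    rw [C_dvd_iff_dvd_coeff]
    intro i
    obtain ⟨y, hy⟩ := gr_coeff P b i
    obtain ⟨y', hy'⟩ := gr_coeff (P.map σ) a i
    obtain ⟨w, hw⟩ := hσ (P.coeff i)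
    rw [coeff_sub, hy, hy', coeff_map, hw]
    exact ⟨y - w - y', by ring⟩
  obtain ⟨V, hV⟩ := h1
  refine ⟨V, ?_⟩
  rw [map_ofNat] at hV
  linear_combination hV

end poly

lemma hf_pow {k : ℕ} (hk : 0 < k) {x : ℝ} (hx : 0 ≤ x) : hf (2 ^ k * x) ≤ 4 ^ k * hp x := by
  have h2 : (2:ℝ) ≤ 2 ^ k := by
    have : (2:ℝ) ^ 1 ≤ 2 ^ k := pow_le_pow_right₀ (by norm_num) hk
    simpa using this
  refine (hf_mul h2 hx).trans (le_of_eq ?_)
  rw [← pow_mul, mul_comm k 2, pow_mul]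
  norm_num

section field
variable {F E : Type} [Field F] [NumberField F] [Field E] [NumberField E] [Algebra F E]

open Classical in
/-- the main step: a bound, or the zeros of the two transforms agree -/
theorem coreG (σ : F →ₐ[ℚ] F) (a b : ℕ)
    (hσ : ∀ x : 𝓞 F, ∃ y : 𝓞 F, (σ x) ^ (2 ^ a) = (x : F) ^ (2 ^ b) + 2 * y) {α : E}
    (hα : IsIntegral ℤ α) (h0 : α ≠ 0) (hgen : F⟮α⟯ = ⊤)
    (hinj : ∀ τ τ' : E →ₐ[ℚ] ℂ, (rs τ : F →ₐ[ℚ] ℂ) = rs τ' →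
      (τ α) ^ (2 ^ (a + 1)) = (τ' α) ^ (2 ^ (a + 1)) → τ = τ') :
    1 / (128 * (4 ^ a + 4 ^ b)) ≤ (finrank F E : ℝ) * HH α / finrank ℚ F ∨
    ∀ τ : E →ₐ[ℚ] ℂ, ∃ τ' : E →ₐ[ℚ] ℂ, (rs τ : F →ₐ[ℚ] ℂ) = (rs τ' : F →ₐ[ℚ] ℂ).comp σ ∧
      (τ' α) ^ (2 ^ (b + 1)) = (τ α) ^ (2 ^ (a + 1)) := by
  by_contra hcon'
  push Not at hcon'
  obtain ⟨hcon, τ₀, hτ₀⟩ := hcon'
  have hN : (0:ℝ) < finrank ℚ F := by exact_mod_cast (finrank_pos : 0 < finrank ℚ F)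
  rw [div_lt_iff₀ hN] at hcon
  set D : ℝ := (finrank F E : ℝ) with hD
  haveI : FiniteDimensional F E := FiniteDimensional.right ℚ F E
  have hD1 : 1 ≤ D := by
    rw [hD]; exact_mod_cast (finrank_pos : 0 < finrank F E)
  obtain ⟨P, hP0, hP⟩ := exists_P (F := F) hα hgen
  set sR : 𝓞 F →+* 𝓞 F := RingOfIntegers.mapRingHom σ.toRingHom with hsR
  have hsR_apply : ∀ x : 𝓞 F, ((sR x : 𝓞 F) : F) = σ x := fun x => rfl
  have hσ' : ∀ x : 𝓞 F, ∃ y : 𝓞 F, (sR x) ^ (2 ^ a) = x ^ (2 ^ b) + 2 * y := by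
    intro x
    obtain ⟨y, hy⟩ := hσ x
    refine ⟨y, ?_⟩
    apply RingOfIntegers.ext
    have h1 : algebraMap (𝓞 F) F ((sR x) ^ (2 ^ a)) = (σ x) ^ (2 ^ a) := by
      rw [map_pow]; rfl
    have h2 : algebraMap (𝓞 F) F (x ^ (2 ^ b) + 2 * y) = (x : F) ^ (2 ^ b) + 2 * (y : F) := by
      rw [map_add, map_mul, map_pow, map_ofNat]
    change algebraMap (𝓞 F) F ((sR x) ^ (2 ^ a)) = algebraMap (𝓞 F) F (x ^ (2 ^ b) + 2 * y)
    rw [h1, h2, hy]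
  set π : (F →ₐ[ℚ] ℂ) → (F →ₐ[ℚ] ℂ) := fun s => s.comp σ with hπ
  have hσb : Function.Bijective σ := by
    have h1 : Function.Injective σ := σ.toRingHom.injective
    exact ⟨h1, LinearMap.injective_iff_surjective (f := σ.toLinearMap) |>.mp h1⟩
  have hπi : Function.Injective π := by
    intro s s' h
    ext x
    obtain ⟨y, rfl⟩ := hσb.2 x
    exact DFunLike.congr_fun h y
  have hπb : Function.Bijective π := Finite.injective_iff_bijective.mp hπi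
  have hevs : ∀ s : F →ₐ[ℚ] ℂ, (evF s).comp sR = evF (π s) := fun s => RingHom.ext fun x => rfl
  obtain ⟨V, hV⟩ := gr_cong2 sR a b hσ' P
  obtain ⟨U, hU⟩ := gr_congr hV
  have hsF : ∀ s : F →ₐ[ℚ] ℂ, (P.map sR).map (evF s) =
      ∏ τ : {τ // τ ∈ cl (E := E) (π s)}, (1 - C ((τ : E →ₐ[ℚ] ℂ) α) * X) := by
    intro s
    rw [Polynomial.map_map, hevs, hP]
  have hA : ∀ s : F →ₐ[ℚ] ℂ, (gr^[a + 1] (P.map sR)).map (evF s) =
      ∏ τ : {τ // τ ∈ cl (E := E) (π s)}, (1 - C (((τ : E →ₐ[ℚ] ℂ) α) ^ (2 ^ (a + 1))) * X) :=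
    fun s => gr_iter_map _ (evF s) _ (hsF s) (a + 1)
  have hB : ∀ s : F →ₐ[ℚ] ℂ, (gr^[b + 1] P).map (evF s) =
      ∏ τ : {τ // τ ∈ cl (E := E) s}, (1 - C (((τ : E →ₐ[ℚ] ℂ) α) ^ (2 ^ (b + 1))) * X) :=
    fun s => gr_iter_map _ (evF s) _ (hP s) (b + 1)
  have hAB : gr^[b + 1] P = gr^[a + 1] (P.map sR) + 4 * U := by
    rw [Function.iterate_succ_apply', Function.iterate_succ_apply']
    exact hU
  obtain ⟨c, hc0, hc⟩ := exists_sqrt (gr^[a + 1] (P.map sR)) (gr^[b + 1] P) U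
    (gr_iter_coeff_zero _ (by rw [coeff_map, hP0, map_one]) _)
    (gr_iter_coeff_zero P hP0 _) hAB
  haveI hne1 : Nonempty (F →ₐ[ℚ] ℂ) := by
    rw [← Fintype.card_pos_iff, AlgHom.card ℚ F ℂ]
    exact finrank_pos
  haveI hne : ∀ s : F →ₐ[ℚ] ℂ, Nonempty {τ // τ ∈ cl (E := E) s} := by
    intro s
    have h1 : 0 < (cl (E := E) s).card := by
      rw [card_cl]; exact finrank_pos
    obtain ⟨τ, hτ⟩ := Finset.card_pos.mp h1
    exact ⟨⟨τ, hτ⟩⟩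
  have hα0 : ∀ τ : E →ₐ[ℚ] ℂ, τ α ≠ 0 := fun τ => by
    rw [Ne, map_eq_zero]; exact h0
  set A : ∀ s : F →ₐ[ℚ] ℂ, ({τ // τ ∈ cl (E := E) (π s)} ⊕ {τ // τ ∈ cl (E := E) s}) → ℂ :=
    fun s => Sum.elim (fun τ => ((τ : E →ₐ[ℚ] ℂ) α) ^ (2 ^ (a + 1)))
      (fun τ => ((τ : E →ₐ[ℚ] ℂ) α) ^ (2 ^ (b + 1))) with hAdef
  have hprod : ∀ s : F →ₐ[ℚ] ℂ, (∏ i, (1 - C (A s i) * X) : ℂ[X]) =
      (∏ τ : {τ // τ ∈ cl (E := E) (π s)}, (1 - C (((τ : E →ₐ[ℚ] ℂ) α) ^ (2 ^ (a + 1))) * X)) *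
      ∏ τ : {τ // τ ∈ cl (E := E) s}, (1 - C (((τ : E →ₐ[ℚ] ℂ) α) ^ (2 ^ (b + 1))) * X) := by
    intro s
    rw [Fintype.prod_sum_type]
    simp only [hAdef, Sum.elim_inl, Sum.elim_inr]
  have hsumL : ∀ s : F →ₐ[ℚ] ℂ, ∑ i, hf (Real.posLog ‖A s i‖) ≤
      4 ^ (a + 1) * (∑ τ ∈ cl (E := E) (π s), hp (Real.posLog ‖τ α‖)) +
      4 ^ (b + 1) * (∑ τ ∈ cl (E := E) s, hp (Real.posLog ‖τ α‖)) := by
    intro s
    rw [Fintype.sum_sum_type]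
    simp only [hAdef, Sum.elim_inl, Sum.elim_inr, norm_pow, Real.posLog_pow]
    push_cast
    rw [Finset.mul_sum, Finset.mul_sum,
      ← Finset.sum_coe_sort (cl (E := E) (π s)) (fun τ => 4 ^ (a + 1) * hp (Real.posLog ‖τ α‖)),
      ← Finset.sum_coe_sort (cl (E := E) s) (fun τ => 4 ^ (b + 1) * hp (Real.posLog ‖τ α‖))]
    apply add_le_add
    · apply Finset.sum_le_sum
      intro τ _
      exact hf_pow (Nat.succ_pos a) Real.posLog_nonneg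
    · apply Finset.sum_le_sum
      intro τ _
      exact hf_pow (Nat.succ_pos b) Real.posLog_nonneg
  have htot : ∑ s : F →ₐ[ℚ] ℂ, ∑ i, hf (Real.posLog ‖A s i‖) ≤
      4 * (4 ^ a + 4 ^ b) * HH α := by
    refine (Finset.sum_le_sum fun s _ => hsumL s).trans (le_of_eq ?_)
    rw [Finset.sum_add_distrib, ← Finset.mul_sum, ← Finset.mul_sum,
      hπb.sum_comp (fun s : F →ₐ[ℚ] ℂ => ∑ τ ∈ cl (E := E) s, hp (Real.posLog ‖τ α‖)),
      sum_cl (F := F) (fun τ : E →ₐ[ℚ] ℂ => hp (Real.posLog ‖τ α‖))]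
    unfold HH
    ring
  have hcardF : Fintype.card (F →ₐ[ℚ] ℂ) = finrank ℚ F := AlgHom.card ℚ F ℂ
  have hkey := AT2H (R := 𝓞 F) (fun s : F →ₐ[ℚ] ℂ => evF s) (fun x hx => norm_evF x hx)
    (ι := fun s : F →ₐ[ℚ] ℂ => {τ // τ ∈ cl (E := E) (π s)} ⊕ {τ // τ ∈ cl (E := E) s})
    (n := 2 * D)
    (by
      intro s
      rw [Fintype.card_sum, Fintype.card_coe, Fintype.card_coe, Nat.cast_add, card_cl, card_cl, hD]
      ring)
    A
    (by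
      intro s i
      rcases i with i | i
      · exact pow_ne_zero _ (hα0 _)
      · exact pow_ne_zero _ (hα0 _))
    c hc0
    (by
      intro s
      rw [map_sqrt (evF s) hc, hA, hB, hprod])
    (by
      rw [hcardF]
      have h1 : 2 * D * (∑ s : F →ₐ[ℚ] ℂ, ∑ i, hf (Real.posLog ‖A s i‖)) ≤
          2 * D * (4 * (4 ^ a + 4 ^ b) * HH α) := mul_le_mul_of_nonneg_left htot (by linarith)
      refine lt_of_le_of_lt h1 ?_
      have h2 : (0:ℝ) < 4 ^ a + 4 ^ b := by positivity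
      have h3 : 1 / (128 * (4 ^ a + 4 ^ b)) * (finrank ℚ F : ℝ) * (8 * (4 ^ a + 4 ^ b)) =
          (finrank ℚ F : ℝ) / 16 := by
        field_simp
        norm_num
      rw [← h3]
      have h4 : 2 * D * (4 * (4 ^ a + 4 ^ b) * HH α) = D * HH α * (8 * (4 ^ a + 4 ^ b)) := by ring
      rw [h4]
      exact mul_lt_mul_of_pos_right hcon (by positivity))
  -- the contradiction
  obtain ⟨s, hs⟩ := hπb.2 (rs τ₀ : F →ₐ[ℚ] ℂ)
  obtain ⟨P', Q', hQ', hPQ⟩ := hkey s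
  rw [hprod] at hPQ
  have h1 := square_imp (fun τ : {τ // τ ∈ cl (E := E) (π s)} => ((τ : E →ₐ[ℚ] ℂ) α) ^ (2 ^ (a + 1)))
    (fun τ : {τ // τ ∈ cl (E := E) s} => ((τ : E →ₐ[ℚ] ℂ) α) ^ (2 ^ (b + 1)))
    (fun i => pow_ne_zero _ (hα0 _)) (fun i => pow_ne_zero _ (hα0 _))
    (by
      intro τ₁ τ₂ h
      have h2 := mem_cl.mp τ₁.2
      have h3 := mem_cl.mp τ₂.2
      exact Subtype.ext (hinj _ _ (h2.trans h3.symm) h))
    P' Q' hQ' hPQ ⟨τ₀, mem_cl.mpr hs.symm⟩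
  obtain ⟨⟨τ', hτ'⟩, h4⟩ := h1
  refine hτ₀ τ' ?_ h4
  rw [mem_cl.mp hτ', ← hs]

end field

end Pool.Agent.X184.SZ
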