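import Mathlib
import Pool.Agent.X184.SZ.K
import Pool.Agent.X184.SZ.M

/-!
# Descent along quadratic extensions
-/

set_option autoImplicit false

open Finset Polynomial Module NumberField IntermediateField

namespace Pool.Agent.X184.SZ

/-- the bound for all finite extensions generated by an algebraic integer -/
def Bd (F : Type) [Field F] [NumberField F] (c : ℝ) : Prop :=
  ∀ (E : Type) [Field E] [NumberField E] [Algebra F E] (α : E), IsIntegral ℤ α → α ≠ 0 →
    (∀ n : ℕ, 0 < n → α ^ n ≠ 1) → F⟮α⟯ = ⊤ → c ≤ (finrank F E : ℝ) * HH α / finrank ℚ F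

/-- it suffices to treat the elements such that squaring is injective on the conjugates -/
theorem bd_of {F : Type} [Field F] [NumberField F] {c : ℝ}
    (h : ∀ (E : Type) [Field E] [NumberField E] [Algebra F E] (α : E), IsIntegral ℤ α → α ≠ 0 →
      (∀ n : ℕ, 0 < n → α ^ n ≠ 1) → F⟮α⟯ = ⊤ →
      (∀ τ τ' : E →ₐ[ℚ] ℂ, (rs τ : F →ₐ[ℚ] ℂ) = rs τ' → (τ α) ^ 2 = (τ' α) ^ 2 → τ = τ') →
      c ≤ (finrank F E : ℝ) * HH α / finrank ℚ F) : Bd F c := by
  classical
  suffices H : ∀ (n : ℕ) (E : Type) [Field E] [NumberField E] [Algebra F E] (α : E),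
      finrank F E = n → IsIntegral ℤ α → α ≠ 0 → (∀ n : ℕ, 0 < n → α ^ n ≠ 1) → F⟮α⟯ = ⊤ →
      c ≤ (finrank F E : ℝ) * HH α / finrank ℚ F by
    intro E _ _ _ α hα h0 hroot hgen
    exact H _ E α rfl hα h0 hroot hgen
  intro n
  induction n using Nat.strong_induction_on with
  | _ n ih =>
    intro E _ _ _ α hn hα h0 hroot hgen
    haveI : FiniteDimensional F E := FiniteDimensional.right ℚ F E
    by_cases hinj : ∀ τ τ' : E →ₐ[ℚ] ℂ, (rs τ : F →ₐ[ℚ] ℂ) = rs τ' → (τ α) ^ 2 = (τ' α) ^ 2 →
        τ = τ'
    · exact h E α hα h0 hroot hgen hinj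
    push Not at hinj
    obtain ⟨τ, τ', hrs, hsq, hne⟩ := hinj
    have hαne : τ α ≠ τ' α := by
      intro he
      apply hne
      ext β
      exact eq_on hrs α he β (by rw [hgen]; trivial)
    -- the subfield generated by the square
    set E' := F⟮α ^ 2⟯ with hE'
    haveI : FiniteDimensional F E' := inferInstance
    haveI : FiniteDimensional ℚ E' := Module.Finite.trans F E'
    haveI : NumberField E' := { to_charZero := inferInstance, to_finiteDimensional := inferInstance }
    have hαE : α ∉ E' := by
      intro hmem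
      apply hαne
      exact eq_on hrs (α ^ 2) (by rw [map_pow, map_pow, hsq]) α hmem
    have hfr2 : 2 ≤ finrank E' E := by
      by_contra hlt
      push Not at hlt
      have h1 : finrank E' E = 1 := by
        have : 0 < finrank E' E := finrank_pos
        omega
      apply hαE
      have h2 : (⊤ : IntermediateField F E) = E' := by
        have h3 := (IntermediateField.finrank_eq_one_iff_eq_top (F := F) (E := E) (K := E')).mp h1
        exact h3.symm
      rw [← h2]
      trivial
    have hfrle : finrank E' E ≤ 2 := by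
      have h1 : E'⟮α⟯ = ⊤ := by
        rw [eq_top_iff]
        intro y _
        have h2 : y ∈ F⟮α⟯ := by rw [hgen]; trivial
        have h3 : F⟮α⟯ ≤ (E'⟮α⟯).restrictScalars F := by
          rw [adjoin_simple_le_iff]
          exact mem_adjoin_simple_self E' α
        exact h3 h2
      have h2 : IsIntegral E' α := Algebra.IsIntegral.isIntegral α
      have h4 : finrank E' E = (minpoly E' α).natDegree := by
        rw [← adjoin.finrank h2, h1]
        exact (IntermediateField.finrank_top').symm
      rw [h4]
      have h5 : minpoly E' α ∣ X ^ 2 - C (AdjoinSimple.gen F (α ^ 2) : E') := by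
        apply minpoly.dvd
        simp only [map_sub, map_pow, aeval_X, aeval_C]
        have h6 : algebraMap E' E (AdjoinSimple.gen F (α ^ 2)) = α ^ 2 :=
          AdjoinSimple.algebraMap_gen F (α ^ 2)
        rw [h6, sub_self]
      have h6 := natDegree_le_of_dvd h5 (X_pow_sub_C_ne_zero (by norm_num) _)
      rwa [natDegree_X_pow_sub_C] at h6
    have hfr : finrank E' E = 2 := le_antisymm hfrle hfr2
    have hD : finrank F E = finrank F E' * 2 := by
      rw [← hfr]
      exact (Module.finrank_mul_finrank F E' E).symm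
    have hD'0 : 0 < finrank F E' := finrank_pos
    set β : E' := AdjoinSimple.gen F (α ^ 2) with hβ
    have hβα : algebraMap E' E β = α ^ 2 := AdjoinSimple.algebraMap_gen F (α ^ 2)
    have hβi : IsIntegral ℤ β := by
      have h1 : IsIntegral ℤ (algebraMap E' E β) := by rw [hβα]; exact hα.pow 2
      exact (isIntegral_algebraMap_iff (algebraMap E' E).injective).mp h1
    have hβ0 : β ≠ 0 := by
      intro h
      rw [h, map_zero] at hβα
      exact h0 (pow_eq_zero_iff (two_ne_zero) |>.mp hβα.symm)
    have hβr : ∀ n : ℕ, 0 < n → β ^ n ≠ 1 := by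
      intro n hn h
      have h1 := congrArg (algebraMap E' E) h
      rw [map_pow, hβα, map_one, ← pow_mul] at h1
      exact hroot (2 * n) (by omega) h1
    have h1 := ih (finrank F E') (by rw [← hn, hD]; omega) E' β rfl hβi hβ0 hβr
      (gen_top F E (α ^ 2))
    have h2 := sum_sub (F := E') (E := E) β (fun z => hp (Real.posLog ‖z‖))
    rw [hfr] at h2
    have h3 : 2 * HH β ≤ 4 * HH α := by
      have h4 : 2 * HH β = ∑ τ : E →ₐ[ℚ] ℂ, hp (Real.posLog ‖τ (algebraMap E' E β)‖) := by
        rw [h2]
        unfold HH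
        push_cast
        rfl
      rw [h4]
      unfold HH
      rw [Finset.mul_sum]
      apply Finset.sum_le_sum
      intro τ _
      rw [hβα, map_pow, norm_pow, Real.posLog_pow]
      push_cast
      exact hp_two Real.posLog_nonneg
    have hN : (0:ℝ) < finrank ℚ F := by exact_mod_cast (finrank_pos : 0 < finrank ℚ F)
    refine h1.trans ?_
    apply div_le_div_of_nonneg_right _ hN.le
    rw [hD]
    push_cast
    have h5 : (0:ℝ) ≤ finrank F E' := Nat.cast_nonneg _
    nlinarith

lemma HH_nonneg {E : Type} [Field E] [NumberField E] (α : E) : 0 ≤ HH α :=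
  Finset.sum_nonneg fun _ _ => hp_nonneg Real.posLog_nonneg

theorem descend {F F' : Type} [Field F] [NumberField F] [Field F'] [NumberField F'] [Algebra F F']
    {c : ℝ} (hc : c ≤ 1 / 256) (hB : Bd F c) (τ₀ : F' →ₐ[F] F') (hτ2 : ∀ x, τ₀ (τ₀ x) = x)
    (hfix : ∀ x, τ₀ x = x → x ∈ Set.range (algebraMap F F'))
    (hσ : ∀ x : 𝓞 F', ∃ y : 𝓞 F', τ₀ x = (x : F') + 2 * y) (η : F') (hη : τ₀ η = -η) {N : ℕ}
    (hN : 0 < N) (hηN : η ^ N = 1) : Bd F' c := by
  classical
  apply bd_of
  intro E _ _ _ α hα h0 hroot hgen hinj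
  haveI : FiniteDimensional F' E := FiniteDimensional.right ℚ F' E
  rcases coreG (F := F') (τ₀.restrictScalars ℚ) 0 0
    (fun x => by
      obtain ⟨y, hy⟩ := hσ x
      exact ⟨y, by rw [pow_zero, pow_one, pow_one]; exact hy⟩) hα h0 hgen
    (fun τ τ' h1 h2 => hinj τ τ' h1 (by simpa using h2)) with h | h
  · refine hc.trans ?_
    norm_num at h ⊢
    exact h
  obtain ⟨τ⟩ : Nonempty (E →ₐ[ℚ] ℂ) := by
    rw [← Fintype.card_pos_iff, AlgHom.card ℚ E ℂ]
    exact finrank_pos
  obtain ⟨τ', hrs, hsq⟩ := h τ
  have hsq' : (τ' α) ^ 2 = (τ α) ^ 2 := by simpa using hsq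
  have hrs' : ∀ x : F', τ' (algebraMap F' E x) = τ (algebraMap F' E (τ₀ x)) := by
    intro x
    have h1 := DFunLike.congr_fun hrs (τ₀ x)
    change τ (algebraMap F' E (τ₀ x)) = τ' (algebraMap F' E (τ₀ (τ₀ x))) at h1
    rw [hτ2] at h1
    exact h1.symm
  have key : ∀ (u e : F'), e * e = 1 → τ' α = τ (algebraMap F' E e) * τ α → τ₀ u = e * u →
      u ^ N = 1 → c ≤ (finrank F' E : ℝ) * HH α / finrank ℚ F' := by
    intro u e he hτe hu huN
    set P := minpoly F' α with hP
    have hαF : IsIntegral F' α := Algebra.IsIntegral.isIntegral α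
    have hPm : P.Monic := minpoly.monic hαF
    have h1 : τ (aeval (algebraMap F' E e * α) (P.map (τ₀ : F' →+* F'))) = 0 := by
      have e1 : τ (aeval (algebraMap F' E e * α) (P.map (τ₀ : F' →+* F'))) =
          eval₂ ((τ : E →+* ℂ).comp ((algebraMap F' E).comp (τ₀ : F' →+* F')))
            (τ (algebraMap F' E e * α)) P := by
        rw [aeval_def, eval₂_map]
        exact hom_eval₂ P _ (τ : E →+* ℂ) _
      have e2 : ((τ : E →+* ℂ).comp ((algebraMap F' E).comp (τ₀ : F' →+* F'))) =
          (τ' : E →+* ℂ).comp (algebraMap F' E) := RingHom.ext fun x => (hrs' x).symm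
      have e3 : τ' (aeval α P) = eval₂ ((τ' : E →+* ℂ).comp (algebraMap F' E)) (τ' α) P := by
        rw [aeval_def]
        exact hom_eval₂ P _ (τ' : E →+* ℂ) _
      rw [e1, e2, map_mul, ← hτe, ← e3, minpoly.aeval, map_zero]
    have h2 : aeval (algebraMap F' E e * α) (P.map (τ₀ : F' →+* F')) = 0 :=
      (map_eq_zero τ).mp h1
    have h3 : aeval α (scaleRoots (P.map (τ₀ : F' →+* F')) e) = 0 := by
      have h4 := scaleRoots_aeval_eq_zero (r := e) h2
      rwa [← mul_assoc, ← map_mul, he, map_one, one_mul] at h4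
    have hm1 : (P.map (τ₀ : F' →+* F')).Monic := hPm.map _
    have h4 : scaleRoots (P.map (τ₀ : F' →+* F')) e = P := by
      apply eq_of_monic_of_dvd_of_natDegree_le hPm ((monic_scaleRoots_iff e).mpr hm1)
        (minpoly.dvd F' α h3)
      rw [natDegree_scaleRoots, hPm.natDegree_map]
    set P1 := scaleRoots P u with hP1
    have h5 : P1.map (τ₀ : F' →+* F') = P1 := by
      rw [hP1, map_scaleRoots _ _ _ (by rw [hPm.leadingCoeff, map_one]; exact one_ne_zero)]
      conv_rhs => rw [← h4]
      rw [← scaleRoots_mul]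
      congr 1
    have h6 : aeval (algebraMap F' E u * α) P1 = 0 := scaleRoots_aeval_eq_zero (minpoly.aeval F' α)
    have hP1m : P1.Monic := (monic_scaleRoots_iff u).mpr hPm
    have h7 : P1 ∈ lifts (algebraMap F F') := by
      rw [lifts_iff_coeff_lifts]
      intro n
      apply hfix
      have h8 : (P1.map (τ₀ : F' →+* F')).coeff n = P1.coeff n := by rw [h5]
      rw [coeff_map] at h8
      exact h8
    obtain ⟨P2, hP2, hP2d, hP2m⟩ := lifts_and_natDegree_eq_and_monic h7 hP1m
    letI iA : Algebra F E := ((algebraMap F' E).comp (algebraMap F F')).toAlgebra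
    haveI : IsScalarTower F F' E := IsScalarTower.of_algebraMap_eq fun _ => rfl
    haveI : FiniteDimensional F E := FiniteDimensional.right ℚ F E
    set z : E := algebraMap F' E u * α with hz
    have h8 : aeval z P2 = 0 := by
      rw [← aeval_map_algebraMap F' z P2, hP2]
      exact h6
    have huN' : (algebraMap F' E u) ^ N = 1 := by rw [← map_pow, huN, map_one]
    have hui : IsIntegral ℤ (algebraMap F' E u) :=
      ⟨X ^ N - 1, monic_X_pow_sub_C 1 hN.ne', by simp [huN']⟩
    have hzi : IsIntegral ℤ z := hui.mul hα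
    have hu0 : algebraMap F' E u ≠ 0 := by
      intro h
      rw [h, zero_pow hN.ne'] at huN'
      exact zero_ne_one huN'
    have hz0 : z ≠ 0 := mul_ne_zero hu0 h0
    have hzr : ∀ n : ℕ, 0 < n → z ^ n ≠ 1 := by
      intro n hn h
      apply hroot (N * n) (Nat.mul_pos hN hn)
      have h9 : (z ^ n) ^ N = 1 := by rw [h, one_pow]
      rw [← pow_mul, hz, mul_pow, mul_comm n N, pow_mul (algebraMap F' E u), huN', one_pow,
        one_mul] at h9
      exact h9
    have hzF : IsIntegral F z := Algebra.IsIntegral.isIntegral z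
    set E' := F⟮z⟯ with hE'
    haveI : FiniteDimensional F E' := inferInstance
    haveI : FiniteDimensional ℚ E' := Module.Finite.trans F E'
    haveI : NumberField E' := { to_charZero := inferInstance, to_finiteDimensional := inferInstance }
    set γ : E' := AdjoinSimple.gen F z with hγ
    have hγz : algebraMap E' E γ = z := AdjoinSimple.algebraMap_gen F z
    have hγi : IsIntegral ℤ γ := by
      have h1 : IsIntegral ℤ (algebraMap E' E γ) := by rw [hγz]; exact hzi
      exact (isIntegral_algebraMap_iff (algebraMap E' E).injective).mp h1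
    have hγ0 : γ ≠ 0 := by
      intro h
      rw [h, map_zero] at hγz
      exact hz0 hγz.symm
    have hγr : ∀ n : ℕ, 0 < n → γ ^ n ≠ 1 := by
      intro n hn h
      have h1 := congrArg (algebraMap E' E) h
      rw [map_pow, hγz, map_one] at h1
      exact hzr n hn h1
    have hle : finrank F E' ≤ finrank F' E := by
      have e1 : finrank F E' = (minpoly F z).natDegree := adjoin.finrank hzF
      have e2 : finrank F' E = P.natDegree := by
        rw [hP, ← adjoin.finrank hαF, hgen]
        exact (IntermediateField.finrank_top').symm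
      have e3 := natDegree_le_of_dvd (minpoly.dvd F z h8) hP2m.ne_zero
      rw [hP2d, hP1, natDegree_scaleRoots] at e3
      omega
    have h9 := hB E' γ hγi hγ0 hγr (gen_top F E z)
    have h10 := sum_sub (F := E') (E := E) γ (fun z => hp (Real.posLog ‖z‖))
    have h11 : HH α = finrank E' E * HH γ := by
      unfold HH
      rw [← h10]
      refine Finset.sum_congr rfl fun t _ => ?_
      have h12 : ‖t (algebraMap F' E u)‖ = 1 := by
        apply Complex.norm_eq_one_of_pow_eq_one (n := N) _ hN.ne'
        rw [← map_pow, huN', map_one]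
      rw [hγz, hz, map_mul, norm_mul, h12, one_mul]
    have hdeg : finrank ℚ F * finrank F E' * finrank E' E = finrank ℚ F' * finrank F' E := by
      rw [Module.finrank_mul_finrank ℚ F' E, Module.finrank_mul_finrank ℚ F E',
        Module.finrank_mul_finrank ℚ E' E]
    have hn1 : (0:ℝ) < finrank ℚ F := by exact_mod_cast (finrank_pos : 0 < finrank ℚ F)
    have hn2 : (0:ℝ) < finrank ℚ F' := by exact_mod_cast (finrank_pos : 0 < finrank ℚ F')
    have hn3 : (0:ℝ) < finrank F E' := by exact_mod_cast (finrank_pos : 0 < finrank F E')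
    have hdeg' : (finrank ℚ F : ℝ) * finrank F E' * finrank E' E = finrank ℚ F' * finrank F' E := by
      exact_mod_cast hdeg
    have hle' : (finrank F E' : ℝ) ≤ finrank F' E := by exact_mod_cast hle
    refine h9.trans ?_
    rw [h11, div_le_div_iff₀ hn1 hn2]
    have hγn : 0 ≤ HH γ := HH_nonneg γ
    have h13 : (finrank F E' : ℝ) * finrank ℚ F' ≤ finrank F' E * finrank E' E * finrank ℚ F := by
      have h14 : (finrank F E' : ℝ) * (finrank F E' * finrank ℚ F') ≤
          finrank F E' * (finrank F' E * finrank E' E * finrank ℚ F) := by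
        have e1 : (finrank F E' : ℝ) * (finrank F' E * finrank E' E * finrank ℚ F) =
            finrank F' E * (finrank ℚ F' * finrank F' E) := by
          rw [← hdeg']; ring
        rw [e1]
        have e2 : (finrank F E' : ℝ) * finrank F E' ≤ finrank F' E * finrank F' E :=
          mul_le_mul hle' hle' hn3.le (by linarith)
        calc (finrank F E' : ℝ) * (finrank F E' * finrank ℚ F') =
            (finrank F E' * finrank F E') * finrank ℚ F' := by ring
          _ ≤ (finrank F' E * finrank F' E) * finrank ℚ F' :=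
              mul_le_mul_of_nonneg_right e2 hn2.le
          _ = _ := by ring
      exact le_of_mul_le_mul_left h14 hn3
    calc (finrank F E' : ℝ) * HH γ * finrank ℚ F' = (finrank F E' * finrank ℚ F') * HH γ := by ring
      _ ≤ (finrank F' E * finrank E' E * finrank ℚ F) * HH γ :=
          mul_le_mul_of_nonneg_right h13 hγn
      _ = _ := by ring
  have hηN2 : η ^ N = 1 := hηN
  rcases sq_eq_sq_iff_eq_or_eq_neg.mp hsq' with h1 | h1
  · exact key 1 1 (by ring) (by rw [map_one, map_one, one_mul]; exact h1) (by rw [map_one]; ring)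
      (one_pow N)
  · exact key η (-1) (by ring) (by rw [map_neg, map_neg, map_one, map_one, h1]; ring)
      (by rw [hη]; ring) hηN

end Pool.Agent.X184.SZ
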