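import Mathlib
import Pool.Agent.X184.SZ.N

/-!
# The cyclotomic tower at two
-/

set_option autoImplicit false

open Finset Polynomial Module NumberField IntermediateField

namespace Pool.Agent.X184.SZ

/-- half of an odd integer is not integral -/
lemma odd_half {F : Type*} [Field F] [CharZero F] {n : ℕ} (hn : Odd n)
    (h : IsIntegral ℤ ((n : F) / 2)) : False := by
  have h1 : IsIntegral ℤ (algebraMap ℚ F ((n : ℚ) / 2)) := by
    rw [map_div₀, map_natCast, map_ofNat]; exact h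
  have h2 : IsIntegral ℤ ((n : ℚ) / 2) :=
    (isIntegral_algebraMap_iff (algebraMap ℚ F).injective).mp h1
  obtain ⟨y, hy⟩ := IsIntegrallyClosed.isIntegral_iff.mp h2
  have h3 : (n : ℚ) = 2 * y := by
    have : (algebraMap ℤ ℚ y) = (y : ℚ) := rfl
    rw [this] at hy
    rw [hy]; ring
  have h4 : (n : ℤ) = 2 * y := by exact_mod_cast h3
  obtain ⟨m, hm⟩ := hn
  omega

/-- the properties of a level of the tower -/
structure Lv (F : Type) [Field F] (ζ : F) (k : ℕ) : Prop where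
  hk : 0 < k
  hζ : ζ ^ k = -1
  u1 : IsIntegral ℤ (2 / (ζ - 1) ^ k)
  u2 : IsIntegral ℤ ((ζ - 1) ^ k / 2)
  red : ∀ x : F, IsIntegral ℤ x → IsIntegral ℤ (x ^ 2 / (ζ - 1)) → IsIntegral ℤ (x / (ζ - 1))

namespace Lv
variable {F : Type} [Field F] [CharZero F] {ζ : F} {k : ℕ}

lemma ne (h : Lv F ζ k) : ζ - 1 ≠ 0 := by
  intro h1
  have h2 : ζ = 1 := sub_eq_zero.mp h1
  have h3 := h.hζ
  rw [h2, one_pow] at h3
  have h4 : (2:F) = 0 := by linear_combination h3
  exact two_ne_zero h4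

lemma int (h : Lv F ζ k) : IsIntegral ℤ ζ := by
  apply IsIntegral.of_pow h.hk
  rw [h.hζ]
  exact isIntegral_one.neg

lemma two (h : Lv F ζ k) : ∀ i ≤ k, IsIntegral ℤ (2 / (ζ - 1) ^ i) := by
  intro i hi
  have h1 : (2 : F) / (ζ - 1) ^ i = 2 / (ζ - 1) ^ k * (ζ - 1) ^ (k - i) := by
    have h2 : (ζ - 1) ^ k = (ζ - 1) ^ i * (ζ - 1) ^ (k - i) := by
      rw [← pow_add]; congr 1; omega
    rw [h2]
    have := h.ne
    field_simp
  rw [h1]
  exact h.u1.mul ((h.int.sub isIntegral_one).pow _)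

lemma step (h : Lv F ζ k) {A B : F} (hA : IsIntegral ℤ A) (hB : IsIntegral ℤ B)
    (hAB : IsIntegral ℤ ((A ^ 2 - ζ * B ^ 2) / (ζ - 1) ^ 2)) :
    IsIntegral ℤ (A / (ζ - 1)) ∧ IsIntegral ℤ (B / (ζ - 1)) := by
  have hne := h.ne
  have hπ : IsIntegral ℤ (ζ - 1) := h.int.sub isIntegral_one
  have h2 : IsIntegral ℤ (2 / (ζ - 1)) := by
    have := h.two 1 h.hk
    rwa [pow_one] at this
  have h3 : IsIntegral ℤ ((A - B) ^ 2 / (ζ - 1)) := by
    have e : (A - B) ^ 2 / (ζ - 1) = (ζ - 1) * ((A ^ 2 - ζ * B ^ 2) / (ζ - 1) ^ 2) -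
        2 / (ζ - 1) * (B * (A - B)) + B ^ 2 := by
      field_simp
      ring
    rw [e]
    exact ((hπ.mul hAB).sub (h2.mul (hB.mul (hA.sub hB)))).add (hB.pow 2)
  have h4 := h.red _ (hA.sub hB) h3
  have h5 : IsIntegral ℤ (B ^ 2 / (ζ - 1)) := by
    have e : B ^ 2 / (ζ - 1) = ((A - B) / (ζ - 1)) ^ 2 + 2 / (ζ - 1) * (B * ((A - B) / (ζ - 1))) -
        (A ^ 2 - ζ * B ^ 2) / (ζ - 1) ^ 2 := by
      field_simp
      ring
    rw [e]
    exact ((h4.pow 2).add (h2.mul (hB.mul h4))).sub hAB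
  have h6 := h.red _ hB h5
  refine ⟨?_, h6⟩
  have e : A / (ζ - 1) = (A - B) / (ζ - 1) + B / (ζ - 1) := by ring
  rw [e]
  exact h4.add h6

lemma half (h : Lv F ζ k) {A B : F} (hA : IsIntegral ℤ A) (hB : IsIntegral ℤ B)
    (hAB : IsIntegral ℤ ((A ^ 2 - ζ * B ^ 2) / 4)) :
    IsIntegral ℤ (A / 2) ∧ IsIntegral ℤ (B / 2) := by
  have hne := h.ne
  have H : ∀ i ≤ k, IsIntegral ℤ (A / (ζ - 1) ^ i) ∧ IsIntegral ℤ (B / (ζ - 1) ^ i) := by
    intro i
    induction i with
    | zero =>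
      intro _
      simp only [pow_zero, div_one]
      exact ⟨hA, hB⟩
    | succ i ih =>
      intro hi
      obtain ⟨h1, h2⟩ := ih (by omega)
      have h3 := h.step h1 h2 (by
        have e : ((A / (ζ - 1) ^ i) ^ 2 - ζ * (B / (ζ - 1) ^ i) ^ 2) / (ζ - 1) ^ 2 =
            (A ^ 2 - ζ * B ^ 2) / 4 * (2 / (ζ - 1) ^ (i + 1)) ^ 2 := by
          field_simp
          ring
        rw [e]
        exact hAB.mul ((h.two (i + 1) hi).pow 2))
      rw [div_div, div_div, ← pow_succ] at h3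
      exact h3
  obtain ⟨h1, h2⟩ := H k le_rfl
  have e : ∀ x : F, x / 2 = x / (ζ - 1) ^ k * ((ζ - 1) ^ k / 2) := by
    intro x
    field_simp
  rw [e A, e B]
  exact ⟨h1.mul h.u2, h2.mul h.u2⟩

/-- the generator of the next level is new -/
lemma not_sq (h : Lv F ζ k) (a : F) : a ^ 2 ≠ ζ := by
  intro ha
  have h1 : IsIntegral ℤ a := by
    apply IsIntegral.of_pow (n := 2) (by norm_num)
    rw [ha]; exact h.int
  have h2 := h.half h1 isIntegral_one (by
    have e : (a ^ 2 - ζ * 1 ^ 2) / 4 = 0 := by rw [ha]; ring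
    rw [e]; exact isIntegral_zero)
  exact odd_half (F := F) (n := 1) (by decide) (by simpa using h2.2)

end Lv

section tower
variable {F F' : Type} [Field F] [NumberField F] [Field F'] [NumberField F'] [Algebra F F']
  {ζ : F} {k : ℕ} {η : F'}

lemma rep_two (hη : η ^ 2 = algebraMap F F' ζ) (hgen : F⟮η⟯ = ⊤) (x : F') :
    ∃ a b : F, x = algebraMap F F' a + algebraMap F F' b * η := by
  haveI : FiniteDimensional F F' := FiniteDimensional.right ℚ F F'
  have hint : IsIntegral F η := Algebra.IsIntegral.isIntegral η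
  have hx : x ∈ F⟮η⟯ := by rw [hgen]; trivial
  obtain ⟨p, hp⟩ := (adjoin.powerBasis hint).exists_eq_aeval' (⟨x, hx⟩ : F⟮η⟯)
  have hp' : x = aeval η p := by
    have h1 := congrArg (algebraMap F⟮η⟯ F') hp
    rw [← aeval_algebraMap_apply] at h1
    rw [adjoin.powerBasis_gen, AdjoinSimple.algebraMap_gen] at h1
    exact h1
  set q : F[X] := X ^ 2 - C ζ with hq
  have hqm : q.Monic := monic_X_pow_sub_C ζ (by norm_num)
  have hqd : q.natDegree = 2 := natDegree_X_pow_sub_C
  have h2 : aeval η p = aeval η (p %ₘ q) := by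
    conv_lhs => rw [← modByMonic_add_div p q]
    rw [map_add, map_mul]
    have h3 : aeval η q = 0 := by
      rw [hq]; simp [hη]
    rw [h3, zero_mul, add_zero]
  have h4 : (p %ₘ q).natDegree ≤ 1 := by
    have h5 := natDegree_modByMonic_lt p hqm (by intro h; rw [h] at hqd; simp at hqd)
    omega
  obtain ⟨b, a, hab⟩ := exists_eq_X_add_C_of_natDegree_le_one h4
  refine ⟨a, b, ?_⟩
  rw [hp', h2, hab]
  simp
  ring

lemma exists_conj (h : Lv F ζ k) (hη : η ^ 2 = algebraMap F F' ζ) (hgen : F⟮η⟯ = ⊤) :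
    ∃ τ₀ : F' →ₐ[F] F', τ₀ η = -η := by
  haveI : FiniteDimensional F F' := FiniteDimensional.right ℚ F F'
  have hint : IsIntegral F η := Algebra.IsIntegral.isIntegral η
  have hmin : minpoly F η = X ^ 2 - C ζ := by
    symm
    apply minpoly.eq_of_irreducible_of_monic
    · apply _root_.X_pow_sub_C_irreducible_of_prime Nat.prime_two
      intro b hb
      exact h.not_sq b hb
    · simp [hη]
    · exact monic_X_pow_sub_C ζ (by norm_num)
  have hroot : (-η) ∈ (minpoly F η).aroots F' := by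
    rw [mem_aroots, hmin]
    refine ⟨X_pow_sub_C_ne_zero (by norm_num) _, ?_⟩
    simp [hη]
  set φ : F⟮η⟯ →ₐ[F] F' := (algHomAdjoinIntegralEquiv F hint).symm ⟨-η, hroot⟩ with hφ
  have hφg : φ (AdjoinSimple.gen F η) = -η := by
    rw [hφ, algHomAdjoinIntegralEquiv_symm_apply_gen]
  set ψ : F' →ₐ[F] F⟮η⟯ := ((equivOfEq hgen.symm).toAlgHom.comp
    (topEquiv (F := F) (E := F')).symm.toAlgHom) with hψ
  refine ⟨φ.comp ψ, ?_⟩
  have h1 : ψ η = AdjoinSimple.gen F η := rfl
  rw [AlgHom.comp_apply, h1, hφg]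

lemma eta_pow (h : Lv F ζ k) (hη : η ^ 2 = algebraMap F F' ζ) : η ^ (2 * k) = -1 := by
  rw [pow_mul, hη, ← map_pow, h.hζ, map_neg, map_one]

lemma eta_int (h : Lv F ζ k) (hη : η ^ 2 = algebraMap F F' ζ) : IsIntegral ℤ η := by
  apply IsIntegral.of_pow (n := 2 * k) (Nat.mul_pos (by norm_num) h.hk)
  rw [eta_pow h hη]
  exact isIntegral_one.neg

lemma int_map {x : F} : IsIntegral ℤ (algebraMap F F' x) ↔ IsIntegral ℤ x :=
  isIntegral_algebraMap_iff (algebraMap F F').injective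

lemma ints (h : Lv F ζ k) (hη : η ^ 2 = algebraMap F F' ζ) (τ₀ : F' →ₐ[F] F') (hτ : τ₀ η = -η)
    {a b : F} (hx : IsIntegral ℤ (algebraMap F F' a + algebraMap F F' b * η)) :
    IsIntegral ℤ a ∧ IsIntegral ℤ b := by
  set x : F' := algebraMap F F' a + algebraMap F F' b * η with hxdef
  have hτx : τ₀ x = algebraMap F F' a - algebraMap F F' b * η := by
    rw [hxdef, map_add, map_mul, AlgHom.commutes, AlgHom.commutes, hτ]
    ring
  have hx' : IsIntegral ℤ (τ₀ x) := map_isIntegral_int (τ₀ : F' →+* F') hx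
  have hηp := eta_pow h hη
  have hηi := eta_int h hη
  have h1 : η * (-(η ^ (2 * k - 1))) = 1 := by
    have h2 : η ^ (2 * k) = η * η ^ (2 * k - 1) := by
      rw [← pow_succ']
      congr 1
      have := h.hk
      omega
    rw [mul_neg, ← h2, hηp, neg_neg]
  have hA : IsIntegral ℤ (2 * a) := by
    rw [← int_map (F' := F')]
    have e : algebraMap F F' (2 * a) = x + τ₀ x := by
      rw [hτx, hxdef, map_mul, map_ofNat]; ring
    rw [e]
    exact hx.add hx'
  have hB : IsIntegral ℤ (2 * b) := by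
    rw [← int_map (F' := F')]
    have e : algebraMap F F' (2 * b) = (x - τ₀ x) * (-(η ^ (2 * k - 1))) := by
      rw [hτx, hxdef, map_mul, map_ofNat]
      linear_combination (-2 * algebraMap F F' b) * h1
    rw [e]
    exact (hx.sub hx').mul (hηi.pow _).neg
  have h3 := h.half hA hB (by
    rw [← int_map (F' := F')]
    have e : algebraMap F F' (((2 * a) ^ 2 - ζ * (2 * b) ^ 2) / 4) = x * τ₀ x := by
      rw [hτx, hxdef]
      rw [map_div₀, map_sub, map_pow, map_mul, map_mul, map_pow, map_mul, map_ofNat, map_ofNat,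
        ← hη]
      ring
    rw [e]
    exact hx.mul hx')
  rw [mul_div_cancel_left₀ _ (two_ne_zero), mul_div_cancel_left₀ _ (two_ne_zero)] at h3
  exact h3

/-- the next level -/
lemma Lv.up (h : Lv F ζ k) (hη : η ^ 2 = algebraMap F F' ζ) (hgen : F⟮η⟯ = ⊤) :
    Lv F' η (2 * k) := by
  obtain ⟨τ₀, hτ⟩ := exists_conj h hη hgen
  have hηp := eta_pow h hη
  have hηi := eta_int h hη
  have hπ : (η - 1) * (η + 1) = algebraMap F F' (ζ - 1) := by
    rw [map_sub, map_one, ← hη]; ring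
  have hπ0 : algebraMap F F' (ζ - 1) ≠ 0 := by
    rw [Ne, map_eq_zero]; exact h.ne
  have h1 : η - 1 ≠ 0 := by
    intro h0
    rw [h0, zero_mul] at hπ
    exact hπ0 hπ.symm
  have h2 : η + 1 ≠ 0 := by
    intro h0
    rw [h0, mul_zero] at hπ
    exact hπ0 hπ.symm
  have hv' : IsIntegral ℤ ((η + 1) / (η - 1)) := by
    have h3 := geom_sum_mul η (2 * k + 1)
    rw [pow_succ, hηp] at h3
    have e : (η + 1) / (η - 1) = -∑ i ∈ range (2 * k + 1), η ^ i := by
      rw [div_eq_iff h1]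
      linear_combination h3
    rw [e]
    exact (IsIntegral.sum _ fun i _ => hηi.pow i).neg
  have hv : IsIntegral ℤ ((η - 1) / (η + 1)) := by
    have h3 := geom_sum_mul (-η) (2 * k + 1)
    have h4 : (-η) ^ (2 * k + 1) = η := by
      rw [pow_succ, Even.neg_pow ⟨k, by ring⟩, hηp]; ring
    rw [h4] at h3
    have e : (η - 1) / (η + 1) = -∑ i ∈ range (2 * k + 1), (-η) ^ i := by
      rw [div_eq_iff h2]
      linear_combination -h3
    rw [e]
    exact (IsIntegral.sum _ fun i _ => hηi.neg.pow i).neg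
  refine ⟨Nat.mul_pos (by norm_num) h.hk, hηp, ?_, ?_, ?_⟩
  · have e : 2 / (η - 1) ^ (2 * k) = algebraMap F F' (2 / (ζ - 1) ^ k) *
        ((η + 1) / (η - 1)) ^ k := by
      rw [map_div₀, map_pow, map_ofNat, ← hπ, mul_pow, div_pow, two_mul, pow_add]
      field_simp
    rw [e]
    exact (int_map.mpr h.u1).mul (hv'.pow k)
  · have e : (η - 1) ^ (2 * k) / 2 = algebraMap F F' ((ζ - 1) ^ k / 2) *
        ((η - 1) / (η + 1)) ^ k := by
      rw [map_div₀, map_pow, map_ofNat, ← hπ, mul_pow, div_pow, two_mul, pow_add]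
      field_simp
    rw [e]
    exact (int_map.mpr h.u2).mul (hv.pow k)
  · intro x hx hx2
    obtain ⟨a, b, rfl⟩ := rep_two hη hgen x
    obtain ⟨ha, hb⟩ := ints h hη τ₀ hτ hx
    set x : F' := algebraMap F F' a + algebraMap F F' b * η with hxdef
    have hb' : IsIntegral ℤ (algebraMap F F' b) := int_map.mpr hb
    have hy2 : IsIntegral ℤ ((algebraMap F F' (a + b)) ^ 2 / (η - 1)) := by
      have e : (algebraMap F F' (a + b)) ^ 2 / (η - 1) = x ^ 2 / (η - 1) -
          2 * x * algebraMap F F' b + (algebraMap F F' b) ^ 2 * (η - 1) := by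
        rw [hxdef, map_add]
        field_simp
        ring
      rw [e]
      have i2 : IsIntegral ℤ (2 : F') := by
        simpa using (isIntegral_algebraMap (R := ℤ) (A := F') (x := 2))
      exact (hx2.sub ((i2.mul hx).mul hb')).add ((hb'.pow 2).mul (hηi.sub isIntegral_one))
    have hy4 : IsIntegral ℤ (((a + b) ^ 2) ^ 2 / (ζ - 1)) := by
      rw [← int_map (F' := F')]
      have e : algebraMap F F' (((a + b) ^ 2) ^ 2 / (ζ - 1)) =
          ((algebraMap F F' (a + b)) ^ 2 / (η - 1)) ^ 2 * ((η - 1) / (η + 1)) := by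
        rw [map_div₀, ← hπ, map_pow, map_pow]
        field_simp
      rw [e]
      exact (hy2.pow 2).mul hv
    have hab := ha.add hb
    have hy := h.red _ hab (h.red _ (hab.pow 2) hy4)
    have e : x / (η - 1) = algebraMap F F' ((a + b) / (ζ - 1)) * (η + 1) + algebraMap F F' b := by
      rw [map_div₀, ← hπ, hxdef, map_add]
      field_simp
      ring
    rw [e]
    exact ((int_map.mpr hy).mul (hηi.add isIntegral_one)).add hb'

/-- the bound at the next level -/
theorem Bd.up {c : ℝ} (hc : c ≤ 1 / 256) (hB : Bd F c) (h : Lv F ζ k)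
    (hη : η ^ 2 = algebraMap F F' ζ) (hgen : F⟮η⟯ = ⊤) : Bd F' c := by
  obtain ⟨τ₀, hτ⟩ := exists_conj h hη hgen
  have hηp := eta_pow h hη
  have hηi := eta_int h hη
  have hη0 : η ≠ 0 := by
    intro h0
    rw [h0, zero_pow (Nat.mul_pos (by norm_num) h.hk).ne'] at hηp
    have : (1:F') = 0 := by linear_combination hηp
    exact one_ne_zero this
  have hτ' : ∀ a b : F, τ₀ (algebraMap F F' a + algebraMap F F' b * η) =
      algebraMap F F' a - algebraMap F F' b * η := by
    intro a b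
    rw [map_add, map_mul, AlgHom.commutes, AlgHom.commutes, hτ]
    ring
  refine descend hc hB τ₀ ?_ ?_ ?_ η hτ (N := 2 * (2 * k))
    (Nat.mul_pos (by norm_num) (Nat.mul_pos (by norm_num) h.hk)) ?_
  · intro x
    obtain ⟨a, b, rfl⟩ := rep_two hη hgen x
    rw [hτ', map_sub, map_mul, AlgHom.commutes, AlgHom.commutes, hτ]
    ring
  · intro x hx
    obtain ⟨a, b, rfl⟩ := rep_two hη hgen x
    rw [hτ'] at hx
    have h1 : algebraMap F F' b * η = 0 := by
      have h2 : (2 : F') * (algebraMap F F' b * η) = 0 := by linear_combination -hx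
      exact (mul_eq_zero.mp h2).resolve_left two_ne_zero
    exact ⟨a, by rw [h1, add_zero]⟩
  · intro x
    obtain ⟨a, b, hab⟩ := rep_two hη hgen (x : F')
    have hxi : IsIntegral ℤ (x : F') := x.2
    rw [hab] at hxi
    obtain ⟨ha, hb⟩ := ints h hη τ₀ hτ hxi
    have hy : IsIntegral ℤ (-(algebraMap F F' b * η)) := ((int_map.mpr hb).mul hηi).neg
    refine ⟨⟨-(algebraMap F F' b * η), hy⟩, ?_⟩
    change τ₀ (x : F') = (x : F') + 2 * -(algebraMap F F' b * η)
    rw [hab, hτ']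
    ring
  · rw [mul_comm 2 (2 * k), pow_mul, hηp]
    norm_num

end tower

end Pool.Agent.X184.SZ
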