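import Mathlib
import Pool.Agent.X184.SZ.O

/-!
# Extension of a lift of a power of Frobenius at two to cyclotomic extensions of odd conductor
-/

set_option autoImplicit false

open Finset Polynomial Module NumberField IntermediateField

namespace Pool.Agent.X184.SZ

section oddpart
variable {K L : Type} [Field K] [NumberField K] [Field L] [NumberField L] [Algebra K L]

/-- the evaluation of polynomials with integral coefficients is integral -/
lemma eval_int {ω : L} (hω : IsIntegral ℤ ω) (P : (𝓞 K)[X]) : IsIntegral ℤ (aeval ω P) := by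
  rw [aeval_eq_sum_range]
  apply IsIntegral.sum
  intro i _
  rw [Algebra.smul_def]
  have h1 : IsIntegral ℤ (algebraMap K L (P.coeff i : K)) := int_map.mpr (P.coeff i).2
  exact h1.mul (hω.pow i)

/-- a multiple by an odd number lies in the ring generated by a root of unity -/
lemma exists_mul_mem {ω : L} {m : ℕ} (hm : Odd m) (hω : ω ^ m = 1) (hgen : K⟮ω⟯ = ⊤) (x : L)
    (hx : IsIntegral ℤ x) : ∃ (N : ℕ) (P : (𝓞 K)[X]), Odd N ∧ (N : L) * x = aeval ω P := by
  haveI : FiniteDimensional K L := FiniteDimensional.right ℚ K L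
  have hm0 : 0 < m := hm.pos
  have hint : IsIntegral K ω := Algebra.IsIntegral.isIntegral ω
  have hωi : IsIntegral ℤ ω := ⟨X ^ m - 1, monic_X_pow_sub_C 1 hm0.ne', by simp [hω]⟩
  have hadj : Algebra.adjoin K {ω} = ⊤ := by
    rw [← IntermediateField.adjoin_simple_toSubalgebra_of_isAlgebraic hint.isAlgebraic, hgen]
    rfl
  set B : PowerBasis K L := PowerBasis.ofAdjoinEqTop hint hadj with hB
  have hBg : B.gen = ω := PowerBasis.ofAdjoinEqTop_gen hint hadj
  have h1 : Algebra.discr K B.basis • x ∈ Algebra.adjoin (𝓞 K) ({B.gen} : Set L) :=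
    Algebra.discr_mul_isIntegral_mem_adjoin (K := K) (R := 𝓞 K) (by rw [hBg]; exact hωi.tower_top)
      hx.tower_top
  rw [hBg] at h1
  have h2 := Algebra.discr_powerBasis_eq_norm K B
  rw [hBg] at h2
  set μ := minpoly K ω with hμ
  obtain ⟨ν, hν⟩ : μ ∣ X ^ m - 1 := minpoly.dvd K ω (by simp [hω])
  set δ := aeval ω (derivative μ) with hδ
  have h3 : δ * aeval ω ν * ω = m := by
    have h4 := congrArg (fun Q : K[X] => aeval ω (derivative Q)) hν
    simp only [derivative_mul, map_add, map_mul, derivative_sub, derivative_X_pow,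
      derivative_one, sub_zero, map_pow, aeval_X, aeval_C] at h4
    rw [hμ, minpoly.aeval, zero_mul, add_zero, ← hμ, ← hδ] at h4
    rw [← h4]
    have h5 : ω ^ (m - 1) * ω = 1 := by
      rw [← pow_succ, Nat.sub_add_cancel hm0, hω]
    rw [mul_assoc, h5, mul_one, map_natCast]
  have hνi : IsIntegral ℤ (aeval ω ν) := by
    -- the cofactor has integral coefficients
    have h6 := minpoly.isIntegrallyClosed_eq_field_fractions' (R := 𝓞 K) K
      (show IsIntegral (𝓞 K) ω from hωi.tower_top)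
    obtain ⟨ν0, hν0⟩ : minpoly (𝓞 K) ω ∣ X ^ m - 1 :=
      minpoly.isIntegrallyClosed_dvd (show IsIntegral (𝓞 K) ω from hωi.tower_top) (by simp [hω])
    have h7 : ν = ν0.map (algebraMap (𝓞 K) K) := by
      have h8 := congrArg (fun Q : (𝓞 K)[X] => Q.map (algebraMap (𝓞 K) K)) hν0
      simp only [Polynomial.map_mul, Polynomial.map_sub, Polynomial.map_pow, Polynomial.map_X,
        Polynomial.map_one] at h8
      rw [← h6, ← hμ, hν] at h8
      exact mul_left_cancel₀ (minpoly.ne_zero hint) h8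
    rw [h7, aeval_map_algebraMap]
    exact eval_int hωi ν0
  -- the norm
  set d := finrank K L with hd
  have h9 : Algebra.norm K δ * Algebra.norm K (aeval ω ν * ω) = (m : K) ^ d := by
    rw [← map_mul, ← mul_assoc, h3]
    have : (m : L) = algebraMap K L (m : K) := (map_natCast _ _).symm
    rw [this, Algebra.norm_algebraMap]
  set s : K := (-1) ^ (d * (d - 1) / 2) with hs
  have hs2 : s * s = 1 := by
    rw [hs, ← mul_pow]
    norm_num
  have hti : IsIntegral ℤ (s * Algebra.norm K (aeval ω ν * ω)) := by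
    apply IsIntegral.mul
    · rw [hs]; exact isIntegral_one.neg.pow _
    · exact Algebra.isIntegral_norm K (hνi.mul hωi)
  set t : 𝓞 K := ⟨s * Algebra.norm K (aeval ω ν * ω), hti⟩ with ht
  have h10 : (m : K) ^ d = (t : K) * Algebra.discr K B.basis := by
    change (m : K) ^ d = (s * Algebra.norm K (aeval ω ν * ω)) * Algebra.discr K B.basis
    rw [h2, ← h9]
    linear_combination (-(Algebra.norm K δ * Algebra.norm K (aeval ω ν * ω))) * hs2
  have h11 : ((m ^ d : ℕ) : L) * x ∈ Algebra.adjoin (𝓞 K) ({ω} : Set L) := by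
    have e : ((m ^ d : ℕ) : L) * x = t • (Algebra.discr K B.basis • x) := by
      rw [Algebra.smul_def, Algebra.smul_def, ← mul_assoc]
      have e1 : algebraMap (𝓞 K) L t = algebraMap K L (t : K) := rfl
      rw [e1, ← map_mul, ← h10]
      rw [map_pow, map_natCast, Nat.cast_pow]
    rw [e]
    exact Subalgebra.smul_mem _ h1 t
  rw [Algebra.adjoin_singleton_eq_range_aeval] at h11
  obtain ⟨P, hP⟩ := h11
  exact ⟨m ^ d, P, hm.pow, hP.symm⟩

/-- extension of the lift of Frobenius to the extension generated by a root of unity of odd order -/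
theorem oddpart {r : ℕ} (σ : K →ₐ[ℚ] K)
    (hσ : ∀ x : 𝓞 K, ∃ y : 𝓞 K, σ x = (x : K) ^ (2 ^ r) + 2 * y) {ω : L} {m : ℕ} (hm : Odd m)
    (hω : ω ^ m = 1) (hgen : K⟮ω⟯ = ⊤) :
    ∃ σ' : L →ₐ[ℚ] L, ∀ x : 𝓞 L, ∃ y : 𝓞 L, σ' x = (x : L) ^ (2 ^ r) + 2 * y := by
  haveI : FiniteDimensional K L := FiniteDimensional.right ℚ K L
  have hm0 : 0 < m := hm.pos
  have hint : IsIntegral K ω := Algebra.IsIntegral.isIntegral ω
  have hωi : IsIntegral ℤ ω := ⟨X ^ m - 1, monic_X_pow_sub_C 1 hm0.ne', by simp [hω]⟩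
  have hωR : IsIntegral (𝓞 K) ω := hωi.tower_top
  set q : ℕ := 2 ^ r with hq
  have hq0 : 0 < q := by positivity
  set sR : 𝓞 K →+* 𝓞 K := RingOfIntegers.mapRingHom σ.toRingHom with hsR
  have hσ' : ∀ x : 𝓞 K, ∃ y : 𝓞 K, sR x = x ^ q + 2 * y := by
    intro x
    obtain ⟨y, hy⟩ := hσ x
    refine ⟨y, ?_⟩
    apply RingOfIntegers.ext
    change σ (x : K) = algebraMap (𝓞 K) K (x ^ q + 2 * y)
    rw [hy, map_add, map_mul, map_pow, map_ofNat]
  -- the two evaluations
  set φ : 𝓞 K →+* L := algebraMap (𝓞 K) L with hφ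
  have hfr : ∀ P : (𝓞 K)[X], ∃ y : L, IsIntegral ℤ y ∧
      eval₂ (φ.comp sR) (ω ^ q) P = (aeval ω P) ^ q + 2 * y := by
    intro P
    obtain ⟨W, hW⟩ := frobk sR r hσ' P
    refine ⟨-aeval ω W, (eval_int hωi W).neg, ?_⟩
    have h1 := congrArg (aeval ω) hW
    rw [map_pow, map_add, map_mul, map_ofNat, aeval_comp, map_pow, aeval_X] at h1
    have h2 : aeval (ω ^ 2 ^ r) (P.map sR) = eval₂ (φ.comp sR) (ω ^ q) P := by
      rw [aeval_def, eval₂_map]
    rw [h2] at h1
    rw [h1]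
    ring
  -- the minimal polynomial
  set μ0 := minpoly (𝓞 K) ω with hμ0
  have hμ0e : aeval ω μ0 = 0 := minpoly.aeval _ _
  obtain ⟨ν0, hν0⟩ : μ0 ∣ X ^ m - 1 := minpoly.isIntegrallyClosed_dvd hωR (by simp [hω])
  have hωq : (ω ^ q) ^ m = 1 := by rw [← pow_mul, mul_comm, pow_mul, hω, one_pow]
  have hroot : eval₂ (φ.comp sR) (ω ^ q) μ0 = 0 := by
    by_contra hne
    obtain ⟨y, hy, hy2⟩ := hfr μ0
    rw [hμ0e, zero_pow hq0.ne', zero_add] at hy2
    have h1 := congrArg (eval₂ (φ.comp sR) (ω ^ q)) hν0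
    rw [eval₂_sub, eval₂_mul, eval₂_pow, eval₂_X, eval₂_one, hωq, sub_self] at h1
    have h2 : eval₂ (φ.comp sR) (ω ^ q) ν0 = 0 := (mul_eq_zero.mp h1.symm).resolve_left hne
    have h3 := congrArg (fun Q : (𝓞 K)[X] => eval₂ (φ.comp sR) (ω ^ q) (derivative Q)) hν0
    simp only [derivative_mul, derivative_sub, derivative_X_pow, derivative_one, sub_zero,
      eval₂_add, eval₂_mul, eval₂_pow, eval₂_X, eval₂_natCast, map_natCast, h2, mul_zero, zero_add,
      hy2] at h3
    have h4 : IsIntegral ℤ (eval₂ (φ.comp sR) (ω ^ q) (derivative ν0)) := by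
      rw [← eval₂_map]
      exact eval_int (hωi.pow q) _
    have h5 : (m : L) / 2 = y * eval₂ (φ.comp sR) (ω ^ q) (derivative ν0) * ω ^ q := by
      have h6 : (ω ^ q) ^ (m - 1) * ω ^ q = 1 := by
        rw [← pow_succ, Nat.sub_add_cancel hm0, hωq]
      have h7 : (m : L) = (m : L) * (ω ^ q) ^ (m - 1) * ω ^ q := by
        rw [mul_assoc, h6, mul_one]
      rw [h7, h3]
      ring
    exact odd_half (F := L) hm (by rw [h5]; exact (hy.mul h4).mul (hωi.pow q))
  -- the lift
  set μ := minpoly K ω with hμ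
  have hμμ : μ = μ0.map (algebraMap (𝓞 K) K) :=
    minpoly.isIntegrallyClosed_eq_field_fractions' (R := 𝓞 K) K hωR
  have hφσ : ((algebraMap K L).comp (σ : K →+* K)).comp (algebraMap (𝓞 K) K) = φ.comp sR :=
    RingHom.ext fun x => rfl
  have hlift : eval₂ ((algebraMap K L).comp (σ : K →+* K)) (ω ^ q) μ = 0 := by
    rw [hμμ, eval₂_map, hφσ]
    exact hroot
  set f : AdjoinRoot μ →+* L :=
    AdjoinRoot.lift ((algebraMap K L).comp (σ : K →+* K)) (ω ^ q) hlift with hf
  set e : AdjoinRoot μ ≃ₐ[K] K⟮ω⟯ := adjoinRootEquivAdjoin K hint with he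
  set ψ : L →ₐ[K] K⟮ω⟯ := ((equivOfEq hgen.symm).toAlgHom.comp
    (topEquiv (F := K) (E := L)).symm.toAlgHom) with hψ
  set s' : L →+* L := f.comp ((e.symm : K⟮ω⟯ →+* AdjoinRoot μ).comp (ψ : L →+* K⟮ω⟯)) with hs'
  have hs1 : ∀ a : K, s' (algebraMap K L a) = algebraMap K L (σ a) := by
    intro a
    have e1 : ψ (algebraMap K L a) = algebraMap K K⟮ω⟯ a := ψ.commutes a
    have e2 : e.symm (algebraMap K K⟮ω⟯ a) = algebraMap K (AdjoinRoot μ) a := e.symm.commutes a
    change f (e.symm (ψ (algebraMap K L a))) = _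
    rw [e1, e2, AdjoinRoot.algebraMap_eq, hf, AdjoinRoot.lift_of]
    rfl
  have hs2 : s' ω = ω ^ q := by
    have e1 : ψ ω = AdjoinSimple.gen K ω := rfl
    have e2 : e.symm (AdjoinSimple.gen K ω) = AdjoinRoot.root μ := by
      rw [AlgEquiv.symm_apply_eq]
      exact (adjoinRootEquivAdjoin_apply_root K hint).symm
    change f (e.symm (ψ ω)) = _
    rw [e1, e2, hf, AdjoinRoot.lift_root]
  have hs3 : ∀ P : (𝓞 K)[X], s' (aeval ω P) = eval₂ (φ.comp sR) (ω ^ q) P := by
    intro P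
    rw [aeval_def, hom_eval₂, hs2]
    congr 1
    ext x
    exact hs1 (x : K)
  refine ⟨s'.toRatAlgHom, ?_⟩
  intro x
  obtain ⟨N, P, hN, hP⟩ := exists_mul_mem hm hω hgen (x : L) x.2
  obtain ⟨y, hy, hy2⟩ := hfr P
  rw [← hs3, ← hP, map_mul, map_natCast, mul_pow] at hy2
  obtain ⟨l, hl⟩ := hN
  obtain ⟨l', hl'⟩ : Odd (N ^ q) := Odd.pow ⟨l, hl⟩
  have hN1 : (N : L) = 2 * l + 1 := by rw [hl]; push_cast; ring
  have hN2 : (N : L) ^ q = 2 * l' + 1 := by
    rw [← Nat.cast_pow, hl']; push_cast; ring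
  rw [hN1] at hy2
  have hsx : IsIntegral ℤ (s' (x : L)) := map_isIntegral_int s' x.2
  have hY : IsIntegral ℤ ((l' : L) * (x : L) ^ q + y - l * s' (x : L)) := by
    have i1 : ∀ n : ℕ, IsIntegral ℤ (n : L) := fun n => by
      simpa using (isIntegral_algebraMap (R := ℤ) (A := L) (x := (n : ℤ)))
    exact (((i1 l').mul (IsIntegral.pow x.2 q)).add hy).sub ((i1 l).mul hsx)
  refine ⟨⟨_, hY⟩, ?_⟩
  change s' (x : L) = (x : L) ^ q + 2 * ((l' : L) * (x : L) ^ q + y - l * s' (x : L))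
  rw [← hN1, hN2] at hy2
  rw [hN1] at hy2
  linear_combination hy2

end oddpart

end Pool.Agent.X184.SZ
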