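import Mathlib
import Pool.Agent.X184.SZ.P
import Pool.Agent.X184.SZ.L

/-!
# The bound over cyclotomic extensions of a field with a lift of a power of Frobenius at two
-/

set_option autoImplicit false

open Finset Polynomial Module NumberField IntermediateField

namespace Pool.Agent.X184.SZ

lemma isIntegral_nat' {F : Type} [Field F] (n : ℕ) : IsIntegral ℤ (n : F) := by
  simpa using (isIntegral_algebraMap (R := ℤ) (A := F) (x := (n : ℤ)))

/-- the base of the tower -/
theorem base {F : Type} [Field F] [NumberField F] (σ : F →ₐ[ℚ] F) {r : ℕ} (hr : 0 < r)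
    (hσ : ∀ x : 𝓞 F, ∃ y : 𝓞 F, σ x = (x : F) ^ (2 ^ r) + 2 * y) :
    Bd F (1 / (128 * (1 + 4 ^ r))) ∧ Lv F (-1) 1 := by
  constructor
  · intro E _ _ _ α hα h0 hroot hgen
    exact genF σ hr hσ _ E α rfl hα h0 hroot hgen
  · have e : (-1 - 1 : F) = -2 := by norm_num
    refine ⟨one_pos, pow_one _, ?_, ?_, ?_⟩
    · rw [pow_one, e]
      have : (2 / -2 : F) = -1 := by norm_num
      rw [this]
      exact isIntegral_one.neg
    · rw [pow_one, e]
      have : (-2 / 2 : F) = -1 := by norm_num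
      rw [this]
      exact isIntegral_one.neg
    · intro x hx hx2
      rw [e] at hx2 ⊢
      obtain ⟨y, hy⟩ := hσ ⟨x, hx⟩
      have hy' : σ x = x ^ (2 ^ r) + 2 * (y : F) := hy
      obtain ⟨s, hs⟩ : ∃ s, 2 ^ r = 2 + s := by
        obtain ⟨k, rfl⟩ : ∃ k, r = k + 1 := ⟨r - 1, by omega⟩
        refine ⟨2 ^ (k + 1) - 2, ?_⟩
        have : 2 ^ 1 ≤ 2 ^ (k + 1) := Nat.pow_le_pow_right (by norm_num) (by omega)
        omega
      have h1 : IsIntegral ℤ (σ (x / -2)) := by
        have e1 : σ (x / -2) = x ^ 2 / -2 * x ^ s - y := by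
          rw [map_div₀, map_neg, map_ofNat, hy', hs, pow_add]
          ring
        rw [e1]
        exact (hx2.mul (hx.pow s)).sub y.2
      exact (isIntegral_algHom_iff (σ.restrictScalars ℤ) σ.toRingHom.injective).mp h1

/-- the tower -/
theorem tower {F₀ : Type} [Field F₀] [NumberField F₀] (σ : F₀ →ₐ[ℚ] F₀) {r : ℕ} (hr : 0 < r)
    (hσ : ∀ x : 𝓞 F₀, ∃ y : 𝓞 F₀, σ x = (x : F₀) ^ (2 ^ r) + 2 * y) :
    ∀ (j : ℕ) (F' : Type) [Field F'] [NumberField F'] [Algebra F₀ F'] (ζ' : F'),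
      ζ' ^ (2 ^ j) = -1 → F₀⟮ζ'⟯ = ⊤ → Bd F' (1 / (128 * (1 + 4 ^ r))) ∧ Lv F' ζ' (2 ^ j) := by
  intro j
  induction j with
  | zero =>
    intro F' _ _ _ ζ' hζ' hgen
    rw [pow_zero, pow_one] at hζ'
    subst hζ'
    have hgen' : F₀⟮(1 : F')⟯ = ⊤ := by
      rw [← hgen]
      apply le_antisymm
      · rw [adjoin_simple_le_iff]; exact one_mem _
      · rw [adjoin_simple_le_iff]; exact neg_mem (one_mem _)
    obtain ⟨σ', hσ'⟩ := oddpart σ hσ (ω := (1 : F')) (m := 1) (by decide) (one_pow 1) hgen'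
    exact base σ' hr hσ'
  | succ j ih =>
    intro F' _ _ _ η hη hgen
    haveI : FiniteDimensional F₀ F' := FiniteDimensional.right ℚ F₀ F'
    set F := F₀⟮η ^ 2⟯ with hF
    haveI : FiniteDimensional F₀ F := inferInstance
    haveI : FiniteDimensional ℚ F := Module.Finite.trans F₀ F
    haveI : NumberField F := { to_charZero := inferInstance, to_finiteDimensional := inferInstance }
    set ζ : F := AdjoinSimple.gen F₀ (η ^ 2) with hζ
    have hζη : algebraMap F F' ζ = η ^ 2 := AdjoinSimple.algebraMap_gen F₀ (η ^ 2)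
    have h1 : ζ ^ (2 ^ j) = -1 := by
      apply (algebraMap F F').injective
      rw [map_pow, hζη, ← pow_mul, map_neg, map_one, ← hη]
      congr 1
      rw [pow_succ, mul_comm]
    obtain ⟨hB, hL⟩ := ih F ζ h1 (gen_top F₀ F' (η ^ 2))
    have hgen' : F⟮η⟯ = ⊤ := by
      rw [eq_top_iff]
      intro y _
      have h2 : y ∈ F₀⟮η⟯ := by rw [hgen]; trivial
      have h3 : F₀⟮η⟯ ≤ (F⟮η⟯).restrictScalars F₀ := by
        rw [adjoin_simple_le_iff]
        exact mem_adjoin_simple_self F η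
      exact h3 h2
    have hc : (1:ℝ) / (128 * (1 + 4 ^ r)) ≤ 1 / 256 := by
      apply one_div_le_one_div_of_le (by norm_num)
      have : (1:ℝ) ≤ 4 ^ r := one_le_pow₀ (by norm_num)
      linarith
    refine ⟨hB.up hc hL hζη.symm hgen', ?_⟩
    have h4 := hL.up hζη.symm hgen'
    rwa [pow_succ, mul_comm]

/-- cyclotomic extensions -/
theorem cyclo {K F : Type} [Field K] [NumberField K] [Field F] [NumberField F] [Algebra K F]
    (σ : K →ₐ[ℚ] K) {r : ℕ} (hr : 0 < r)
    (hσ : ∀ x : 𝓞 K, ∃ y : 𝓞 K, σ x = (x : K) ^ (2 ^ r) + 2 * y) {ζ : F} {n : ℕ} (hn : 0 < n)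
    (hζ : IsPrimitiveRoot ζ n) (hgen : K⟮ζ⟯ = ⊤) : Bd F (1 / (128 * (1 + 4 ^ r))) := by
  haveI : FiniteDimensional K F := FiniteDimensional.right ℚ K F
  obtain ⟨j, m, hm, hnm⟩ := Nat.exists_eq_two_pow_mul_odd hn.ne'
  set ω : F := ζ ^ (2 ^ j) with hω
  have hωm : ω ^ m = 1 := by
    rw [hω, ← pow_mul, ← hnm, hζ.pow_eq_one]
  set F₁ := K⟮ω⟯ with hF₁
  haveI : FiniteDimensional K F₁ := inferInstance
  haveI : FiniteDimensional ℚ F₁ := Module.Finite.trans K F₁
  haveI : NumberField F₁ := { to_charZero := inferInstance, to_finiteDimensional := inferInstance }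
  set ω₁ : F₁ := AdjoinSimple.gen K ω with hω₁
  have hω₁ω : algebraMap F₁ F ω₁ = ω := AdjoinSimple.algebraMap_gen K ω
  have hω₁m : ω₁ ^ m = 1 := by
    apply (algebraMap F₁ F).injective
    rw [map_pow, hω₁ω, hωm, map_one]
  obtain ⟨σ₁, hσ₁⟩ := oddpart σ hσ (ω := ω₁) (m := m) hm hω₁m (gen_top K F ω)
  -- the generator of order a power of two
  have hcop : Nat.Coprime (2 ^ j) m := Nat.Coprime.pow_left j (Nat.coprime_two_left.mpr hm)
  have hmem : ∀ η : F, ζ ∈ F₁⟮η⟯ → F₁⟮η⟯ = ⊤ := by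
    intro η h
    rw [eq_top_iff]
    intro y _
    have h2 : y ∈ K⟮ζ⟯ := by rw [hgen]; trivial
    have h3 : K⟮ζ⟯ ≤ (F₁⟮η⟯).restrictScalars K := by
      rw [adjoin_simple_le_iff]
      exact h
    exact h3 h2
  have hωmem : ∀ η : F, ω ∈ F₁⟮η⟯ := by
    intro η
    rw [← hω₁ω]
    exact (F₁⟮η⟯).algebraMap_mem ω₁
  have hζ0 : ζ ≠ 0 := hζ.ne_zero hn.ne'
  rcases Nat.eq_zero_or_pos j with hj | hj
  · subst hj
    have h1 : ω = ζ := by rw [hω, pow_zero, pow_one]
    refine (tower σ₁ hr hσ₁ 0 F (-1) (by rw [pow_zero, pow_one]) (hmem _ ?_)).1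
    rw [← h1]
    exact hωmem _
  · obtain ⟨i, rfl⟩ : ∃ i, j = i + 1 := ⟨j - 1, by omega⟩
    set η : F := ζ ^ m with hη
    have hηp : η ^ (2 ^ i) = -1 := by
      have h1 : (η ^ (2 ^ i)) ^ 2 = 1 := by
        rw [hη, ← pow_mul, ← pow_mul, ← pow_succ, mul_comm, ← hnm, hζ.pow_eq_one]
      have h2 : η ^ (2 ^ i) ≠ 1 := by
        intro h
        rw [hη, ← pow_mul] at h
        have h3 := hζ.dvd_of_pow_eq_one _ h
        have h4 : 0 < m * 2 ^ i := Nat.mul_pos hm.pos (by positivity)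
        have h5 := Nat.le_of_dvd h4 h3
        rw [hnm, pow_succ] at h5
        nlinarith
      rcases sq_eq_one_iff.mp h1 with h | h
      · exact absurd h h2
      · exact h
    refine (tower σ₁ hr hσ₁ i F η hηp (hmem _ ?_)).1
    obtain ⟨a, b, hab⟩ : IsCoprime ((2 ^ (i + 1) : ℕ) : ℤ) (m : ℤ) :=
      Nat.isCoprime_iff_coprime.mpr hcop
    have h1 : ζ = ω ^ a * η ^ b := by
      rw [hω, hη, ← zpow_natCast ζ (2 ^ (i + 1)), ← zpow_natCast ζ m, ← zpow_mul, ← zpow_mul,
        ← zpow_add₀ hζ0, mul_comm _ a, mul_comm _ b, hab, zpow_one]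
    rw [h1]
    exact mul_mem (zpow_mem (hωmem η) a) (zpow_mem (mem_adjoin_simple_self F₁ η) b)

/-- the field step -/
theorem monicE' {F : Type} [Field F] [NumberField F] {c : ℝ} (hB : Bd F c) (f : ℤ[X]) (hfm : f.Monic)
    (hf : Irreducible f) (hM : 1 < (f.map (Int.castRingHom ℂ)).mahlerMeasure)
    (E : Type) [Field E] [NumberField E] [Algebra F E] (α : E)
    (hfα' : eval₂ (Int.castRingHom E) α f = 0) (hgen : F⟮α⟯ = ⊤) :
    c ≤ (finrank F E : ℝ) ^ 2 * (wsum f / f.natDegree) := by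
  classical
  haveI : FiniteDimensional F E := FiniteDimensional.right ℚ F E
  have hfα : aeval α f = 0 := hfα'
  have hαi : IsIntegral ℤ α := ⟨f, hfm, by rw [← aeval_def]; exact hfα⟩
  have hmin : minpoly ℤ α = f := by
    have h1 : minpoly ℤ α ∣ f := minpoly.isIntegrallyClosed_dvd hαi hfα
    have h2 : Associated (minpoly ℤ α) f :=
      (minpoly.irreducible hαi).associated_of_dvd hf h1
    exact eq_of_monic_of_associated (minpoly.monic hαi) hfm h2
  have hMone : ∀ p : ℤ[X], p ≠ 0 → f ∣ p →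
      (p.map (Int.castRingHom ℂ)).mahlerMeasure ≤ 1 → False := by
    intro p hp0 hfp hp1
    obtain ⟨k, hk⟩ := hfp
    have hk0 : k ≠ 0 := by
      rintro rfl
      rw [mul_zero] at hk
      exact hp0 hk
    have h1 : (p.map (Int.castRingHom ℂ)).mahlerMeasure =
        (f.map (Int.castRingHom ℂ)).mahlerMeasure * (k.map (Int.castRingHom ℂ)).mahlerMeasure := by
      rw [hk, Polynomial.map_mul, mahlerMeasure_mul]
    have h2 : 1 ≤ (k.map (Int.castRingHom ℂ)).mahlerMeasure := by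
      apply one_le_mahlerMeasure_of_one_le_norm_leadingCoeff
      rw [leadingCoeff_map_of_injective (Int.castRingHom ℂ).injective_int, eq_intCast,
        Complex.norm_intCast]
      have : (1:ℤ) ≤ |k.leadingCoeff| := Int.one_le_abs (leadingCoeff_ne_zero.mpr hk0)
      exact_mod_cast this
    nlinarith
  have hα0 : α ≠ 0 := by
    intro h0
    apply hMone X X_ne_zero
    · rw [← hmin]
      apply minpoly.isIntegrallyClosed_dvd hαi
      rw [aeval_X, h0]
    · rw [Polynomial.map_X, mahlerMeasure_eq_leadingCoeff_mul_prod_roots]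
      simp
  have hroot : ∀ n : ℕ, 0 < n → α ^ n ≠ 1 := by
    intro n hn h1
    have hmonZ : (X ^ n - 1 : ℤ[X]).Monic := monic_X_pow_sub_C 1 hn.ne'
    apply hMone (X ^ n - 1) hmonZ.ne_zero
    · rw [← hmin]
      apply minpoly.isIntegrallyClosed_dvd hαi
      simp [h1]
    · have h2 : ((X ^ n - 1 : ℤ[X]).map (Int.castRingHom ℂ)) = X ^ n - 1 := by simp
      rw [h2, mahlerMeasure_eq_leadingCoeff_mul_prod_roots]
      have hmon : (X ^ n - 1 : ℂ[X]).Monic := monic_X_pow_sub_C 1 hn.ne'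
      rw [hmon.leadingCoeff, norm_one, one_mul]
      apply le_of_eq
      apply Multiset.prod_eq_one
      intro x hx
      obtain ⟨w, hw, rfl⟩ := Multiset.mem_map.mp hx
      have h3 : w ^ n = 1 := by
        have := (mem_roots hmon.ne_zero).mp hw
        rw [IsRoot.def, eval_sub, eval_pow, eval_X, eval_one] at this
        exact sub_eq_zero.mp this
      have h4 : ‖w‖ = 1 := Complex.norm_eq_one_of_pow_eq_one h3 hn.ne'
      rw [h4, max_self]
  have h1 := hB E α hαi hα0 hroot hgen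
  have h2 := sum_conj α hαi (fun z => hp (Real.posLog ‖z‖))
  rw [hmin] at h2
  have hfd : (0:ℝ) < f.natDegree := by
    rw [← hmin]; exact_mod_cast minpoly.natDegree_pos hαi
  have hN : (0:ℝ) < finrank ℚ F := by exact_mod_cast (finrank_pos : 0 < finrank ℚ F)
  have h3 : HH α = finrank ℚ E * wsum f / f.natDegree := by
    rw [eq_div_iff hfd.ne']
    exact h2
  have h4 : (finrank ℚ E : ℝ) = finrank ℚ F * finrank F E := by
    exact_mod_cast (Module.finrank_mul_finrank ℚ F E).symm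
  rw [h3, h4] at h1
  have h5 : (finrank F E : ℝ) * (finrank ℚ F * finrank F E * wsum f / f.natDegree) / finrank ℚ F =
      (finrank F E : ℝ) ^ 2 * (wsum f / f.natDegree) := by
    field_simp
  rw [h5] at h1
  exact h1

/-- monic polynomials -/
theorem monicF' {F : Type} [Field F] [NumberField F] {c : ℝ} (hB : Bd F c) (f : ℤ[X]) (hfm : f.Monic)
    (hf : Irreducible f) (hM : 1 < (f.map (Int.castRingHom ℂ)).mahlerMeasure) (g : F[X])
    (hg : g ∣ f.map (Int.castRingHom F)) (hd : 0 < g.natDegree) :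
    c ≤ (g.natDegree : ℝ) ^ 2 * (wsum f / f.natDegree) := by
  classical
  obtain ⟨h, hh, hhg⟩ := exists_irreducible_of_natDegree_pos hd
  have hg0 : g ≠ 0 := by
    rintro rfl
    simp at hd
  haveI : Fact (Irreducible h) := ⟨hh⟩
  have hle : h.natDegree ≤ g.natDegree := natDegree_le_of_dvd hhg hg0
  have hfinF : FiniteDimensional F (AdjoinRoot h) := (AdjoinRoot.powerBasis hh.ne_zero).finite
  haveI : CharZero (AdjoinRoot h) :=
    charZero_of_injective_algebraMap (algebraMap F (AdjoinRoot h)).injective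
  haveI hfin : FiniteDimensional ℚ (AdjoinRoot h) := Module.Finite.trans F (AdjoinRoot h)
  haveI : NumberField (AdjoinRoot h) :=
    { to_charZero := inferInstance, to_finiteDimensional := hfin }
  have hfα : eval₂ (Int.castRingHom (AdjoinRoot h)) (AdjoinRoot.root h) f = 0 := by
    have h1 : h ∣ f.map (Int.castRingHom F) := hhg.trans hg
    have h2 : eval₂ (algebraMap F (AdjoinRoot h)) (AdjoinRoot.root h)
        (f.map (Int.castRingHom F)) = 0 := by
      obtain ⟨k, hk⟩ := h1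
      rw [hk, eval₂_mul]
      have h3 : eval₂ (algebraMap F (AdjoinRoot h)) (AdjoinRoot.root h) h = 0 :=
        AdjoinRoot.eval₂_root h
      rw [h3, zero_mul]
    rw [eval₂_map] at h2
    have h4 : (algebraMap F (AdjoinRoot h)).comp (Int.castRingHom F) =
        Int.castRingHom (AdjoinRoot h) := RingHom.ext_int _ _
    rw [h4] at h2
    exact h2
  have hgen : F⟮(AdjoinRoot.root h : AdjoinRoot h)⟯ = ⊤ := by
    rw [eq_top_iff]
    intro x _
    have h1 : x ∈ Algebra.adjoin F {(AdjoinRoot.root h : AdjoinRoot h)} := by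
      rw [AdjoinRoot.adjoinRoot_eq_top]; trivial
    exact IntermediateField.algebra_adjoin_le_adjoin F {(AdjoinRoot.root h : AdjoinRoot h)} h1
  have hfr : finrank F (AdjoinRoot h) = h.natDegree := by
    rw [(AdjoinRoot.powerBasis hh.ne_zero).finrank, AdjoinRoot.powerBasis_dim]
  have h1 := monicE' hB f hfm hf hM (AdjoinRoot h) (AdjoinRoot.root h) hfα hgen
  rw [hfr] at h1
  refine h1.trans ?_
  have hw : 0 ≤ wsum f / f.natDegree := by
    apply div_nonneg _ (Nat.cast_nonneg _)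
    apply Multiset.sum_nonneg
    intro x hx
    obtain ⟨w, -, rfl⟩ := Multiset.mem_map.mp hx
    exact hp_nonneg Real.posLog_nonneg
  apply mul_le_mul_of_nonneg_right _ hw
  exact pow_le_pow_left₀ (Nat.cast_nonneg _) (by exact_mod_cast hle) 2

end Pool.Agent.X184.SZ
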